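import Mathlib

/-!
The explicit sequence of length 20 over `C_2^12 + C_3`.
-/

set_option autoImplicit false

namespace Pool.Agent.BB931D

/-- bit masks of the first components -/
def msk : Fin 20 → ℕ :=
  ![1721, 2957, 3285, 1654, 2778, 3406, 508, 3584, 1, 2, 4, 8, 16, 32, 64, 128, 256, 512, 1024, 2048]

/-- first components -/
def X (i : Fin 20) : Fin 12 → ZMod 2 := fun j => if (msk i).testBit j then 1 else 0

/-- second components -/
def W : Fin 20 → ZMod 3 := ![1, 1, 1, 1, 1, 1, 1, 2, 1, 1, 1, 1, 1, 1, 1, 1, 1, 2, 2, 2]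

/-- the map `ZMod 2 → ZMod 3` with `0 ↦ 0`, `1 ↦ 1` -/
def lift3 (a : ZMod 2) : ZMod 3 := if a = 1 then 1 else 0

/-- linear combination of the first eight vectors -/
def row (b0 b1 b2 b3 b4 b5 b6 b7 : ZMod 2) (j : Fin 12) : ZMod 2 :=
  b0 * X 0 j + b1 * X 1 j + b2 * X 2 j + b3 * X 3 j + b4 * X 4 j + b5 * X 5 j + b6 * X 6 j
    + b7 * X 7 j

/-- the resulting second component -/
def tot (b0 b1 b2 b3 b4 b5 b6 b7 : ZMod 2) : ZMod 3 :=
  lift3 b0 + lift3 b1 + lift3 b2 + lift3 b3 + lift3 b4 + lift3 b5 + lift3 b6 + lift3 b7 * 2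
    + lift3 (row b0 b1 b2 b3 b4 b5 b6 b7 0) + lift3 (row b0 b1 b2 b3 b4 b5 b6 b7 1)
    + lift3 (row b0 b1 b2 b3 b4 b5 b6 b7 2) + lift3 (row b0 b1 b2 b3 b4 b5 b6 b7 3)
    + lift3 (row b0 b1 b2 b3 b4 b5 b6 b7 4) + lift3 (row b0 b1 b2 b3 b4 b5 b6 b7 5)
    + lift3 (row b0 b1 b2 b3 b4 b5 b6 b7 6) + lift3 (row b0 b1 b2 b3 b4 b5 b6 b7 7)
    + lift3 (row b0 b1 b2 b3 b4 b5 b6 b7 8) + lift3 (row b0 b1 b2 b3 b4 b5 b6 b7 9) * 2
    + lift3 (row b0 b1 b2 b3 b4 b5 b6 b7 10) * 2 + lift3 (row b0 b1 b2 b3 b4 b5 b6 b7 11) * 2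

/-- the checked property -/
def okb (b0 b1 b2 b3 b4 b5 b6 b7 : ZMod 2) : Bool :=
  !(decide (tot b0 b1 b2 b3 b4 b5 b6 b7 = 0)) ||
    (decide (b1 = b0) && decide (b2 = b0) && decide (b3 = b0) && decide (b4 = b0)
      && decide (b5 = b0) && decide (b6 = b0) && decide (b7 = b0))

lemma okb_all4 : ∀ b0 b1 b2 b3 : ZMod 2, ∀ b4 b5 b6 b7 : ZMod 2,
    okb b0 b1 b2 b3 b4 b5 b6 b7 = true := by
  decide +kernel

open Finset

lemma X_unit : ∀ j' j : Fin 12, X (Fin.natAdd 8 j') j = if j' = j then 1 else 0 := by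
  decide +kernel

lemma row_ones : ∀ j : Fin 12, row 1 1 1 1 1 1 1 1 j = 1 := by
  decide +kernel

lemma row_zeros : ∀ j : Fin 12, row 0 0 0 0 0 0 0 0 j = 0 := by
  decide +kernel

theorem explicit_min (T : Finset (Fin 20)) (hx : ∑ i ∈ T, X i = 0) (hw : ∑ i ∈ T, W i = 0) :
    T = ∅ ∨ T = univ := by
  classical
  set c : Fin 20 → ZMod 2 := fun i => if i ∈ T then 1 else 0 with hc
  have hcol : ∀ j : Fin 12, row (c 0) (c 1) (c 2) (c 3) (c 4) (c 5) (c 6) (c 7) j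
      + c (Fin.natAdd 8 j) = 0 := by
    intro j
    have h1 : ∑ i, c i * X i j = 0 := by
      have h2 := congrFun hx j
      rw [Finset.sum_apply, Pi.zero_apply] at h2
      rw [← h2]
      have h3 : ∑ i ∈ T, X i j = ∑ i, if i ∈ T then X i j else 0 := by
        rw [Finset.sum_ite_mem, Finset.univ_inter]
      rw [h3]
      refine Finset.sum_congr rfl fun i _ => ?_
      rw [hc]
      by_cases hi : i ∈ T
      · simp only [if_pos hi, one_mul]
      · simp only [if_neg hi, zero_mul]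
    have h2 : ∑ i : Fin (8 + 12), c i * X i j = ∑ i : Fin 8, c (Fin.castAdd 12 i) * X (Fin.castAdd 12 i) j
        + ∑ i : Fin 12, c (Fin.natAdd 8 i) * X (Fin.natAdd 8 i) j :=
      Fin.sum_univ_add (fun i : Fin (8 + 12) => c i * X i j)
    have h3 : ∑ i : Fin 12, c (Fin.natAdd 8 i) * X (Fin.natAdd 8 i) j = c (Fin.natAdd 8 j) := by
      rw [Finset.sum_eq_single j]
      · rw [X_unit, if_pos rfl, mul_one]
      · intro b _ hb; rw [X_unit, if_neg hb, mul_zero]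
      · intro h; exact absurd (Finset.mem_univ _) h
    have h4 : ∑ i : Fin 8, c (Fin.castAdd 12 i) * X (Fin.castAdd 12 i) j
        = row (c 0) (c 1) (c 2) (c 3) (c 4) (c 5) (c 6) (c 7) j := by
      rw [Fin.sum_univ_eight]; rfl
    rw [← h4, ← h3, ← h2]; exact h1
  have hcol' : ∀ j : Fin 12, c (Fin.natAdd 8 j) = row (c 0) (c 1) (c 2) (c 3) (c 4) (c 5) (c 6) (c 7) j := by
    intro j
    have h := hcol j
    generalize row (c 0) (c 1) (c 2) (c 3) (c 4) (c 5) (c 6) (c 7) j = r at h ⊢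
    generalize c (Fin.natAdd 8 j) = t at h ⊢
    revert r t; decide
  have htot : tot (c 0) (c 1) (c 2) (c 3) (c 4) (c 5) (c 6) (c 7) = 0 := by
    have h1 : ∑ i, lift3 (c i) * W i = 0 := by
      rw [← hw]
      have h3 : ∑ i ∈ T, W i = ∑ i, if i ∈ T then W i else 0 := by
        rw [Finset.sum_ite_mem, Finset.univ_inter]
      rw [h3]
      refine Finset.sum_congr rfl fun i _ => ?_
      rw [hc]
      by_cases hi : i ∈ T
      · simp only [if_pos hi, lift3, if_true, one_mul]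
      · simp only [if_neg hi, lift3]
        rw [if_neg (by decide), zero_mul]
    have h2 : ∑ i : Fin (8 + 12), lift3 (c i) * W i
        = ∑ i : Fin 8, lift3 (c (Fin.castAdd 12 i)) * W (Fin.castAdd 12 i)
        + ∑ i : Fin 12, lift3 (c (Fin.natAdd 8 i)) * W (Fin.natAdd 8 i) :=
      Fin.sum_univ_add (fun i : Fin (8 + 12) => lift3 (c i) * W i)
    have h5 : ∑ i : Fin (8 + 12), lift3 (c i) * W i = 0 := h1
    rw [h2, Fin.sum_univ_eight] at h5
    simp only [hcol'] at h5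
    rw [← h5]
    unfold tot
    simp only [Fin.sum_univ_succ, Fin.sum_univ_zero]
    have e0 : W (Fin.castAdd 12 0) = 1 := rfl
    have e1 : W (Fin.castAdd 12 1) = 1 := rfl
    have e2 : W (Fin.castAdd 12 2) = 1 := rfl
    have e3 : W (Fin.castAdd 12 3) = 1 := rfl
    have e4 : W (Fin.castAdd 12 4) = 1 := rfl
    have e5 : W (Fin.castAdd 12 5) = 1 := rfl
    have e6 : W (Fin.castAdd 12 6) = 1 := rfl
    have e7 : W (Fin.castAdd 12 7) = 2 := rfl
    rw [e0, e1, e2, e3, e4, e5, e6, e7]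
    have hW : ∀ j : Fin 12, W (Fin.natAdd 8 j) = if (j : ℕ) < 9 then 1 else 2 := by decide
    simp only [hW]
    have c0 : c (Fin.castAdd 12 0) = c 0 := rfl
    have c1 : c (Fin.castAdd 12 1) = c 1 := rfl
    have c2 : c (Fin.castAdd 12 2) = c 2 := rfl
    have c3 : c (Fin.castAdd 12 3) = c 3 := rfl
    have c4 : c (Fin.castAdd 12 4) = c 4 := rfl
    have c5 : c (Fin.castAdd 12 5) = c 5 := rfl
    have c6 : c (Fin.castAdd 12 6) = c 6 := rfl
    have c7 : c (Fin.castAdd 12 7) = c 7 := rfl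
    rw [c0, c1, c2, c3, c4, c5, c6, c7]
    have s1 : (Fin.succ 0 : Fin 12) = 1 := rfl
    have s2 : (Fin.succ (Fin.succ 0) : Fin 12) = 2 := rfl
    have s3 : (Fin.succ (Fin.succ (Fin.succ 0)) : Fin 12) = 3 := rfl
    have s4 : (Fin.succ (Fin.succ (Fin.succ (Fin.succ 0))) : Fin 12) = 4 := rfl
    have s5 : (Fin.succ (Fin.succ (Fin.succ (Fin.succ (Fin.succ 0)))) : Fin 12) = 5 := rfl
    have s6 : (Fin.succ (Fin.succ (Fin.succ (Fin.succ (Fin.succ (Fin.succ 0))))) : Fin 12) = 6 := rfl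
    have s7 : (Fin.succ (Fin.succ (Fin.succ (Fin.succ (Fin.succ (Fin.succ (Fin.succ 0)))))) : Fin 12) = 7 := rfl
    have s8 : (Fin.succ (Fin.succ (Fin.succ (Fin.succ (Fin.succ (Fin.succ (Fin.succ (Fin.succ 0))))))) : Fin 12) = 8 := rfl
    have s9 : (Fin.succ (Fin.succ (Fin.succ (Fin.succ (Fin.succ (Fin.succ (Fin.succ (Fin.succ (Fin.succ 0)))))))) : Fin 12) = 9 := rfl
    have s10 : (Fin.succ (Fin.succ (Fin.succ (Fin.succ (Fin.succ (Fin.succ (Fin.succ (Fin.succ (Fin.succ (Fin.succ 0))))))))) : Fin 12) = 10 := rfl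
    have s11 : (Fin.succ (Fin.succ (Fin.succ (Fin.succ (Fin.succ (Fin.succ (Fin.succ (Fin.succ (Fin.succ (Fin.succ (Fin.succ 0)))))))))) : Fin 12) = 11 := rfl
    rw [s11, s10, s9, s8, s7, s6, s5, s4, s3, s2, s1]
    have t0 : ((0 : Fin 12) : ℕ) < 9 := by decide
    have t1 : ((1 : Fin 12) : ℕ) < 9 := by decide
    have t2 : ((2 : Fin 12) : ℕ) < 9 := by decide
    have t3 : ((3 : Fin 12) : ℕ) < 9 := by decide
    have t4 : ((4 : Fin 12) : ℕ) < 9 := by decide
    have t5 : ((5 : Fin 12) : ℕ) < 9 := by decide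
    have t6 : ((6 : Fin 12) : ℕ) < 9 := by decide
    have t7 : ((7 : Fin 12) : ℕ) < 9 := by decide
    have t8 : ((8 : Fin 12) : ℕ) < 9 := by decide
    have t9 : ¬ ((9 : Fin 12) : ℕ) < 9 := by decide
    have t10 : ¬ ((10 : Fin 12) : ℕ) < 9 := by decide
    have t11 : ¬ ((11 : Fin 12) : ℕ) < 9 := by decide
    rw [if_pos t0, if_pos t1, if_pos t2, if_pos t3, if_pos t4, if_pos t5, if_pos t6, if_pos t7,
      if_pos t8, if_neg t9, if_neg t10, if_neg t11]
    ring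
  have hok := okb_all4 (c 0) (c 1) (c 2) (c 3) (c 4) (c 5) (c 6) (c 7)
  unfold okb at hok
  rw [htot] at hok
  simp only [decide_true, Bool.not_true, Bool.false_or, Bool.and_eq_true, decide_eq_true_eq] at hok
  obtain ⟨⟨⟨⟨⟨⟨k1, k2⟩, k3⟩, k4⟩, k5⟩, k6⟩, k7⟩ := hok
  rw [k1, k2, k3, k4, k5, k6, k7] at hcol'
  have hval : ∀ t : ZMod 2, t = 0 ∨ t = 1 := by decide
  have hsplit : ∀ P : Fin 20 → Prop, P 0 → P 1 → P 2 → P 3 → P 4 → P 5 → P 6 → P 7 →
      (∀ j : Fin 12, P (Fin.natAdd 8 j)) → ∀ i, P i := by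
    intro P p0 p1 p2 p3 p4 p5 p6 p7 pj i
    refine Fin.addCases (m := 8) (n := 12) (motive := fun i => P i) ?_ pj i
    intro j
    fin_cases j <;> assumption
  rcases hval (c 0) with h0 | h0
  · left
    rw [h0] at hcol' k1 k2 k3 k4 k5 k6 k7
    have hall : ∀ i, c i = 0 := by
      refine hsplit _ h0 k1 k2 k3 k4 k5 k6 k7 fun j => ?_
      rw [hcol' j, row_zeros]
    rw [Finset.eq_empty_iff_forall_notMem]
    intro i hi
    have := hall i
    rw [hc] at this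
    simp only [if_pos hi] at this
    exact absurd this (by decide)
  · right
    rw [h0] at hcol' k1 k2 k3 k4 k5 k6 k7
    have hall : ∀ i, c i = 1 := by
      refine hsplit _ h0 k1 k2 k3 k4 k5 k6 k7 fun j => ?_
      rw [hcol' j, row_ones]
    rw [Finset.eq_univ_iff_forall]
    intro i
    by_contra hi
    have := hall i
    rw [hc] at this
    simp only [if_neg hi] at this
    exact absurd this (by decide)

lemma sum_X : ∑ i, X i = 0 := by
  funext j
  rw [Finset.sum_apply]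
  revert j
  decide +kernel

lemma sum_W : ∑ i, W i = 0 := by
  decide +kernel

end Pool.Agent.BB931D
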