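import Pool.Agent.Lib_MP_bb931d_co.Reduction
import Pool.Agent.Lib_MP_bb931d_co.Explicit

/-!
Minimal zero-sum sequences over `C_2^12 + C_3`.
-/

set_option autoImplicit false

namespace Pool.Agent.BB931D

open Finset

/-- the group -/
abbrev G : Type := (Fin 12 → ZMod 2) × ZMod 3

/-- minimal zero-sum sequences -/
def IsMin (A : Multiset G) : Prop :=
  A ≠ 0 ∧ A.sum = 0 ∧ ∀ B : Multiset G, B ≤ A → B ≠ 0 → B.sum = 0 → B = A

/-- signed weight of a sequence -/
def sgw (A : Multiset G) : ℤ := (A.map fun g => ep g.2).sum

lemma IsMin.exists_fun {A : Multiset G} (hA : IsMin A) {L : ℕ} (hL : Multiset.card A = L) :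
    ∃ f : Fin L → G, A = (univ : Finset (Fin L)).val.map f ∧
      ∀ T : Finset (Fin L), ∑ i ∈ T, f i = 0 → T = ∅ ∨ T = univ := by
  classical
  obtain ⟨l, rfl⟩ : ∃ l : List G, A = (l : Multiset G) := ⟨A.toList, (Multiset.coe_toList A).symm⟩
  rw [Multiset.coe_card] at hL
  subst hL
  have h1 : (l : Multiset G) = (univ : Finset (Fin l.length)).val.map l.get := by
    rw [Fin.univ_val_map, List.ofFn_get]
  refine ⟨l.get, h1, fun T hT => ?_⟩
  by_cases hTe : T = ∅
  · left; exact hTe
  · right
    have hle : T.val.map l.get ≤ (l : Multiset G) := by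
      rw [h1]
      exact Multiset.map_le_map (Finset.val_le_iff.2 (Finset.subset_univ T))
    have hne : T.val.map l.get ≠ 0 := by
      intro h
      apply hTe
      rw [Multiset.map_eq_zero, Finset.val_eq_zero] at h
      exact h
    have h2 := hA.2.2 _ hle hne hT
    have h3 := congrArg Multiset.card h2
    rw [Multiset.card_map, Multiset.coe_card] at h3
    apply Finset.eq_univ_of_card
    rw [Fintype.card_fin]
    exact h3

lemma split_fun {L : ℕ} {f : Fin L → G}
    (h : ∀ T : Finset (Fin L), ∑ i ∈ T, f i = 0 → T = ∅ ∨ T = univ) :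
    ∀ T : Finset (Fin L), ∑ i ∈ T, (f i).1 = 0 → ∑ i ∈ T, (f i).2 = 0 → T = ∅ ∨ T = univ := by
  intro T h1 h2
  apply h
  rw [Prod.ext_iff]
  exact ⟨by rw [Prod.fst_sum]; exact h1, by rw [Prod.snd_sum]; exact h2⟩

lemma IsMin.sgw_twenty {A : Multiset G} (hA : IsMin A) (hc : Multiset.card A = 20) :
    sgw A ^ 2 = 144 := by
  obtain ⟨f, hf, hmin⟩ := hA.exists_fun hc
  have hs : ∑ i, (f i).2 = 0 := by
    have h1 : ∑ i, f i = 0 := by
      have := hA.2.1
      rw [hf] at this
      exact this
    rw [← Prod.snd_sum, h1]; rfl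
  have := long_sequence (fun i => (f i).1) (fun i => (f i).2) hs (split_fun hmin)
  have h2 : sgw A = ∑ i, ep ((f i).2) := by
    unfold sgw
    rw [hf, Multiset.map_map]
    rfl
  rw [h2]; exact this

lemma IsMin.card_ne {A : Multiset G} (hA : IsMin A) : Multiset.card A ≠ 21 := by
  intro hc
  obtain ⟨f, hf, hmin⟩ := hA.exists_fun hc
  have hs : ∑ i, (f i).2 = 0 := by
    have h1 : ∑ i, f i = 0 := by
      have := hA.2.1
      rw [hf] at this
      exact this
    rw [← Prod.snd_sum, h1]; rfl
  exact no_longer_sequence (fun i => (f i).1) (fun i => (f i).2) hs (split_fun hmin)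

lemma IsMin.merge {A : Multiset G} (hA : IsMin A) {n : ℕ} (hc : Multiset.card A = n + 3) :
    ∃ A', IsMin A' ∧ Multiset.card A' = n + 2 := by
  classical
  obtain ⟨g, A1, rfl⟩ : ∃ g A1, A = g ::ₘ A1 := by
    obtain ⟨g, hg⟩ := Multiset.exists_mem_of_ne_zero hA.1
    exact ⟨g, A.erase g, (Multiset.cons_erase hg).symm⟩
  have hA1 : A1 ≠ 0 := by
    rintro rfl
    simp at hc
  obtain ⟨h, A2, rfl⟩ : ∃ h A2, A1 = h ::ₘ A2 := by
    obtain ⟨g, hg⟩ := Multiset.exists_mem_of_ne_zero hA1
    exact ⟨g, A1.erase g, (Multiset.cons_erase hg).symm⟩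
  rw [Multiset.card_cons, Multiset.card_cons] at hc
  refine ⟨(g + h) ::ₘ A2, ⟨Multiset.cons_ne_zero, ?_, ?_⟩, ?_⟩
  · have := hA.2.1
    rw [Multiset.sum_cons, Multiset.sum_cons] at this
    rw [Multiset.sum_cons, add_assoc]; exact this
  · intro B hB hB0 hBs
    by_cases hm : (g + h) ∈ B
    · obtain ⟨C, rfl⟩ : ∃ C, B = (g + h) ::ₘ C := ⟨B.erase (g + h), (Multiset.cons_erase hm).symm⟩
      have hC : C ≤ A2 := (Multiset.cons_le_cons_iff _).1 hB
      have h1 : g ::ₘ h ::ₘ C ≤ g ::ₘ h ::ₘ A2 :=
        (Multiset.cons_le_cons_iff _).2 ((Multiset.cons_le_cons_iff _).2 hC)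
      have h2 : (g ::ₘ h ::ₘ C).sum = 0 := by
        rw [Multiset.sum_cons] at hBs
        rw [Multiset.sum_cons, Multiset.sum_cons, ← add_assoc]; exact hBs
      have h3 := hA.2.2 _ h1 Multiset.cons_ne_zero h2
      have h4 : C = A2 := by
        rw [Multiset.cons_inj_right, Multiset.cons_inj_right] at h3
        exact h3
      rw [h4]
    · exfalso
      have h1 : B ≤ A2 := (Multiset.le_cons_of_notMem hm).1 hB
      have h2 : B ≤ g ::ₘ h ::ₘ A2 :=
        h1.trans ((Multiset.le_cons_self _ _).trans (Multiset.le_cons_self _ _))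
      have h3 := hA.2.2 _ h2 hB0 hBs
      have h4 := Multiset.card_le_card h1
      rw [h3, Multiset.card_cons, Multiset.card_cons] at h4
      omega
  · rw [Multiset.card_cons]; omega

lemma IsMin.card_le {A : Multiset G} (hA : IsMin A) : Multiset.card A ≤ 20 := by
  have key : ∀ m : ℕ, ∀ B : Multiset G, IsMin B → Multiset.card B ≠ 21 + m := by
    intro m
    induction m with
    | zero => intro B hB; exact hB.card_ne
    | succ m ih =>
      intro B hB hc
      obtain ⟨B', hB', hc'⟩ := hB.merge (n := 19 + m) (by omega)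
      exact ih B' hB' (by omega)
  by_contra h
  push Not at h
  exact key (Multiset.card A - 21) A hA (by omega)

/-- the explicit sequence -/
lemma exists_twenty : ∃ A : Multiset G, IsMin A ∧ Multiset.card A = 20 := by
  classical
  set f : Fin 20 → G := fun i => (X i, W i) with hf
  have hinj : Function.Injective f := by
    intro i j hij
    have h1 : X i = X j := congrArg Prod.fst hij
    have h2 : ∀ i j : Fin 20, (∀ k, X i k = X j k) → i = j := by decide +kernel
    exact h2 i j (fun k => congrFun h1 k)
  refine ⟨(univ : Finset (Fin 20)).val.map f, ⟨?_, ?_, ?_⟩, ?_⟩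
  · intro h
    have := congrArg Multiset.card h
    rw [Multiset.card_map] at this
    simp at this
  · have : ∑ i, f i = 0 := by
      rw [Prod.ext_iff]
      exact ⟨by rw [Prod.fst_sum]; exact sum_X, by rw [Prod.snd_sum]; exact sum_W⟩
    exact this
  · intro B hB hB0 hBs
    have hnod : ((univ : Finset (Fin 20)).val.map f).Nodup :=
      (Multiset.nodup_map_iff_of_injective hinj).2 (Finset.nodup _)
    have hBn : B.Nodup := Multiset.nodup_of_le hB hnod
    set T : Finset (Fin 20) := univ.filter (fun i => f i ∈ B) with hT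
    have hBT : B = T.val.map f := by
      rw [Multiset.Nodup.ext hBn ((Multiset.nodup_map_iff_of_injective hinj).2 (Finset.nodup _))]
      intro g
      rw [Multiset.mem_map]
      constructor
      · intro hg
        have := Multiset.mem_of_le hB hg
        rw [Multiset.mem_map] at this
        obtain ⟨i, -, hi⟩ := this
        refine ⟨i, ?_, hi⟩
        rw [Finset.mem_val, hT, Finset.mem_filter, hi]
        exact ⟨Finset.mem_univ _, hg⟩
      · rintro ⟨i, hi, rfl⟩
        rw [Finset.mem_val, hT, Finset.mem_filter] at hi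
        exact hi.2
    have hTs : ∑ i ∈ T, f i = 0 := by
      rw [hBT] at hBs; exact hBs
    have hx : ∑ i ∈ T, X i = 0 := by
      have := congrArg Prod.fst hTs
      rw [Prod.fst_sum] at this
      exact this
    have hw : ∑ i ∈ T, W i = 0 := by
      have := congrArg Prod.snd hTs
      rw [Prod.snd_sum] at this
      exact this
    rcases explicit_min T hx hw with h | h
    · exfalso; apply hB0; rw [hBT, h]; rfl
    · rw [hBT, h]
  · rw [Multiset.card_map]; simp

lemma not_cyclic : ¬ IsAddCyclic G := by
  intro hcyc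
  obtain ⟨g, hg⟩ := hcyc.exists_generator
  have h1 : addOrderOf g = Nat.card G := addOrderOf_eq_card_of_forall_mem_zmultiples hg
  have h2 : (6 : ℕ) • g = 0 := by
    rw [Prod.ext_iff]
    constructor
    · funext i
      show (6 : ℕ) • g.1 i = 0
      generalize g.1 i = t
      revert t; decide
    · show (6 : ℕ) • g.2 = 0
      generalize g.2 = t
      revert t; decide
  have h3 : addOrderOf g ≤ 6 := addOrderOf_le_of_nsmul_eq_zero (by norm_num) h2
  have h4 : Nat.card G = 2 ^ 12 * 3 := by
    rw [Nat.card_prod, Nat.card_fun, Nat.card_zmod, Nat.card_zmod]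
    simp
  rw [h1, h4] at h3
  norm_num at h3

/-- behaviour of the element `0` -/
lemma IsMin.count_zero_cases {A : Multiset G} (hA : IsMin A) :
    (A.count 0 = 1 ∧ Multiset.card A = 1) ∨ (A.count 0 = 0 ∧ 2 ≤ Multiset.card A) := by
  classical
  by_cases h0 : (0 : G) ∈ A
  · left
    have h1 : ({0} : Multiset G) ≤ A := Multiset.singleton_le.2 h0
    have h2 := hA.2.2 _ h1 (Multiset.singleton_ne_zero 0) (Multiset.sum_singleton 0)
    rw [← h2]
    exact ⟨Multiset.count_singleton_self 0, Multiset.card_singleton 0⟩
  · right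
    refine ⟨Multiset.count_eq_zero.2 h0, ?_⟩
    have h1 : 0 < Multiset.card A := Multiset.card_pos.2 hA.1
    by_contra hlt
    have h2 : Multiset.card A = 1 := by omega
    obtain ⟨g, rfl⟩ := Multiset.card_eq_one.1 h2
    have := hA.2.1
    rw [Multiset.sum_singleton] at this
    apply h0
    rw [this]; exact Multiset.mem_singleton_self _

lemma IsMin.sgw_two {A : Multiset G} (hA : IsMin A) (hc : Multiset.card A = 2) : sgw A = 0 := by
  obtain ⟨g, h, rfl⟩ := Multiset.card_eq_two.1 hc
  have h1 := hA.2.1
  have h2 : g + h = 0 := by simpa using h1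
  have h3 : h = -g := (neg_eq_of_add_eq_zero_right h2).symm
  unfold sgw
  rw [h3]
  simp [ep_neg]

lemma sgw_add (A B : Multiset G) : sgw (A + B) = sgw A + sgw B := by
  unfold sgw
  rw [Multiset.map_add, Multiset.sum_add]

lemma sgw_list_sum (l : List (Multiset G)) : sgw l.sum = (l.map sgw).sum := by
  induction l with
  | nil => simp [sgw]
  | cons a l ih => rw [List.sum_cons, List.map_cons, List.sum_cons, sgw_add, ih]

lemma card_list_sum (l : List (Multiset G)) :
    (Multiset.card l.sum : ℤ) = (l.map fun A => (Multiset.card A : ℤ)).sum := by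
  induction l with
  | nil => simp
  | cons a l ih => rw [List.sum_cons, List.map_cons, List.sum_cons, Multiset.card_add]; push_cast; rw [ih]

lemma count_list_sum (l : List (Multiset G)) :
    (Multiset.count 0 l.sum : ℤ) = (l.map fun A => (Multiset.count 0 A : ℤ)).sum := by
  classical
  induction l with
  | nil => simp
  | cons a l ih => rw [List.sum_cons, List.map_cons, List.sum_cons, Multiset.count_add]; push_cast; rw [ih]

/-- the obstruction -/
theorem no_long_factorization (k : ℕ) (xs ys : List (Multiset G)) (hx : xs.length = 2 * k + 1)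
    (hy : ys.length = k * 20 + 10) (hxs : ∀ A ∈ xs, IsMin A) (hys : ∀ A ∈ ys, IsMin A)
    (heq : xs.sum = ys.sum) : False := by
  classical
  -- bounds on the number of terms
  have hxle : ∀ l : List (Multiset G), (∀ A ∈ l, IsMin A) →
      (l.map fun A => (Multiset.card A : ℤ)).sum
        ≤ 20 * l.length - 19 * (l.map fun A => (Multiset.count 0 A : ℤ)).sum := by
    intro l
    induction l with
    | nil => intro _; simp
    | cons a l ih =>
      intro h
      have h1 := ih (fun A hA => h A (List.mem_cons_of_mem _ hA))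
      have h2 := h a List.mem_cons_self
      have h3 := h2.card_le
      rw [List.map_cons, List.sum_cons, List.map_cons, List.sum_cons, List.length_cons]
      push_cast
      rcases h2.count_zero_cases with ⟨h4, h5⟩ | ⟨h4, h5⟩
      · rw [h4, h5]; push_cast; linarith
      · rw [h4]; push_cast
        have : (Multiset.card a : ℤ) ≤ 20 := by exact_mod_cast h3
        linarith
  have hyge : ∀ l : List (Multiset G), (∀ A ∈ l, IsMin A) →
      2 * (l.length : ℤ) - (l.map fun A => (Multiset.count 0 A : ℤ)).sum
        ≤ (l.map fun A => (Multiset.card A : ℤ)).sum := by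
    intro l
    induction l with
    | nil => intro _; simp
    | cons a l ih =>
      intro h
      have h1 := ih (fun A hA => h A (List.mem_cons_of_mem _ hA))
      have h2 := h a List.mem_cons_self
      rw [List.map_cons, List.sum_cons, List.map_cons, List.sum_cons, List.length_cons]
      push_cast
      rcases h2.count_zero_cases with ⟨h4, h5⟩ | ⟨h4, h5⟩
      · rw [h4, h5]; push_cast; linarith
      · rw [h4]; push_cast
        have : (2 : ℤ) ≤ (Multiset.card a : ℤ) := by exact_mod_cast h5
        linarith
  have e1 := hxle xs hxs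
  have e2 := hyge ys hys
  rw [← card_list_sum, ← count_list_sum, hx] at e1
  rw [← card_list_sum, ← count_list_sum, hy, ← heq] at e2
  push_cast at e1 e2
  have ht : (Multiset.count 0 xs.sum : ℤ) = 0 := by
    have : (0 : ℤ) ≤ (Multiset.count 0 xs.sum : ℤ) := Int.natCast_nonneg _
    linarith
  have hcard : (Multiset.card xs.sum : ℤ) = 20 * (2 * k + 1) := by
    rw [ht] at e1 e2; linarith
  -- every term of `xs` has length `20`
  have hxall : ∀ l : List (Multiset G), (∀ A ∈ l, IsMin A) →
      (l.map fun A => (Multiset.card A : ℤ)).sum = 20 * l.length →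
      ∃ m : ℤ, (l.map sgw).sum = 4 * l.length + 8 * m := by
    intro l
    induction l with
    | nil => intro _ _; exact ⟨0, by simp⟩
    | cons a l ih =>
      intro h hs
      have h1 : ∀ A ∈ l, IsMin A := fun A hA => h A (List.mem_cons_of_mem _ hA)
      have h2 := h a List.mem_cons_self
      have h3 := h2.card_le
      have h4 : (l.map fun A => (Multiset.card A : ℤ)).sum ≤ 20 * l.length := by
        have h5 := hxle l h1
        have h6 : (0 : ℤ) ≤ (l.map fun A => (Multiset.count 0 A : ℤ)).sum := by
          rw [← count_list_sum]; exact Int.natCast_nonneg _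
        linarith
      rw [List.map_cons, List.sum_cons, List.length_cons] at hs
      push_cast at hs
      have h7 : (Multiset.card a : ℤ) ≤ 20 := by exact_mod_cast h3
      have h8 : (Multiset.card a : ℤ) = 20 := by linarith
      have h9 : Multiset.card a = 20 := by exact_mod_cast h8
      obtain ⟨m, hm⟩ := ih h1 (by linarith)
      have h10 := h2.sgw_twenty h9
      have h11 : sgw a = 12 ∨ sgw a = -12 := by
        have : (sgw a - 12) * (sgw a + 12) = 0 := by linear_combination h10
        rcases mul_eq_zero.1 this with h | h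
        · left; linarith
        · right; linarith
      rw [List.map_cons, List.sum_cons, List.length_cons, hm]
      rcases h11 with h | h
      · exact ⟨m + 1, by rw [h]; push_cast; ring⟩
      · exact ⟨m - 2, by rw [h]; push_cast; ring⟩
  -- every term of `ys` has length `2`
  have hyall : ∀ l : List (Multiset G), (∀ A ∈ l, IsMin A) →
      (l.map fun A => (Multiset.count 0 A : ℤ)).sum = 0 →
      (l.map fun A => (Multiset.card A : ℤ)).sum = 2 * l.length →
      (l.map sgw).sum = 0 := by
    intro l
    induction l with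
    | nil => intro _ _ _; simp
    | cons a l ih =>
      intro h h0 hs
      have h1 : ∀ A ∈ l, IsMin A := fun A hA => h A (List.mem_cons_of_mem _ hA)
      have h2 := h a List.mem_cons_self
      rw [List.map_cons, List.sum_cons] at h0
      have h6 : (0 : ℤ) ≤ (l.map fun A => (Multiset.count 0 A : ℤ)).sum := by
        rw [← count_list_sum]; exact Int.natCast_nonneg _
      have h7 : (0 : ℤ) ≤ (Multiset.count 0 a : ℤ) := Int.natCast_nonneg _
      have h8 : (Multiset.count 0 a : ℤ) = 0 := by linarith
      have h9 : (l.map fun A => (Multiset.count 0 A : ℤ)).sum = 0 := by linarith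
      have h10 : 2 ≤ Multiset.card a := by
        rcases h2.count_zero_cases with ⟨h4, h5⟩ | ⟨h4, h5⟩
        · rw [h4] at h8; norm_num at h8
        · exact h5
      have h11 : (2 : ℤ) ≤ (Multiset.card a : ℤ) := by exact_mod_cast h10
      have h12 := hyge l h1
      rw [h9] at h12
      rw [List.map_cons, List.sum_cons, List.length_cons] at hs
      push_cast at hs
      have h13 : (Multiset.card a : ℤ) = 2 := by linarith
      have h14 : Multiset.card a = 2 := by exact_mod_cast h13
      rw [List.map_cons, List.sum_cons, h2.sgw_two h14, ih h1 h9 (by linarith)]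
      norm_num
  obtain ⟨m, hm⟩ := hxall xs hxs (by rw [← card_list_sum, hx, hcard]; push_cast; ring)
  have h0 := hyall ys hys (by rw [← count_list_sum, ← heq]; exact ht)
    (by rw [← card_list_sum, ← heq, hy, hcard]; push_cast; ring)
  rw [← sgw_list_sum, heq, sgw_list_sum, h0, hx] at hm
  push_cast at hm
  omega

end Pool.Agent.BB931D
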