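import Pool.Agent.Lib_MP_bb931d_co.KSix

/-!
Basic consequences of the hypothesis `3 ∣ hat μ c ↔ c = 0`.
-/

set_option autoImplicit false

namespace Pool.Agent.BB931D

open Finset

variable {n : ℕ}

lemma corr_mod_three {μ : V n → ℤ} (hz : ∀ c, (3 : ℤ) ∣ hat μ c ↔ c = 0) (z : V n) :
    (3 : ℤ) ∣ 2 ^ n * corr μ μ z - ((if z = 0 then 2 ^ n else 0) - 1) := by
  classical
  have h1 : (if z = 0 then (2 : ℤ) ^ n else 0) - 1 = ∑ c, (if c = 0 then 0 else chi c z) := by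
    rw [← sum_chi z, ← Finset.add_sum_erase _ _ (Finset.mem_univ (0 : V n)),
      ← Finset.add_sum_erase univ (fun c => if c = 0 then (0 : ℤ) else chi c z)
        (Finset.mem_univ (0 : V n)), if_pos rfl, chi_zero_left]
    have : ∑ c ∈ univ.erase (0 : V n), chi c z
        = ∑ c ∈ univ.erase (0 : V n), (if c = 0 then 0 else chi c z) := by
      refine Finset.sum_congr rfl fun c hc => ?_
      rw [if_neg (Finset.ne_of_mem_erase hc)]
    rw [this]; ring
  rw [h1, ← sum_hat_mul, ← Finset.sum_sub_distrib]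
  refine Finset.dvd_sum fun c _ => ?_
  by_cases hc : c = 0
  · rw [if_pos hc, sub_zero, mul_assoc]
    exact Dvd.dvd.mul_right ((hz c).2 hc) _
  · rw [if_neg hc]
    have h2 : ¬ (3 : ℤ) ∣ hat μ c := fun h => hc ((hz c).1 h)
    have h3 : (3 : ℤ) ∣ hat μ c * hat μ c - 1 := by
      have h4 : hat μ c % 3 = 1 ∨ hat μ c % 3 = 2 := by omega
      rcases h4 with h4 | h4
      · have h5 : (3 : ℤ) ∣ hat μ c - 1 := by omega
        have h6 := Dvd.dvd.mul_right h5 (hat μ c + 1)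
        have h7 : (hat μ c - 1) * (hat μ c + 1) = hat μ c * hat μ c - 1 := by ring
        rwa [h7] at h6
      · have h5 : (3 : ℤ) ∣ hat μ c + 1 := by omega
        have h6 := Dvd.dvd.mul_right h5 (hat μ c - 1)
        have h7 : (hat μ c + 1) * (hat μ c - 1) = hat μ c * hat μ c - 1 := by ring
        rwa [h7] at h6
    have h4 : hat μ c * hat μ c * chi c z - chi c z = (hat μ c * hat μ c - 1) * chi c z := by ring
    rw [h4]
    exact Dvd.dvd.mul_right h3 _

lemma struct {μ : V n → ℤ} (hμ : IsSign μ) {z : V n} (hz : z ≠ 0) :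
    ∃ a b : ℕ, (PP μ z).card = 2 * a ∧ (MM μ z).card = 2 * b ∧
      corr μ μ z = 2 * (a - b) ∧ corr (sq μ) (sq μ) z = 2 * (a + b) := by
  obtain ⟨a, ha⟩ := even_PP μ hz
  obtain ⟨b, hb⟩ := even_MM μ hz
  refine ⟨a, b, ha, hb, ?_, ?_⟩
  · rw [corr_eq hμ, ha, hb]; push_cast; ring
  · rw [corr_sq_eq hμ, ha, hb]; push_cast; ring

/-- No such function with support at most `21` in dimension `8`. -/
theorem no_dim_eight {μ : V 8 → ℤ} (hμ : IsSign μ) (hz : ∀ c, (3 : ℤ) ∣ hat μ c ↔ c = 0)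
    (hle : ∑ y, μ y * μ y ≤ 21) : False := by
  classical
  have h1 : ∀ z : V 8, z ≠ 0 → 2 ≤ corr (sq μ) (sq μ) z := by
    intro z hz0
    obtain ⟨a, b, -, -, h2, h3⟩ := struct hμ hz0
    have h4 := corr_mod_three hz z
    rw [if_neg hz0, h2] at h4
    rw [h3]
    norm_num at h4
    omega
  have h2 : ∑ z, corr (sq μ) (sq μ) z = (∑ y, μ y * μ y) * (∑ y, μ y * μ y) :=
    sum_corr (sq μ) (sq μ)
  rw [sum_split_zero, corr_zero] at h2
  have h3 : ∑ y, sq μ y * sq μ y = ∑ y, μ y * μ y :=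
    Finset.sum_congr rfl fun y _ => sq_sq hμ y
  have h4 : (510 : ℤ) ≤ ∑ z ∈ univ.erase (0 : V 8), corr (sq μ) (sq μ) z := by
    have h5 := Finset.card_nsmul_le_sum (univ.erase (0 : V 8)) (fun z => corr (sq μ) (sq μ) z) 2
      (fun z hz => h1 z (Finset.ne_of_mem_erase hz))
    rw [Finset.card_erase_of_mem (Finset.mem_univ _), Finset.card_univ, card_V, nsmul_eq_mul] at h5
    have h6 : (((2 ^ 8 - 1 : ℕ) : ℤ)) * 2 = 510 := by norm_num
    rw [h6] at h5
    exact h5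
  rw [h3] at h2
  have hn0 : 0 ≤ ∑ y, μ y * μ y := Finset.sum_nonneg fun y _ => mul_self_nonneg _
  nlinarith

section dim7

variable {μ : V 7 → ℤ}

/-- The hypothesis of this file. -/
structure Good (μ : V 7 → ℤ) : Prop where
  sign : IsSign μ
  zero_iff : ∀ c, (3 : ℤ) ∣ hat μ c ↔ c = 0

lemma Good.corr_mod (h : Good μ) {z : V 7} (hz : z ≠ 0) : (3 : ℤ) ∣ corr μ μ z - 1 := by
  have h1 := corr_mod_three h.zero_iff z
  rw [if_neg hz] at h1
  norm_num at h1
  omega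

lemma Good.size_mod (h : Good μ) : (3 : ℤ) ∣ (∑ y, μ y * μ y) - 2 := by
  have h1 := corr_mod_three h.zero_iff 0
  rw [if_pos rfl, corr_zero] at h1
  norm_num at h1
  omega

lemma Good.sum_mod (h : Good μ) : (3 : ℤ) ∣ ∑ y, μ y := by
  have := (h.zero_iff 0).2 rfl
  rwa [hat_zero] at this

lemma Good.lower (h : Good μ) {z : V 7} (hz : z ≠ 0) :
    ∃ t : ℤ, 0 ≤ t ∧ 3 * corr (sq μ) (sq μ) z - corr μ μ z = 8 + 12 * t := by
  obtain ⟨a, b, -, -, h2, h3⟩ := struct h.sign hz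
  have h4 := h.corr_mod hz
  rw [h2] at h4
  rw [h2, h3]
  refine ⟨(a + 2 * b - 2) / 3, ?_, ?_⟩ <;> omega

lemma Good.sum_erase (h : Good μ) :
    ∑ z ∈ univ.erase (0 : V 7), (3 * corr (sq μ) (sq μ) z - corr μ μ z)
      = 3 * ((∑ y, μ y * μ y) ^ 2 - (∑ y, μ y * μ y)) - ((∑ y, μ y) ^ 2 - (∑ y, μ y * μ y)) := by
  have h1 : ∑ z, corr μ μ z = (∑ y, μ y) * (∑ y, μ y) := sum_corr μ μ
  rw [sum_split_zero, corr_zero] at h1
  have h2 : ∑ z, corr (sq μ) (sq μ) z = (∑ y, μ y * μ y) * (∑ y, μ y * μ y) :=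
    sum_corr (sq μ) (sq μ)
  rw [sum_split_zero, corr_zero] at h2
  have h3 : ∑ y, sq μ y * sq μ y = ∑ y, μ y * μ y :=
    Finset.sum_congr rfl fun y _ => sq_sq h.sign y
  rw [h3] at h2
  rw [Finset.sum_sub_distrib, ← Finset.mul_sum]
  have e1 : ∑ z ∈ univ.erase (0 : V 7), corr μ μ z
      = (∑ y, μ y) ^ 2 - (∑ y, μ y * μ y) := by rw [pow_two]; linarith
  have e2 : ∑ z ∈ univ.erase (0 : V 7), corr (sq μ) (sq μ) z
      = (∑ y, μ y * μ y) ^ 2 - (∑ y, μ y * μ y) := by rw [pow_two]; linarith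
  rw [e1, e2]

lemma Good.size_sum (h : Good μ) (hle : ∑ y, μ y * μ y ≤ 20) :
    ∑ y, μ y * μ y = 20 ∧ (∑ y, μ y) ^ 2 ≤ 144 := by
  have h1 := h.sum_erase
  have h2 : (1016 : ℤ) ≤ ∑ z ∈ univ.erase (0 : V 7), (3 * corr (sq μ) (sq μ) z - corr μ μ z) := by
    have h5 := Finset.card_nsmul_le_sum (univ.erase (0 : V 7))
      (fun z => 3 * corr (sq μ) (sq μ) z - corr μ μ z) 8
      (fun z hz => by
        obtain ⟨t, ht, ht2⟩ := h.lower (Finset.ne_of_mem_erase hz)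
        omega)
    rw [Finset.card_erase_of_mem (Finset.mem_univ _), Finset.card_univ, card_V, nsmul_eq_mul] at h5
    have h6 : (((2 ^ 7 - 1 : ℕ) : ℤ)) * 8 = 1016 := by norm_num
    rw [h6] at h5
    exact h5
  rw [h1] at h2
  have hn0 : 0 ≤ ∑ y, μ y * μ y := Finset.sum_nonneg fun y _ => mul_self_nonneg _
  have h3 := h.size_mod
  set m := ∑ y, μ y * μ y with hm
  set s := ∑ y, μ y with hs
  have h4 : 18 ≤ m := by nlinarith [sq_nonneg s]
  have h5 : m = 20 := by omega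
  refine ⟨h5, ?_⟩
  rw [h5] at h2
  linarith

/-- the excess function -/
noncomputable def tau (μ : V 7 → ℤ) (z : V 7) : ℤ :=
  if z = 0 then 0 else (3 * corr (sq μ) (sq μ) z - corr μ μ z - 8) / 12

lemma tau_zero : tau μ 0 = 0 := by unfold tau; rw [if_pos rfl]

lemma Good.tau_spec (h : Good μ) {z : V 7} (hz : z ≠ 0) :
    3 * corr (sq μ) (sq μ) z - corr μ μ z = 8 + 12 * tau μ z := by
  obtain ⟨t, ht, ht2⟩ := h.lower hz
  unfold tau
  rw [if_neg hz]
  omega

lemma Good.tau_cases (h : Good μ) (h20 : ∑ y, μ y * μ y = 20) (z : V 7) :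
    tau μ z = 0 ∨ tau μ z = 1 := by
  by_cases hz : z = 0
  · left; rw [hz, tau_zero]
  · have h1 := three_N_sub_R_le h.sign h20 (fun z hz => h.corr_mod hz) hz
    obtain ⟨t, ht, ht2⟩ := h.lower hz
    have h3 := h.tau_spec hz
    omega

lemma Good.sum_tau (h : Good μ) (h20 : ∑ y, μ y * μ y = 20) :
    12 * ∑ z, tau μ z = 144 - (∑ y, μ y) ^ 2 := by
  have h1 := h.sum_erase
  have h2 : ∑ z ∈ univ.erase (0 : V 7), (3 * corr (sq μ) (sq μ) z - corr μ μ z)
      = ∑ z ∈ univ.erase (0 : V 7), (8 + 12 * tau μ z) :=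
    Finset.sum_congr rfl fun z hz => h.tau_spec (Finset.ne_of_mem_erase hz)
  rw [h2, Finset.sum_add_distrib, ← Finset.mul_sum, Finset.sum_const,
    Finset.card_erase_of_mem (Finset.mem_univ _), Finset.card_univ, card_V, h20, nsmul_eq_mul] at h1
  rw [sum_split_zero, tau_zero]
  have h6 : (((2 ^ 7 - 1 : ℕ) : ℤ)) * 8 = 1016 := by norm_num
  rw [h6] at h1
  linarith

lemma Good.hat_tau (h : Good μ) (h20 : ∑ y, μ y * μ y = 20) {c : V 7} (hc : c ≠ 0) :
    3 * hat (sq μ) c ^ 2 - hat μ c ^ 2 = 32 + 12 * hat (tau μ) c := by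
  have h1 : hat (corr (sq μ) (sq μ)) c = hat (sq μ) c * hat (sq μ) c := hat_corr _ _ _
  have h2 : hat (corr μ μ) c = hat μ c * hat μ c := hat_corr _ _ _
  have h3 : ∑ z, chi c z = 0 := by
    have := sum_chi_ne hc
    rw [← this]; exact Finset.sum_congr rfl fun w _ => chi_comm _ _
  have h4 : 3 * hat (corr (sq μ) (sq μ)) c - hat (corr μ μ) c
      = ∑ z, ((8 + 12 * tau μ z) * chi c z + (if z = 0 then 32 else 0)) := by
    unfold hat
    rw [Finset.mul_sum, ← Finset.sum_sub_distrib]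
    refine Finset.sum_congr rfl fun z _ => ?_
    by_cases hz : z = 0
    · subst hz
      rw [if_pos rfl, chi_zero_right, tau_zero, corr_zero, corr_zero, h20]
      have h3 : ∑ y, sq μ y * sq μ y = ∑ y, μ y * μ y :=
        Finset.sum_congr rfl fun y _ => sq_sq h.sign y
      rw [h3, h20]; norm_num
    · rw [if_neg hz, ← h.tau_spec hz]; ring
  rw [pow_two, pow_two, ← h1, ← h2, h4, Finset.sum_add_distrib, Finset.sum_ite_eq' ]
  rw [if_pos (Finset.mem_univ _)]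
  have h5 : ∑ z, (8 + 12 * tau μ z) * chi c z = 8 * ∑ z, chi c z + 12 * hat (tau μ) c := by
    unfold hat
    rw [Finset.mul_sum, Finset.mul_sum, ← Finset.sum_add_distrib]
    exact Finset.sum_congr rfl fun z _ => by ring
  rw [h5, h3]; ring

/-- bounds on the Fourier coefficients -/
lemma hat_bounds (hμ : IsSign μ) (h20 : ∑ y, μ y * μ y = 20) (c : V 7) :
    hat μ c + hat (sq μ) c ≤ 20 + ∑ y, μ y ∧ -(hat μ c + hat (sq μ) c) ≤ 20 + ∑ y, μ y ∧
    hat μ c - hat (sq μ) c ≤ 20 - ∑ y, μ y ∧ -(hat μ c - hat (sq μ) c) ≤ 20 - ∑ y, μ y := by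
  unfold hat sq
  rw [← h20]
  refine ⟨?_, ?_, ?_, ?_⟩
  · rw [← Finset.sum_add_distrib, ← Finset.sum_add_distrib]
    refine Finset.sum_le_sum fun y _ => ?_
    rcases hμ y with h1 | h1 | h1 <;> rcases chi_cases c y with h2 | h2 <;> rw [h1, h2] <;> norm_num
  · rw [← Finset.sum_add_distrib, ← Finset.sum_add_distrib, ← Finset.sum_neg_distrib]
    refine Finset.sum_le_sum fun y _ => ?_
    rcases hμ y with h1 | h1 | h1 <;> rcases chi_cases c y with h2 | h2 <;> rw [h1, h2] <;> norm_num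
  · rw [← Finset.sum_sub_distrib, ← Finset.sum_sub_distrib]
    refine Finset.sum_le_sum fun y _ => ?_
    rcases hμ y with h1 | h1 | h1 <;> rcases chi_cases c y with h2 | h2 <;> rw [h1, h2] <;> norm_num
  · rw [← Finset.sum_sub_distrib, ← Finset.sum_sub_distrib, ← Finset.sum_neg_distrib]
    refine Finset.sum_le_sum fun y _ => ?_
    rcases hμ y with h1 | h1 | h1 <;> rcases chi_cases c y with h2 | h2 <;> rw [h1, h2] <;> norm_num

end dim7

end Pool.Agent.BB931D
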