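import Mathlib

set_option autoImplicit false
set_option linter.unusedSectionVars false

namespace Pool.Agent.Rho

open Finset

/-- The sum of `v` over `B` is `0` or `e`. -/
def Blk {ι V : Type*} [AddCommGroup V] (e : V) (v : ι → V) (B : Finset ι) : Prop :=
  ∑ i ∈ B, v i = 0 ∨ ∑ i ∈ B, v i = e

/-- Weighted configurations: every nonempty block has small positive weight of the right parity. -/
structure Cfg {ι V : Type*} [AddCommGroup V] (p K : ℕ) (e : V) (v : ι → V) (b : ι → ZMod p)
    (R : Finset ι) : Prop where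
  even : ∀ B ⊆ R, B.Nonempty → ∑ i ∈ B, v i = 0 →
    Even (∑ i ∈ B, b i).val ∧ 0 < (∑ i ∈ B, b i).val ∧ (∑ i ∈ B, b i).val ≤ K
  odd : ∀ B ⊆ R, B.Nonempty → ∑ i ∈ B, v i = e →
    Odd (∑ i ∈ B, b i).val ∧ (∑ i ∈ B, b i).val ≤ K

section
variable {ι V : Type*} [DecidableEq ι] [AddCommGroup V] {p K : ℕ} {e : V} {v : ι → V}
  {b : ι → ZMod p} {R : Finset ι}

lemma Cfg.mono (h : Cfg p K e v b R) {R' : Finset ι} (hR : R' ⊆ R) : Cfg p K e v b R' :=
  ⟨fun B hB => h.even B (hB.trans hR), fun B hB => h.odd B (hB.trans hR)⟩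

lemma Cfg.pos (h : Cfg p K e v b R) {B : Finset ι} (hB : B ⊆ R) (hn : B.Nonempty)
    (hb : Blk e v B) : 0 < (∑ i ∈ B, b i).val := by
  rcases hb with hb | hb
  · exact (h.even B hB hn hb).2.1
  · exact (h.odd B hB hn hb).1.pos

lemma Cfg.le (h : Cfg p K e v b R) {B : Finset ι} (hB : B ⊆ R) (hn : B.Nonempty)
    (hb : Blk e v B) : (∑ i ∈ B, b i).val ≤ K := by
  rcases hb with hb | hb
  · exact (h.even B hB hn hb).2.2
  · exact (h.odd B hB hn hb).2

lemma sum_symm (h2 : ∀ x : V, x + x = 0) (B C : Finset ι) :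
    ∑ i ∈ symmDiff B C, v i = ∑ i ∈ B, v i + ∑ i ∈ C, v i := by
  have h1 := Finset.sum_inter_add_sum_sdiff B C v
  have h3 := Finset.sum_inter_add_sum_sdiff C B v
  rw [Finset.inter_comm] at h3
  have h4 : symmDiff B C = (B \ C) ∪ (C \ B) := rfl
  rw [h4, Finset.sum_union disjoint_sdiff_sdiff, ← h1, ← h3]
  have := h2 (∑ i ∈ B ∩ C, v i)
  calc _ = ∑ i ∈ B \ C, v i + ∑ i ∈ C \ B, v i + 0 := by simp
    _ = _ := by rw [← this]; abel

lemma sum_symm_b (B C : Finset ι) :
    ∑ i ∈ symmDiff B C, b i + 2 * ∑ i ∈ B ∩ C, b i = ∑ i ∈ B, b i + ∑ i ∈ C, b i := by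
  have h1 := Finset.sum_inter_add_sum_sdiff B C b
  have h3 := Finset.sum_inter_add_sum_sdiff C B b
  rw [Finset.inter_comm] at h3
  have h4 : symmDiff B C = (B \ C) ∪ (C \ B) := rfl
  rw [h4, Finset.sum_union disjoint_sdiff_sdiff, ← h1, ← h3]
  ring

lemma Blk.symm (h2 : ∀ x : V, x + x = 0) {B C : Finset ι} (hB : Blk e v B) (hC : Blk e v C) :
    Blk e v (symmDiff B C) := by
  unfold Blk at *
  rw [sum_symm h2]
  rcases hB with hB | hB <;> rcases hC with hC | hC <;> simp [hB, hC, h2]

lemma Blk.sdiff (h2 : ∀ x : V, x + x = 0) {B R : Finset ι} (hR : Blk e v R) (hB : Blk e v B)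
    (hBR : B ⊆ R) : Blk e v (R \ B) := by
  have : R \ B = symmDiff R B := by
    rw [symmDiff_def, Finset.sup_eq_union, Finset.sdiff_eq_empty_iff_subset.mpr hBR,
      Finset.union_empty]
  rw [this]; exact hR.symm h2 hB

/-- Weight splits along a block and its complement. -/
lemma Cfg.split (h2 : ∀ x : V, x + x = 0) (hK : 2 * K < p) (h : Cfg p K e v b R)
    (hR : Blk e v R) {B : Finset ι} (hBR : B ⊆ R) (hB : Blk e v B) (hn : B.Nonempty)
    (hn' : (R \ B).Nonempty) :
    (∑ i ∈ R, b i).val = (∑ i ∈ B, b i).val + (∑ i ∈ R \ B, b i).val := by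
  have h1 := h.le hBR hn hB
  have h3 := h.le (Finset.sdiff_subset) hn' (hR.sdiff h2 hB hBR)
  have h4 : ∑ i ∈ R, b i = ∑ i ∈ B, b i + ∑ i ∈ R \ B, b i := by
    rw [add_comm, Finset.sum_sdiff hBR]
  rw [h4, ZMod.val_add_of_lt (by omega)]

/-- Parity of weights is additive. -/
lemma Cfg.parity (h2 : ∀ x : V, x + x = 0) (h : Cfg p K e v b R)
    {B C : Finset ι} (hB : B ⊆ R) (hC : C ⊆ R) (hnB : B.Nonempty) (hnC : C.Nonempty)
    (hn : (symmDiff B C).Nonempty) (bB : Blk e v B) (bC : Blk e v C) :
    Even ((∑ i ∈ B, b i).val + (∑ i ∈ C, b i).val + (∑ i ∈ symmDiff B C, b i).val) := by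
  have hs : symmDiff B C ⊆ R := by
    intro x hx
    rw [Finset.mem_symmDiff] at hx
    rcases hx with hx | hx
    · exact hB hx.1
    · exact hC hx.1
  have h4 := sum_symm (v := v) h2 B C
  rcases bB with bB | bB <;> rcases bC with bC | bC
  · rw [bB, bC, add_zero] at h4
    exact ((h.even B hB hnB bB).1.add (h.even C hC hnC bC).1).add (h.even _ hs hn h4).1
  · rw [bB, bC, zero_add] at h4
    have e1 := (h.even B hB hnB bB).1
    have e2 := (h.odd C hC hnC bC).1
    have e3 := (h.odd _ hs hn h4).1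
    rw [add_assoc]; exact e1.add (e2.add_odd e3)
  · rw [bB, bC, add_zero] at h4
    have e1 := (h.odd B hB hnB bB).1
    have e2 := (h.even C hC hnC bC).1
    have e3 := (h.odd _ hs hn h4).1
    exact (e1.add_even e2).add_odd e3
  · rw [bB, bC, h2] at h4
    have e1 := (h.odd B hB hnB bB).1
    have e2 := (h.odd C hC hnC bC).1
    have e3 := (h.even _ hs hn h4).1
    exact (e1.add_odd e2).add e3

/-- The basic relation for two blocks meeting in one point. -/
lemma two_b [NeZero p] {B C : Finset ι} {i : ι} (hi : B ∩ C = {i}) :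
    2 * b i = ((∑ i ∈ B, b i).val : ZMod p) + ((∑ i ∈ C, b i).val : ZMod p)
      - ((∑ i ∈ symmDiff B C, b i).val : ZMod p) := by
  have := sum_symm_b (b := b) B C
  rw [hi, Finset.sum_singleton] at this
  rw [ZMod.natCast_zmod_val, ZMod.natCast_zmod_val, ZMod.natCast_zmod_val, ← this]
  ring

/-- Weights of small sets via `b ∈ {0,1}`. -/
lemma card_le_of_zero_one {r : ℕ} [Fintype V] [DecidableEq V] (h2 : ∀ x : V, x + x = 0)
    (hp : 1 < p) (hcV : Fintype.card V ≤ 2 ^ (r + 1)) (he : e ≠ 0)
    (h : Cfg p K e v b R) (hRp : R.card < p)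
    (h01 : ∀ i ∈ R, b i = 0 ∨ b i = 1) :
    R.card ≤ (∑ i ∈ R, b i).val + r := by
  classical
  have : Fact (1 < p) := ⟨hp⟩
  set H := R.filter (fun i => b i = 0) with hH
  set H1 := R.filter (fun i => ¬ b i = 0) with hH1
  have hsum : ∑ i ∈ R, b i = (H1.card : ZMod p) := by
    rw [← Finset.sum_filter_add_sum_filter_not R (fun i => b i = 0)]
    have e1 : ∑ i ∈ R.filter (fun i => b i = 0), b i = 0 :=
      Finset.sum_eq_zero (fun i hi => (Finset.mem_filter.mp hi).2)
    have e2 : ∑ i ∈ R.filter (fun i => ¬ b i = 0), b i = ∑ i ∈ H1, (1 : ZMod p) := by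
      apply Finset.sum_congr rfl
      intro i hi
      rw [Finset.mem_filter] at hi
      exact (h01 i hi.1).resolve_left hi.2
    rw [e1, e2, zero_add]; simp
  have hcard : H.card + H1.card = R.card := Finset.card_filter_add_card_filter_not _
  have hval : (∑ i ∈ R, b i).val = H1.card := by
    rw [hsum, ZMod.val_natCast_of_lt (by omega)]
  have hHr : H.card ≤ r := by
    -- injectivity of (B, u) ↦ Σ_B v + u
    have hinj : (H.powerset ×ˢ ({0, e} : Finset V)).card ≤ (Finset.univ : Finset V).card := by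
      apply Finset.card_le_card_of_injOn (fun q : Finset ι × V => ∑ i ∈ q.1, v i + q.2)
      · intro q _; exact Finset.mem_coe.mpr (Finset.mem_univ _)
      · rintro ⟨B, u⟩ hq ⟨B', u'⟩ hq' heq
        simp only [Finset.coe_product, Set.mem_prod, Finset.mem_coe, Finset.mem_powerset,
          Finset.mem_insert, Finset.mem_singleton] at hq hq'
        simp only at heq
        have hBB : B = B' := by
          by_contra hne
          have hn : (symmDiff B B').Nonempty := by
            rw [Finset.nonempty_iff_ne_empty]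
            intro h0
            exact hne (symmDiff_eq_bot.mp (by simpa using h0))
          have hsub : symmDiff B B' ⊆ H := by
            intro x hx
            rw [Finset.mem_symmDiff] at hx
            rcases hx with hx | hx
            · exact hq.1 hx.1
            · exact hq'.1 hx.1
          have hsubR : symmDiff B B' ⊆ R := hsub.trans (Finset.filter_subset _ _)
          have hb : Blk e v (symmDiff B B') := by
            unfold Blk
            rw [sum_symm h2]
            have h5 : ∑ i ∈ B, v i + ∑ i ∈ B', v i = u + u' := by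
              have h6 : ∑ i ∈ B, v i = ∑ i ∈ B', v i + u' + u := by
                rw [← heq, add_assoc, h2, add_zero]
              rw [h6]
              have h7 := h2 (∑ i ∈ B', v i)
              calc _ = (∑ i ∈ B', v i + ∑ i ∈ B', v i) + (u + u') := by abel
                _ = _ := by rw [h7, zero_add]
            rw [h5]
            rcases hq.2 with hu | hu <;> rcases hq'.2 with hu' | hu' <;> simp [hu, hu', h2]
          have h0 : ∑ i ∈ symmDiff B B', b i = 0 :=
            Finset.sum_eq_zero (fun i hi => (Finset.mem_filter.mp (hsub hi)).2)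
          have := h.pos hsubR hn hb
          rw [h0] at this
          simp at this
        subst hBB
        simpa using heq
    rw [Finset.card_product, Finset.card_powerset, Finset.card_univ] at hinj
    have hc2 : ({0, e} : Finset V).card = 2 := Finset.card_pair he.symm
    rw [hc2, ← pow_succ] at hinj
    have := (Nat.pow_le_pow_iff_right (by norm_num : 1 < 2)).mp (hinj.trans hcV)
    omega
  omega

end

end Pool.Agent.Rho
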