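import Pool.Agent.Lib_MP_bb931d_co.Small

set_option autoImplicit false
set_option linter.unusedSectionVars false
set_option linter.unusedSimpArgs false
set_option linter.unusedTactic false
set_option linter.unnecessarySimpa false
set_option linter.unusedVariables false

namespace Pool.Agent.Rho

open Finset

section
variable {ι V : Type*} [DecidableEq ι] [AddCommGroup V] {p K : ℕ} {e : V} {v : ι → V}
  {b : ι → ZMod p} {R : Finset ι}

/-- The two element subgroup `{0, w}`. -/
def twoS (h2 : ∀ x : V, x + x = 0) (w : V) : AddSubgroup V where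
  carrier := {x | x = 0 ∨ x = w}
  zero_mem' := Or.inl rfl
  add_mem' := by
    rintro a b ha hb
    rcases ha with rfl | rfl <;> rcases hb with rfl | rfl
    · left; simp
    · right; simp
    · right; simp
    · left; exact h2 _
  neg_mem' := by
    rintro a ha
    have : -a = a := by
      rw [neg_eq_iff_add_eq_zero]; exact h2 a
    rw [this]; exact ha

lemma mem_twoS {h2 : ∀ x : V, x + x = 0} {w x : V} : x ∈ twoS h2 w ↔ x = 0 ∨ x = w := Iff.rfl

/-- Smallness and evenness of an element of `ZMod p`. -/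
def SmallEven (p K : ℕ) (x : ZMod p) : Prop := ∃ a : ℤ, |a| ≤ K ∧ Even a ∧ (a : ZMod p) = x

lemma cast_eq_small {p : ℕ} {a c : ℤ} (h : (a : ZMod p) = (c : ZMod p)) (hs : |a - c| < p) :
    a = c := by
  have h1 : (p : ℤ) ∣ a - c := by
    rw [← ZMod.intCast_zmod_eq_zero_iff_dvd]
    push_cast; rw [h, sub_self]
  have := Int.eq_zero_of_abs_lt_dvd h1 hs
  omega

lemma contract_core [Fact p.Prime] (hp : 4 * K + 4 < p) (h2 : ∀ x : V, x + x = 0) (he : e ≠ 0)
    (h : Cfg p K e v b R) {x y : ι} (hx : x ∈ R) (hy : y ∈ R) (hxy : x ≠ y)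
    (hv : v x + v y = e) (hb1 : b x + b y = 1) {B : Finset ι} (hB : B ⊆ R \ {x, y})
    (hn : B.Nonempty) (hs : ∑ i ∈ B, v i = v x ∨ ∑ i ∈ B, v i = v x + e) :
    0 < (∑ i ∈ B, b i).val ∧ (∑ i ∈ B, b i).val ≤ K ∧
    (SmallEven p K (b x) → (Even (∑ i ∈ B, b i).val ↔ ∑ i ∈ B, v i = v x)) ∧
    (¬ SmallEven p K (b x) → (Even (∑ i ∈ B, b i).val ↔ ∑ i ∈ B, v i = v x + e)) := by
  have k1 : ∀ x y : V, x + y + y = x := fun x y => by rw [add_assoc, h2, add_zero]
  have hvy : v y = v x + e := by rw [← hv, ← add_assoc, h2, zero_add]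
  have hBR : B ⊆ R := hB.trans Finset.sdiff_subset
  have hxB : x ∉ B := fun hx' => by
    have := hB hx'; simp at this
  have hyB : y ∉ B := fun hy' => by
    have := hB hy'; simp at this
  have subx : insert x B ⊆ R := Finset.insert_subset hx hBR
  have suby : insert y B ⊆ R := Finset.insert_subset hy hBR
  have nx : (insert x B).Nonempty := Finset.insert_nonempty _ _
  have ny : (insert y B).Nonempty := Finset.insert_nonempty _ _
  have sx : ∑ i ∈ insert x B, b i = ∑ i ∈ B, b i + b x := by
    rw [Finset.sum_insert hxB, add_comm]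
  have sy : ∑ i ∈ insert y B, b i = ∑ i ∈ B, b i + b y := by
    rw [Finset.sum_insert hyB, add_comm]
  have vx : ∑ i ∈ insert x B, v i = ∑ i ∈ B, v i + v x := by
    rw [Finset.sum_insert hxB, add_comm]
  have vy : ∑ i ∈ insert y B, v i = ∑ i ∈ B, v i + v x + e := by
    rw [Finset.sum_insert hyB, add_comm, hvy, add_assoc]
  set m1 := (∑ i ∈ insert x B, b i).val with hm1
  set m2 := (∑ i ∈ insert y B, b i).val with hm2
  have c1 : (m1 : ZMod p) = ∑ i ∈ B, b i + b x := by rw [hm1, ZMod.natCast_zmod_val, sx]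
  have c2 : (m2 : ZMod p) = ∑ i ∈ B, b i + b y := by rw [hm2, ZMod.natCast_zmod_val, sy]
  have hbx : Blk e v (insert x B) := by
    unfold Blk; rw [vx]; rcases hs with hs | hs
    · left; rw [hs, h2]
    · right; rw [hs, add_right_comm, h2, zero_add]
  have hby : Blk e v (insert y B) := by
    unfold Blk; rw [vy]; rcases hs with hs | hs
    · right; rw [hs, h2, zero_add]
    · left; rw [hs, add_right_comm (v x), h2, zero_add, h2]
  have p1 := h.pos subx nx hbx
  have p2 := h.pos suby ny hby
  have l1 := h.le subx nx hbx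
  have l2 := h.le suby ny hby
  -- parities
  have par1 : (Even m1 ↔ ∑ i ∈ B, v i = v x) ∧ (Odd m1 ↔ ∑ i ∈ B, v i = v x + e) ∧
      (Odd (m1 + m2)) := by
    have hne : v x ≠ v x + e := fun h0 => he (by simpa using h0)
    rcases hs with hs | hs
    · have e1 : Even m1 := (h.even _ subx nx (by rw [vx, hs, h2])).1
      have e2 : Odd m2 := (h.odd _ suby ny (by rw [vy, hs, h2, zero_add])).1
      refine ⟨⟨fun _ => hs, fun _ => e1⟩, ⟨fun ho => ?_, fun h0 => ?_⟩, e1.add_odd e2⟩
      · exact absurd e1 (Nat.not_even_iff_odd.mpr ho)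
      · exact absurd (hs.symm.trans h0) hne
    · have e1 : Odd m1 := (h.odd _ subx nx (by rw [vx, hs, add_right_comm, h2, zero_add])).1
      have e2 : Even m2 := (h.even _ suby ny (by
        rw [vy, hs, add_right_comm (v x), h2, zero_add, h2])).1
      refine ⟨⟨fun hev => ?_, fun h0 => ?_⟩, ⟨fun _ => hs, fun _ => e1⟩, e1.add_even e2⟩
      · exact absurd hev (Nat.not_even_iff_odd.mpr e1)
      · exact absurd (h0.symm.trans hs) hne
  obtain ⟨par1, par2, par3⟩ := par1
  obtain ⟨t, ht⟩ := par3
  -- m1 + m2 = 2 t + 1, and β = t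
  have h20 := two_ne (p := p) (by omega)
  have hβ : ∑ i ∈ B, b i = (t : ZMod p) := by
    have e1 : ((m1 + m2 : ℕ) : ZMod p) = 2 * ∑ i ∈ B, b i + 1 := by
      push_cast; rw [c1, c2, ← hb1]; ring
    rw [ht] at e1
    push_cast at e1
    have e2 : 2 * (∑ i ∈ B, b i - (t : ZMod p)) = 0 := by linear_combination -e1
    exact sub_eq_zero.mp ((mul_eq_zero.mp e2).resolve_left h20)
  have hval : (∑ i ∈ B, b i).val = t := by
    rw [hβ, ZMod.val_natCast_of_lt (by omega)]
  have hbx' : (((m1 : ℤ) - t : ℤ) : ZMod p) = b x := by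
    push_cast; rw [c1, hβ]; ring
  have hsmall : |(m1 : ℤ) - t| ≤ K := by
    rw [abs_le]; constructor <;> omega
  have hiff : SmallEven p K (b x) ↔ Even ((m1 : ℤ) - t) := by
    constructor
    · rintro ⟨a, ha1, ha2, ha3⟩
      have : a = (m1 : ℤ) - t := by
        apply cast_eq_small (p := p)
        · rw [ha3, hbx']
        · rw [abs_le] at ha1 hsmall
          rw [abs_lt]; constructor <;> omega
      rwa [← this]
    · intro hev
      exact ⟨_, hsmall, hev, hbx'⟩
  rw [hval]
  refine ⟨by omega, by omega, fun hE => ?_, fun hE => ?_⟩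
  · rw [hiff] at hE
    rw [← par1]
    rw [Int.even_sub] at hE
    rw [← Int.even_coe_nat m1, ← Int.even_coe_nat t]
    exact hE.symm
  · rw [hiff, Int.even_sub] at hE
    rw [← par2]
    rw [Int.even_coe_nat, Int.even_coe_nat] at hE
    rw [← Nat.not_even_iff_odd]
    tauto

/-- Contracting a pair of weight one. -/
lemma contract [Fact p.Prime] (hp : 4 * K + 4 < p) (h2 : ∀ x : V, x + x = 0) (he : e ≠ 0)
    (h : Cfg p K e v b R) {x y : ι} (hx : x ∈ R) (hy : y ∈ R) (hxy : x ≠ y)
    (hv : v x + v y = e) (hb1 : b x + b y = 1) (hx0 : v x ≠ 0) (hxe : v x ≠ e) :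
    ∃ w : V, w ≠ 0 ∧ w ≠ e ∧
      Cfg p K (QuotientAddGroup.mk (s := twoS h2 w) e) (fun i => QuotientAddGroup.mk (s := twoS h2 w) (v i)) b
        (R \ {x, y}) := by
  classical
  have k1 : ∀ x y : V, x + y + y = x := fun x y => by rw [add_assoc, h2, add_zero]
  have hvy : v y = v x + e := by rw [← hv, ← add_assoc, h2, zero_add]
  have hsumq : ∀ (w : V) (B : Finset ι), ∑ i ∈ B, (QuotientAddGroup.mk (s := twoS h2 w) (v i)) =
      QuotientAddGroup.mk (s := twoS h2 w) (∑ i ∈ B, v i) := fun w B =>
    (map_sum (QuotientAddGroup.mk' (twoS h2 w)) v B).symm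
  have hz : ∀ (w z : V), QuotientAddGroup.mk (s := twoS h2 w) z = 0 ↔ z = 0 ∨ z = w := by
    intro w z
    rw [QuotientAddGroup.eq_zero_iff]; exact mem_twoS
  have hez : ∀ (w z : V), QuotientAddGroup.mk (s := twoS h2 w) z =
      QuotientAddGroup.mk (s := twoS h2 w) e ↔ z = e ∨ z = w + e := by
    intro w z
    have : QuotientAddGroup.mk (s := twoS h2 w) z = QuotientAddGroup.mk (s := twoS h2 w) e ↔
        QuotientAddGroup.mk (s := twoS h2 w) (z + e) = 0 := by
      have hadd : QuotientAddGroup.mk (s := twoS h2 w) (z + e) =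
        QuotientAddGroup.mk (s := twoS h2 w) z + QuotientAddGroup.mk (s := twoS h2 w) e := rfl
      have hee : QuotientAddGroup.mk (s := twoS h2 w) e + QuotientAddGroup.mk (s := twoS h2 w) e = 0 := by
        have : QuotientAddGroup.mk (s := twoS h2 w) (e + e) = 0 := by rw [h2]; rfl
        exact this
      rw [hadd]
      constructor
      · intro h0; rw [h0, hee]
      · intro h0
        have := congrArg (fun t => t + QuotientAddGroup.mk (s := twoS h2 w) e) h0
        simpa [add_assoc, hee] using this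
    rw [this, hz]
    constructor
    · rintro (h0 | h0)
      · left
        have := congrArg (fun t => t + e) h0
        simpa [k1] using this
      · right
        rw [← h0, k1]
    · rintro (h0 | h0)
      · left; rw [h0, h2]
      · right; rw [h0, k1]
  by_cases hE : SmallEven p K (b x)
  · refine ⟨v x, hx0, hxe, ?_, ?_⟩
    · intro B hB hn hs
      rw [hsumq, hz] at hs
      rcases hs with hs | hs
      · exact h.even B (hB.trans Finset.sdiff_subset) hn hs
      · obtain ⟨q1, q2, q3, -⟩ := contract_core hp h2 he h hx hy hxy hv hb1 hB hn (Or.inl hs)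
        exact ⟨(q3 hE).mpr hs, q1, q2⟩
    · intro B hB hn hs
      rw [hsumq, hez] at hs
      rcases hs with hs | hs
      · exact h.odd B (hB.trans Finset.sdiff_subset) hn hs
      · obtain ⟨q1, q2, q3, -⟩ := contract_core hp h2 he h hx hy hxy hv hb1 hB hn (Or.inr hs)
        refine ⟨?_, q2⟩
        rw [← Nat.not_even_iff_odd, q3 hE, hs]
        simpa using he
  · have hy0 : v y ≠ 0 := by
      rw [hvy]; intro h0
      apply hxe
      have := congrArg (fun t => t + e) h0
      simpa [k1] using this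
    have hye : v y ≠ e := by
      rw [hvy]; intro h0; apply hx0; simpa using h0
    refine ⟨v y, hy0, hye, ?_, ?_⟩
    · intro B hB hn hs
      rw [hsumq, hz] at hs
      rcases hs with hs | hs
      · exact h.even B (hB.trans Finset.sdiff_subset) hn hs
      · rw [hvy] at hs
        obtain ⟨q1, q2, -, q4⟩ := contract_core hp h2 he h hx hy hxy hv hb1 hB hn (Or.inr hs)
        exact ⟨(q4 hE).mpr hs, q1, q2⟩
    · intro B hB hn hs
      rw [hsumq, hez] at hs
      rcases hs with hs | hs
      · exact h.odd B (hB.trans Finset.sdiff_subset) hn hs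
      · rw [hvy, k1] at hs
        obtain ⟨q1, q2, -, q4⟩ := contract_core hp h2 he h hx hy hxy hv hb1 hB hn (Or.inl hs)
        refine ⟨?_, q2⟩
        rw [← Nat.not_even_iff_odd, q4 hE, hs]
        simpa using he

end

end Pool.Agent.Rho
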