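import Pool.Agent.Lib_MP_bb931d_co.Fourier

/-!
Sign functions, pair counts, and the counting lemma on a group of order 64.
-/

set_option autoImplicit false

namespace Pool.Agent.BB931D

variable {n : ℕ}

open Finset

/-- values in `{-1,0,1}` -/
def IsSign (μ : V n → ℤ) : Prop := ∀ y, μ y = 0 ∨ μ y = 1 ∨ μ y = -1

/-- pointwise square -/
def sq (μ : V n → ℤ) : V n → ℤ := fun y => μ y * μ y

/-- points starting a plus pair in direction `z` -/
def PP (μ : V n → ℤ) (z : V n) : Finset (V n) := univ.filter (fun y => μ y * μ (y + z) = 1)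

/-- points starting a minus pair in direction `z` -/
def MM (μ : V n → ℤ) (z : V n) : Finset (V n) := univ.filter (fun y => μ y * μ (y + z) = -1)

lemma mem_PP {μ : V n → ℤ} {z y : V n} : y ∈ PP μ z ↔ μ y * μ (y + z) = 1 := by
  simp [PP]

lemma mem_MM {μ : V n → ℤ} {z y : V n} : y ∈ MM μ z ↔ μ y * μ (y + z) = -1 := by
  simp [MM]

lemma mul_cases {μ : V n → ℤ} (h : IsSign μ) (y z : V n) :
    μ y * μ z = 0 ∨ μ y * μ z = 1 ∨ μ y * μ z = -1 := by
  rcases h y with h1 | h1 | h1 <;> rcases h z with h2 | h2 | h2 <;> rw [h1, h2] <;> norm_num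

lemma corr_eq {μ : V n → ℤ} (h : IsSign μ) (z : V n) :
    corr μ μ z = (PP μ z).card - (MM μ z).card := by
  unfold corr PP MM
  rw [Finset.card_filter, Finset.card_filter]
  push_cast
  rw [← Finset.sum_sub_distrib]
  refine Finset.sum_congr rfl fun y _ => ?_
  rcases mul_cases h y (y + z) with h1 | h1 | h1 <;> rw [h1] <;> norm_num

lemma corr_sq_eq {μ : V n → ℤ} (h : IsSign μ) (z : V n) :
    corr (sq μ) (sq μ) z = (PP μ z).card + (MM μ z).card := by
  unfold corr PP MM sq
  rw [Finset.card_filter, Finset.card_filter]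
  push_cast
  rw [← Finset.sum_add_distrib]
  refine Finset.sum_congr rfl fun y _ => ?_
  have : μ y * μ y * (μ (y + z) * μ (y + z)) = (μ y * μ (y + z)) * (μ y * μ (y + z)) := by ring
  rw [this]
  rcases mul_cases h y (y + z) with h1 | h1 | h1 <;> rw [h1] <;> norm_num

lemma even_card (p : V n → Prop) [DecidablePred p] {z : V n} (hz : z ≠ 0)
    (hp : ∀ y, p (y + z) ↔ p y) : 2 ∣ (univ.filter p).card := by
  obtain ⟨c, hc⟩ := exists_chi_neg hz
  rw [Finset.card_filter, sum_pair _ hc]
  refine Finset.dvd_sum fun y _ => ?_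
  by_cases h1 : chi c y = 1
  · rw [if_pos h1]
    by_cases h2 : p y
    · rw [if_pos h2, if_pos ((hp y).2 h2)]
    · rw [if_neg h2, if_neg (fun h => h2 ((hp y).1 h))]; simp
  · rw [if_neg h1]; simp

lemma even_PP (μ : V n → ℤ) {z : V n} (hz : z ≠ 0) : 2 ∣ (PP μ z).card := by
  refine even_card _ hz fun y => ?_
  rw [add_add_self, mul_comm]

lemma even_MM (μ : V n → ℤ) {z : V n} (hz : z ≠ 0) : 2 ∣ (MM μ z).card := by
  refine even_card _ hz fun y => ?_
  rw [add_add_self, mul_comm]

/-- four points of a plus or minus parallelogram -/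
lemma sum_split_zero {M : Type*} [AddCommMonoid M] (g : V n → M) :
    ∑ z, g z = g 0 + ∑ z ∈ univ.erase (0 : V n), g z := by
  rw [Finset.add_sum_erase _ _ (Finset.mem_univ _)]

lemma sq_sq {μ : V n → ℤ} (h : IsSign μ) (y : V n) : sq μ y * sq μ y = μ y * μ y := by
  unfold sq
  rcases h y with h1 | h1 | h1 <;> rw [h1] <;> norm_num

lemma sum_sub_even {μ : V n → ℤ} (h : IsSign μ) : (2 : ℤ) ∣ (∑ y, μ y * μ y) - ∑ y, μ y := by
  rw [← Finset.sum_sub_distrib]
  refine Finset.dvd_sum fun y _ => ?_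
  rcases h y with h1 | h1 | h1 <;> rw [h1] <;> norm_num

/-- The counting lemma on a group of order `64`, in the form we need. -/
lemma thirteen_le {ν : V n → ℤ} (hν : IsSign ν) (B : Finset (V n)) (hB : B.card = 63)
    (h0 : (0 : V n) ∉ B) (hR : ∀ w ∈ B, (3 : ℤ) ∣ corr ν ν w - 2)
    (hout : ∀ w, w ∉ B → w ≠ 0 → corr (sq ν) (sq ν) w = 0) :
    13 ≤ ∑ y, ν y * ν y := by
  classical
  by_contra hlt
  push Not at hlt
  set n' : ℤ := ∑ y, ν y * ν y with hn'
  set s' : ℤ := ∑ y, ν y with hs'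
  have hsub : B ⊆ univ.erase (0 : V n) := by
    intro w hw
    rw [Finset.mem_erase]
    exact ⟨fun h => h0 (h ▸ hw), Finset.mem_univ _⟩
  have hNR : ∀ w, corr ν ν w ≤ corr (sq ν) (sq ν) w := by
    intro w; rw [corr_eq hν, corr_sq_eq hν]
    have : (0 : ℤ) ≤ (MM ν w).card := Int.natCast_nonneg _
    linarith
  have hNR' : ∀ w, -corr ν ν w ≤ corr (sq ν) (sq ν) w := by
    intro w; rw [corr_eq hν, corr_sq_eq hν]
    have : (0 : ℤ) ≤ (PP ν w).card := Int.natCast_nonneg _
    linarith
  have hRout : ∀ w, w ∉ B → w ≠ 0 → corr ν ν w = 0 := by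
    intro w hw hw0
    have h1 := hout w hw hw0
    have h2 := hNR w
    have h3 := hNR' w
    linarith
  have hsumR : ∑ w ∈ B, corr ν ν w = s' ^ 2 - n' := by
    have h1 : ∑ w, corr ν ν w = s' * s' := sum_corr ν ν
    rw [sum_split_zero, corr_zero] at h1
    have h2 : ∑ w ∈ B, corr ν ν w = ∑ w ∈ univ.erase (0 : V n), corr ν ν w := by
      refine Finset.sum_subset hsub fun w hw hwB => ?_
      exact hRout w hwB (Finset.ne_of_mem_erase hw)
    rw [h2, pow_two]; linarith
  have hsumN : ∑ w ∈ B, corr (sq ν) (sq ν) w = n' ^ 2 - n' := by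
    have h1 : ∑ w, corr (sq ν) (sq ν) w = n' * n' := sum_corr (sq ν) (sq ν)
    rw [sum_split_zero, corr_zero] at h1
    have h2 : ∑ w ∈ B, corr (sq ν) (sq ν) w = ∑ w ∈ univ.erase (0 : V n), corr (sq ν) (sq ν) w := by
      refine Finset.sum_subset hsub fun w hw hwB => ?_
      exact hout w hwB (Finset.ne_of_mem_erase hw)
    have h3 : ∑ y, sq ν y * sq ν y = n' := Finset.sum_congr rfl fun y _ => sq_sq hν y
    rw [h2]; linarith
  have hstruct : ∀ w ∈ B, ∃ a b : ℤ, 0 ≤ a ∧ 0 ≤ b ∧ corr ν ν w = 2 * (a - b) ∧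
      corr (sq ν) (sq ν) w = 2 * (a + b) := by
    intro w hw
    have hw0 : w ≠ 0 := fun h => h0 (h ▸ hw)
    obtain ⟨a, ha⟩ := even_PP ν hw0
    obtain ⟨b, hb⟩ := even_MM ν hw0
    refine ⟨a, b, Int.natCast_nonneg _, Int.natCast_nonneg _, ?_, ?_⟩
    · rw [corr_eq hν, ha, hb]; push_cast; ring
    · rw [corr_sq_eq hν, ha, hb]; push_cast; ring
  have hpt : ∀ w ∈ B, 8 ≤ 3 * corr (sq ν) (sq ν) w + corr ν ν w := by
    intro w hw
    obtain ⟨a, b, ha, hb, h1, h2⟩ := hstruct w hw
    have h3 := hR w hw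
    rw [h1] at h3
    rw [h1, h2]
    omega
  have hineq : (504 : ℤ) ≤ 3 * (n' ^ 2 - n') + (s' ^ 2 - n') := by
    rw [← hsumR, ← hsumN, Finset.mul_sum, ← Finset.sum_add_distrib]
    have := Finset.card_nsmul_le_sum B (fun w => 3 * corr (sq ν) (sq ν) w + corr ν ν w) 8 hpt
    rw [hB] at this
    simpa using this
  have hle : s' ^ 2 - n' ≤ n' ^ 2 - n' := by
    rw [← hsumR, ← hsumN]
    exact Finset.sum_le_sum fun w _ => hNR w
  have hn0 : 0 ≤ n' := Finset.sum_nonneg fun y _ => mul_self_nonneg _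
  have hn12 : n' = 12 := by nlinarith
  have heven : (2 : ℤ) ∣ n' - s' := sum_sub_even hν
  have hs12 : s' ^ 2 = 144 := by
    rw [hn12] at hle hineq heven
    have h1 : s' ≤ 12 := by nlinarith
    have h2 : -12 ≤ s' := by nlinarith
    have h3 : 120 ≤ s' ^ 2 := by linarith
    have h4 : s' = 12 ∨ s' = -12 := by
      rcases le_or_gt 0 s' with h5 | h5
      · left
        have : 11 ≤ s' := by nlinarith
        omega
      · right
        have : s' ≤ -11 := by nlinarith
        omega
    rcases h4 with h4 | h4 <;> rw [h4] <;> norm_num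
  have heq : ∀ w ∈ B, corr ν ν w = corr (sq ν) (sq ν) w := by
    have h1 : ∑ w ∈ B, corr ν ν w = ∑ w ∈ B, corr (sq ν) (sq ν) w := by
      rw [hsumR, hsumN, hs12, hn12]; norm_num
    exact (Finset.sum_eq_sum_iff_of_le fun w _ => hNR w).1 h1
  -- every value is `2` mod `6`
  have hval : ∀ w ∈ B, corr (sq ν) (sq ν) w = 2 ∨ 8 ≤ corr (sq ν) (sq ν) w := by
    intro w hw
    obtain ⟨a, b, ha, hb, h1, h2⟩ := hstruct w hw
    have h3 := hR w hw
    have h4 := heq w hw
    rw [h1] at h3
    omega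
  have hsum132 : ∑ w ∈ B, corr (sq ν) (sq ν) w = 132 := by
    rw [hsumN, hn12]; norm_num
  have hex : ∃ w0 ∈ B, 8 ≤ corr (sq ν) (sq ν) w0 := by
    by_contra hno
    push Not at hno
    have : ∑ w ∈ B, corr (sq ν) (sq ν) w = ∑ w ∈ B, 2 := by
      refine Finset.sum_congr rfl fun w hw => ?_
      rcases hval w hw with h | h
      · exact h
      · exact absurd h (not_le.2 (hno w hw))
    rw [this] at hsum132
    simp [hB] at hsum132
  obtain ⟨w0, hw0B, hw0⟩ := hex
  have hw00 : w0 ≠ 0 := fun h => h0 (h ▸ hw0B)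
  -- the set of pair points
  have hcard : ∀ w, corr (sq ν) (sq ν) w = ((univ.filter fun y => ν y ≠ 0 ∧ ν (y + w) ≠ 0).card : ℤ) := by
    intro w
    unfold corr sq
    rw [Finset.card_filter]
    push_cast
    refine Finset.sum_congr rfl fun y _ => ?_
    rcases hν y with h1 | h1 | h1 <;> rcases hν (y + w) with h2 | h2 | h2 <;> rw [h1, h2] <;> norm_num
  set U := univ.filter fun y => ν y ≠ 0 ∧ ν (y + w0) ≠ 0 with hU
  have hUcard : 8 ≤ U.card := by
    have := hcard w0; rw [this] at hw0; exact_mod_cast hw0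
  obtain ⟨a, haU⟩ : U.Nonempty := by
    rw [← Finset.card_pos]; omega
  obtain ⟨b, hbU, hb⟩ : ∃ b ∈ U, b ∉ ({a, a + w0} : Finset (V n)) := by
    by_contra hno
    push Not at hno
    have h1 : U ⊆ {a, a + w0} := hno
    have h2 := Finset.card_le_card h1
    have h3 : ({a, a + w0} : Finset (V n)).card ≤ 2 := Finset.card_le_two
    omega
  rw [Finset.mem_insert, Finset.mem_singleton, not_or] at hb
  obtain ⟨hba, hbaw⟩ := hb
  rw [hU, Finset.mem_filter] at haU hbU
  obtain ⟨-, ha1, ha2⟩ := haU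
  obtain ⟨-, hb1, hb2⟩ := hbU
  have hw10 : a + b ≠ 0 := fun h => hba ((add_eq_zero_iff' _ _).1 h).symm
  have hw1w0 : a + b ≠ w0 := by
    intro h
    apply hbaw
    rw [← h, add_self_add]
  have hawa : a + w0 ≠ a := by simpa using hw00
  have hbwb : b + w0 ≠ b := by simpa using hw00
  have hsub4 : ({a, b, a + w0, b + w0} : Finset (V n)) ⊆ univ.filter fun y => ν y ≠ 0 ∧ ν (y + (a + b)) ≠ 0 := by
    intro y hy
    rw [Finset.mem_filter]
    refine ⟨Finset.mem_univ _, ?_⟩
    simp only [Finset.mem_insert, Finset.mem_singleton] at hy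
    rcases hy with rfl | rfl | rfl | rfl
    · rw [add_self_add]; exact ⟨ha1, hb1⟩
    · rw [add_comm a y, add_self_add]; exact ⟨hb1, ha1⟩
    · have : a + w0 + (a + b) = b + w0 := by
        rw [add_comm a w0, add_assoc, add_self_add, add_comm]
      rw [this]; exact ⟨ha2, hb2⟩
    · have : b + w0 + (a + b) = a + w0 := by
        rw [add_comm a b, add_comm b w0, add_assoc, add_self_add, add_comm]
      rw [this]; exact ⟨hb2, ha2⟩
  have hcard4 : ({a, b, a + w0, b + w0} : Finset (V n)).card = 4 := by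
    rw [Finset.card_insert_of_notMem, Finset.card_insert_of_notMem, Finset.card_insert_of_notMem,
      Finset.card_singleton]
    · simp only [Finset.mem_singleton]
      intro h; exact hba (add_right_cancel h).symm
    · simp only [Finset.mem_insert, Finset.mem_singleton, not_or]
      exact ⟨hbaw, fun h => hbwb h.symm⟩
    · simp only [Finset.mem_insert, Finset.mem_singleton, not_or]
      refine ⟨fun h => hba h.symm, fun h => hawa h.symm, fun h => hbaw ?_⟩
      rw [h, add_add_self]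
  have hN1 : 4 ≤ corr (sq ν) (sq ν) (a + b) := by
    rw [hcard]
    have := Finset.card_le_card hsub4
    rw [hcard4] at this
    exact_mod_cast this
  have hw1B : a + b ∈ B := by
    by_contra h
    have := hout _ h hw10
    omega
  have hN1' : 8 ≤ corr (sq ν) (sq ν) (a + b) := by
    rcases hval _ hw1B with h | h
    · omega
    · exact h
  -- sum bound
  have hbound : (138 : ℤ) ≤ ∑ w ∈ B, corr (sq ν) (sq ν) w := by
    have h1 : ∀ w ∈ B, (2 : ℤ) + (if w = w0 then 6 else 0) + (if w = a + b then 6 else 0)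
        ≤ corr (sq ν) (sq ν) w := by
      intro w hw
      by_cases e1 : w = w0
      · subst e1
        rw [if_pos rfl, if_neg (fun h => hw1w0 h.symm)]; linarith
      · by_cases e2 : w = a + b
        · subst e2
          rw [if_neg e1, if_pos rfl]; linarith
        · rw [if_neg e1, if_neg e2]
          rcases hval w hw with h | h <;> linarith
    have h2 := Finset.sum_le_sum h1
    rw [Finset.sum_add_distrib, Finset.sum_add_distrib, Finset.sum_ite_eq', Finset.sum_ite_eq',
      if_pos hw0B, if_pos hw1B, Finset.sum_const, hB] at h2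
    norm_num at h2
    linarith
  linarith

end Pool.Agent.BB931D
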