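import Pool.Agent.Lib_MP_bb931d_co.Example

set_option autoImplicit false
set_option linter.unusedSectionVars false
set_option linter.unusedSimpArgs false
set_option linter.unusedTactic false
set_option linter.unnecessarySimpa false
set_option linter.unusedVariables false

namespace Pool.Agent.Rho

open Finset

section zp
variable {p : ℕ} [Fact p.Prime]

lemma neg_ne_self (hp : 2 < p) {u : ZMod p} (hu : u ≠ 0) : -u ≠ u := by
  intro h
  have h20 := two_ne (p := p) hp
  have : 2 * u = 0 := by
    have : u + u = 0 := by nth_rewrite 1 [← h]; exact neg_add_cancel u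
    linear_combination this
  exact hu ((mul_eq_zero.mp this).resolve_left h20)

lemma sum_count (S : Multiset (ZMod p)) : ∑ u : ZMod p, S.count u = S.card :=
  Multiset.sum_count_eq_card (fun _ _ => Finset.mem_univ _)

lemma sum_count_le (S : Multiset (ZMod p)) (F : Finset (ZMod p)) :
    ∑ u ∈ F, S.count u ≤ S.card := by
  rw [← sum_count S]
  exact Finset.sum_le_sum_of_subset (Finset.subset_univ F)

/-- Balanced multisets without zero have even size. -/
lemma even_card (hp : 2 < p) (W : Multiset (ZMod p)) (h0 : (0 : ZMod p) ∉ W)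
    (hb : ∀ u, W.count u = W.count (-u)) : Even W.card := by
  rw [← sum_count W, ← ZMod.natCast_eq_zero_iff_even]
  push_cast
  refine Finset.sum_involution (fun u _ => -u) ?_ ?_ ?_ ?_
  · intro u _
    rw [← hb u]
    have : ∀ x : ZMod 2, x + x = 0 := by decide
    exact this _
  · intro u _ hu
    apply neg_ne_self hp
    rintro rfl
    rw [Multiset.count_eq_zero_of_notMem h0] at hu
    simp at hu
  · intro u _; exact Finset.mem_univ _
  · intro u _; simp

/-- If balanced outside `±a` then the parity is the imbalance at `a`. -/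
lemma parity_card (hp : 2 < p) (W : Multiset (ZMod p)) (h0 : (0 : ZMod p) ∉ W) {a : ZMod p}
    (ha : a ≠ 0) (hb : ∀ u, u ≠ a → u ≠ -a → W.count u = W.count (-u)) :
    W.card % 2 = (W.count a + W.count (-a)) % 2 := by
  classical
  set W' := W.filter (fun u => u ≠ a ∧ u ≠ -a) with hW'
  have hc : W.card = W'.card + (W.count a + W.count (-a)) := by
    have h1 := Multiset.filter_add_not (fun u => u ≠ a ∧ u ≠ -a) W
    have h3 : (W.filter (fun u => ¬ (u ≠ a ∧ u ≠ -a))).card = W.count a + W.count (-a) := by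
      rw [← sum_count (W.filter (fun u => ¬ (u ≠ a ∧ u ≠ -a)))]
      rw [← Finset.sum_subset (Finset.subset_univ {a, -a})]
      · rw [Finset.sum_pair (neg_ne_self hp ha).symm]
        rw [Multiset.count_filter_of_pos (by simp), Multiset.count_filter_of_pos (by simp)]
      · intro x _ hx
        simp only [Finset.mem_insert, Finset.mem_singleton, not_or] at hx
        apply Multiset.count_filter_of_neg
        exact fun h => h ⟨hx.1, hx.2⟩
    rw [← h3, ← Multiset.card_add, h1]
  have he : Even W'.card := by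
    apply even_card hp
    · intro h; exact h0 (Multiset.mem_filter.mp h).1
    · intro u
      by_cases hu : u ≠ a ∧ u ≠ -a
      · rw [hW', Multiset.count_filter_of_pos (p := fun u => u ≠ a ∧ u ≠ -a) hu,
          Multiset.count_filter_of_pos]
        · exact hb u hu.1 hu.2
        · exact ⟨fun h => hu.2 (by rw [← h, neg_neg]), fun h => hu.1 (neg_injective h)⟩
      · rw [hW', Multiset.count_filter_of_neg (p := fun u => u ≠ a ∧ u ≠ -a) hu,
          Multiset.count_filter_of_neg]
        intro h
        apply hu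
        exact ⟨fun h1 => h.2 (by rw [h1]), fun h1 => h.1 (by rw [h1, neg_neg])⟩
  have := Nat.even_iff.mp he
  omega

/-- Type of a long atom. -/
def typ (p : ℕ) (w : ZMod p) : Multiset (ZMod p) :=
  Multiset.replicate (2 * p - 3) (w + w) + ({-w} + Multiset.replicate 7 w)

/-- Odd functional. -/
def odf (S : Multiset (ZMod p)) (u : ZMod p) : ℤ := (S.count u : ℤ) - S.count (-u)

lemma odf_add (S T : Multiset (ZMod p)) (u : ZMod p) : odf (S + T) u = odf S u + odf T u := by
  unfold odf; rw [Multiset.count_add, Multiset.count_add]; push_cast; ring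

lemma odf_zero (S : Multiset (ZMod p)) : odf S 0 = 0 := by unfold odf; simp

lemma odf_neg (S : Multiset (ZMod p)) (u : ZMod p) : odf S (-u) = - odf S u := by
  unfold odf; rw [neg_neg]; ring

lemma odf_abs_le (hp : 2 < p) (S : Multiset (ZMod p)) (u : ZMod p) : |odf S u| ≤ S.card := by
  by_cases hu : u = 0
  · rw [hu, odf_zero]; simp
  · have := sum_count_le S {u, -u}
    rw [Finset.sum_pair (neg_ne_self hp hu).symm] at this
    unfold odf
    rw [abs_le]; constructor <;> omega

lemma odf_typ (hp : 2 < p) (w u : ZMod p) :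
    odf (typ p w) (u + u) = ((2 * p - 3 : ℕ) : ℤ) * odf {w} u + 6 * odf {w} (u + u) := by
  have h20 := two_ne (p := p) hp
  have hdbl : ∀ x y : ZMod p, x + x = y + y ↔ x = y := by
    intro x y
    constructor
    · intro h
      have : 2 * (x - y) = 0 := by linear_combination h
      exact sub_eq_zero.mp ((mul_eq_zero.mp this).resolve_left h20)
    · rintro rfl; rfl
  have hneg : ∀ x y : ZMod p, -x = y ↔ x = -y := fun x y => neg_eq_iff_eq_neg
  unfold odf typ
  simp only [Multiset.count_add, Multiset.count_replicate, Multiset.count_singleton]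
  have e1 : (w + w = u + u) ↔ (u = w) := by rw [hdbl]; exact eq_comm
  have e2 : (w + w = -(u + u)) ↔ (-u = w) := by
    have : -(u + u) = -u + -u := by ring
    rw [this, hdbl]; exact eq_comm
  have e3 : (u + u = -w) ↔ (-(u + u) = w) := by
    constructor
    · intro h; rw [h, neg_neg]
    · intro h; rw [← h, neg_neg]
  have e4 : (-(u + u) = -w) ↔ (u + u = w) := neg_inj
  have e5 : (w = u + u) ↔ (u + u = w) := eq_comm
  have e6 : (w = -(u + u)) ↔ (-(u + u) = w) := eq_comm
  simp only [e1, e2, e3, e4, e5, e6]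
  generalize 2 * p - 3 = M
  split_ifs <;> push_cast <;> ring

lemma odf_sum (S : Multiset (Multiset (ZMod p))) (u : ZMod p) :
    odf S.sum u = (S.map (fun T => odf T u)).sum := by
  induction S using Multiset.induction with
  | empty => simp [odf]
  | cons a S ih => rw [Multiset.sum_cons, Multiset.map_cons, Multiset.sum_cons, odf_add, ih]

lemma odf_types (hp : 2 < p) (W : Multiset (ZMod p)) (u : ZMod p) :
    odf (W.map (typ p)).sum (u + u) = ((2 * p - 3 : ℕ) : ℤ) * odf W u + 6 * odf W (u + u) := by
  induction W using Multiset.induction with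
  | empty => simp [odf]
  | cons a W ih =>
    rw [Multiset.map_cons, Multiset.sum_cons, odf_add, ih, odf_typ hp, ← Multiset.singleton_add,
      odf_add, odf_add]
    ring

/-- The imbalance is controlled by the remainder. -/
lemma max_odf (hp : 2 < p) (W : Multiset (ZMod p)) (C : ℤ)
    (hC : ∀ u, |((2 * p - 3 : ℕ) : ℤ) * odf W u + 6 * odf W (u + u)| ≤ C) :
    ∃ u0, (∀ u, |odf W u| ≤ |odf W u0|) ∧ ((2 * p - 9 : ℤ)) * |odf W u0| ≤ C := by
  obtain ⟨u0, hu0⟩ := Finite.exists_max (fun u : ZMod p => |odf W u|)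
  refine ⟨u0, hu0, ?_⟩
  have h1 := hC u0
  have h3 := hu0 (u0 + u0)
  have hcast : ((2 * p - 3 : ℕ) : ℤ) = 2 * (p : ℤ) - 3 := by
    rw [Nat.cast_sub (by omega)]; push_cast; ring
  rw [hcast] at h1
  have h4 : |(2 * (p : ℤ) - 3) * odf W u0| = (2 * (p : ℤ) - 3) * |odf W u0| := by
    rw [abs_mul, abs_of_pos (by omega)]
  have h5 : |(2 * (p : ℤ) - 3) * odf W u0| ≤
      |(2 * (p : ℤ) - 3) * odf W u0 + 6 * odf W (u0 + u0)| + |6 * odf W (u0 + u0)| := by
    have := abs_sub_abs_le_abs_sub ((2 * (p : ℤ) - 3) * odf W u0) (-(6 * odf W (u0 + u0)))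
    rw [sub_neg_eq_add, abs_neg] at this
    linarith
  have h6 : |6 * odf W (u0 + u0)| = 6 * |odf W (u0 + u0)| := by rw [abs_mul]; norm_num
  nlinarith

end zp

section grp
variable {V : Type} [AddCommGroup V] [Fintype V] [DecidableEq V] {p : ℕ} [Fact p.Prime]

lemma Atom.eq_zero_singleton {G : Type*} [AddCommGroup G] {A : Multiset G} (hA : Atom A)
    (h0 : (0 : G) ∈ A) : A = {0} :=
  (hA.2.2 {0} (Multiset.singleton_le.mpr h0) (by simp) (by simp)).symm

lemma Atom.card_pos {G : Type*} [AddCommGroup G] {A : Multiset G} (hA : Atom A) : 0 < A.card :=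
  Multiset.card_pos.mpr hA.1

lemma Atom.card_one {G : Type*} [AddCommGroup G] {A : Multiset G} (hA : Atom A)
    (h1 : A.card = 1) : A = {0} := by
  obtain ⟨a, rfl⟩ := Multiset.card_eq_one.mp h1
  have := hA.2.1
  rw [Multiset.sum_singleton] at this
  rw [this]

lemma Atom.card_two {G : Type*} [AddCommGroup G] {A : Multiset G} (hA : Atom A)
    (h1 : A.card = 2) : ∃ a, A = {a, -a} := by
  obtain ⟨a, b, rfl⟩ := Multiset.card_eq_two.mp h1
  have := hA.2.1
  rw [Multiset.sum_pair] at this
  exact ⟨a, by rw [eq_neg_of_add_eq_zero_right this]⟩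

/-- Types of a family of long atoms. -/
lemma types (hp : 4000 < p) (h2 : ∀ x : V, x + x = 0) (hV : Fintype.card V = 32)
    (XS : Multiset (Multiset (V × ZMod p))) (hX : ∀ A ∈ XS, Atom A ∧ A.card = 2 * p + 5) :
    ∃ W : Multiset (ZMod p), W.card = XS.card ∧ (0 : ZMod p) ∉ W ∧
      XS.sum.map Prod.snd = (W.map (typ p)).sum := by
  induction XS using Multiset.induction with
  | empty => exact ⟨0, rfl, by simp, by simp⟩
  | cons A XS ih =>
    obtain ⟨W, hW, h0, hs⟩ := ih (fun B hB => hX B (Multiset.mem_cons_of_mem hB))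
    obtain ⟨hA, hc⟩ := hX A (Multiset.mem_cons_self _ _)
    obtain ⟨-, w, hw, hmap⟩ := structure_theorem hp h2 hV hA (by omega)
    refine ⟨w ::ₘ W, by rw [Multiset.card_cons, Multiset.card_cons, hW], ?_, ?_⟩
    · rw [Multiset.mem_cons, not_or]; exact ⟨hw.symm, h0⟩
    · rw [Multiset.sum_cons, Multiset.map_add, Multiset.map_cons, Multiset.sum_cons, hs, hmap]
      rfl

lemma types_zero (hp : 2 < p) (W : Multiset (ZMod p)) (h0 : (0 : ZMod p) ∉ W) :
    (0 : ZMod p) ∉ (W.map (typ p)).sum := by
  induction W using Multiset.induction with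
  | empty => simp
  | cons a W ih =>
    rw [Multiset.mem_cons, not_or] at h0
    rw [Multiset.map_cons, Multiset.sum_cons, Multiset.mem_add, not_or]
    refine ⟨?_, ih h0.2⟩
    unfold typ
    rw [Multiset.mem_add, Multiset.mem_add, not_or, not_or]
    have h20 := two_ne (p := p) hp
    refine ⟨?_, ?_, ?_⟩
    · intro h
      have := Multiset.eq_of_mem_replicate h
      have h3 : 2 * a = 0 := by linear_combination -this
      exact h0.1 ((mul_eq_zero.mp h3).resolve_left h20).symm
    · intro h
      have := Multiset.mem_singleton.mp h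
      exact h0.1 (neg_eq_zero.mp this.symm).symm
    · intro h
      exact h0.1 (Multiset.eq_of_mem_replicate h)

/-- Extraction of pairs from a balanced multiset. -/
lemma extract_pairs (hp : 2 < p) (m : ℕ) : ∀ (S : Multiset (V × ZMod p)),
    (∀ g ∈ S, g.2 ≠ 0) → (∀ u, odf (S.map Prod.snd) u = 0) → 2 * m ≤ S.card →
    ∃ P : Fin m → Multiset (V × ZMod p), (∑ i, P i) ≤ S ∧
      ∀ i, (P i).card = 2 ∧ (P i).sum.2 = 0 := by
  induction m with
  | zero => intro S _ _ _; exact ⟨Fin.elim0, by simp, fun i => i.elim0⟩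
  | succ m ih =>
    intro S h0 hb hc
    obtain ⟨x, hx⟩ := Multiset.card_pos_iff_exists_mem.mp (show 0 < S.card by omega)
    obtain ⟨S1, rfl⟩ := Multiset.exists_cons_of_mem hx
    have hx0 := h0 x hx
    have hcount : 0 < ((x ::ₘ S1).map Prod.snd).count (-x.2) := by
      have h1 := hb x.2
      unfold odf at h1
      have h3 : 0 < ((x ::ₘ S1).map Prod.snd).count x.2 :=
        Multiset.count_pos.mpr (Multiset.mem_map_of_mem _ hx)
      omega
    have hmem := Multiset.count_pos.mp hcount
    obtain ⟨y, hy, hyx⟩ := Multiset.mem_map.mp hmem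
    have hy1 : y ∈ S1 := by
      rcases Multiset.mem_cons.mp hy with rfl | h
      · exact absurd hyx.symm (neg_ne_self hp hx0)
      · exact h
    obtain ⟨S2, rfl⟩ := Multiset.exists_cons_of_mem hy1
    have hb2 : ∀ u, odf (S2.map Prod.snd) u = 0 := by
      intro u
      have h1 := hb u
      have e : (x ::ₘ y ::ₘ S2).map Prod.snd = ({x.2} + {-x.2}) + S2.map Prod.snd := by
        rw [Multiset.map_cons, Multiset.map_cons, ← hyx, add_assoc, Multiset.singleton_add,
          Multiset.singleton_add]
      rw [e, odf_add, odf_add] at h1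
      have h3 : odf ({x.2} : Multiset (ZMod p)) u + odf ({-x.2} : Multiset (ZMod p)) u = 0 := by
        unfold odf
        simp only [Multiset.count_singleton]
        have e1 : (-u = x.2) ↔ (u = -x.2) := neg_eq_iff_eq_neg
        have e2 : (-u = -x.2) ↔ (u = x.2) := neg_inj
        simp only [e1, e2]
        ring
      rw [h3, zero_add] at h1
      exact h1
    obtain ⟨P, hP, hP'⟩ := ih S2 (fun g hg => h0 g (Multiset.mem_cons_of_mem (Multiset.mem_cons_of_mem hg)))
      hb2 (by rw [Multiset.card_cons, Multiset.card_cons] at hc; omega)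
    refine ⟨Fin.cons {x, y} P, ?_, ?_⟩
    · rw [Fin.sum_univ_succ]
      simp only [Fin.cons_zero, Fin.cons_succ]
      have e : x ::ₘ y ::ₘ S2 = {x, y} + S2 := by
        rw [Multiset.insert_eq_cons, Multiset.cons_add, Multiset.singleton_add]
      rw [e]
      exact add_le_add (le_refl _) hP
    · intro i
      refine Fin.cases ?_ ?_ i
      · simp only [Fin.cons_zero]
        refine ⟨rfl, ?_⟩
        rw [Multiset.sum_pair]
        show x.2 + y.2 = 0
        rw [hyx]; ring
      · intro j; simp only [Fin.cons_succ]; exact hP' j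

/-- A long balanced zero-sum multiset is not an atom. -/
lemma balanced_false (hp : 4000 < p) (h2 : ∀ x : V, x + x = 0) (hV : Fintype.card V = 32)
    {A : Multiset (V × ZMod p)} (hA : Atom A) (hc : 13 ≤ A.card)
    (h0 : ∀ g ∈ A, g.2 ≠ 0) (hb : ∀ u, odf (A.map Prod.snd) u = 0) : False := by
  classical
  obtain ⟨P, hP, hP'⟩ := extract_pairs (by omega) 6 A h0 hb (by omega)
  have hk := ker_card (ι := Fin 6) (v := fun i => (P i).sum.1) (R := Finset.univ) h2
  rw [hV, Finset.card_univ, Fintype.card_fin] at hk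
  set 𝒦 := (Finset.univ : Finset (Fin 6)).powerset.filter
    (fun B => ∑ i ∈ B, (P i).sum.1 = 0) with h𝒦
  have hge : 2 ≤ 𝒦.card := by omega
  have hI : ∃ I ∈ 𝒦, I ∉ ({∅} : Finset (Finset (Fin 6))) := by
    by_contra hcon
    push Not at hcon
    have := Finset.card_le_card hcon
    rw [Finset.card_singleton] at this
    omega
  obtain ⟨I, hI, hI'⟩ := hI
  rw [h𝒦, Finset.mem_filter] at hI
  rw [Finset.mem_singleton] at hI'
  have hle : ∑ i ∈ I, P i ≤ A :=
    (Finset.sum_le_sum_of_subset (Finset.subset_univ I)).trans hP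
  have hcard : (∑ i ∈ I, P i).card = 2 * I.card := by
    rw [Multiset.card_sum, Finset.sum_congr rfl (fun i _ => (hP' i).1), Finset.sum_const,
      smul_eq_mul, mul_comm]
  have hI1 : 0 < I.card := Finset.card_pos.mpr (Finset.nonempty_iff_ne_empty.mpr hI')
  have hI6 : I.card ≤ 6 := by
    have := Finset.card_le_univ I
    rwa [Fintype.card_fin] at this
  have hsum : (∑ i ∈ I, P i).sum = 0 := by
    have h1 : (∑ i ∈ I, P i).sum = ∑ i ∈ I, (P i).sum := map_sum Multiset.sumAddMonoidHom P I
    rw [h1]
    refine Prod.ext ?_ ?_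
    · rw [Prod.fst_sum]; exact hI.2
    · rw [Prod.snd_sum]; exact Finset.sum_eq_zero (fun i _ => (hP' i).2)
  have := hA.2.2 _ hle (by
    intro h
    rw [h, Multiset.card_zero] at hcard; omega) hsum
  rw [this] at hcard
  omega

end grp

end Pool.Agent.Rho
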