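import Pool.Agent.Lib_MP_bb931d_co.Rank3

set_option autoImplicit false
set_option linter.unusedSectionVars false
set_option linter.unusedSimpArgs false
set_option linter.unusedTactic false
set_option linter.unnecessarySimpa false
set_option linter.unusedVariables false

namespace Pool.Agent.Rho

open Finset

section
variable {ι V : Type*} [DecidableEq ι] [AddCommGroup V] {p K : ℕ} {e : V} {v : ι → V}
  {b : ι → ZMod p} {R : Finset ι}

/-- The extremal configuration (extended Hamming code with weights 1/2 and one -1/2). -/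
structure HQ (e : V) (v : ι → V) (b : ι → ZMod p) (B : Finset ι) : Prop where
  card : B.card = 8
  wt : ∃ z ∈ B, 2 * b z = -1 ∧ ∀ i ∈ B, i ≠ z → 2 * b i = 1
  sep : ∀ i ∈ B, ∀ j ∈ B, i ≠ j → ∃ P ⊆ B, i ∈ P ∧ j ∉ P ∧ Blk e v P
  ne : ∀ i ∈ B, v i ≠ 0 ∧ v i ≠ e
  cls : ∀ i ∈ B, ∀ j ∈ B, i ≠ j → v i + v j ≠ 0 ∧ v i + v j ≠ e

/-- Two blocks meeting in a point of half-integral weight are impossible. -/
lemma half_false [Fact p.Prime] (hp : 4 * K + 20 < p) (h2 : ∀ x : V, x + x = 0)
    (h : Cfg p K e v b R) {B C : Finset ι} {i : ι} (hB : B ⊆ R) (hC : C ⊆ R)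
    (bB : Blk e v B) (bC : Blk e v C) (hi : B ∩ C = {i}) (hn : (symmDiff B C).Nonempty)
    (hw : 2 * b i = 1 ∨ 2 * b i = -1) : False := by
  have iB : i ∈ B := (Finset.mem_inter.mp (hi ▸ Finset.mem_singleton_self i)).1
  have iC : i ∈ C := (Finset.mem_inter.mp (hi ▸ Finset.mem_singleton_self i)).2
  have nB : B.Nonempty := ⟨i, iB⟩
  have nC : C.Nonempty := ⟨i, iC⟩
  have sub : symmDiff B C ⊆ R := by
    intro t ht
    rw [Finset.mem_symmDiff] at ht
    rcases ht with ht | ht
    · exact hB ht.1
    · exact hC ht.1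
  have par := h.parity h2 hB hC nB nC hn bB bC
  have rel := two_b (b := b) hi
  have l1 := h.le hB nB bB
  have l2 := h.le hC nC bC
  have l3 := h.le sub hn (bB.symm h2 bC)
  generalize (∑ i ∈ B, b i).val = m1 at *
  generalize (∑ i ∈ C, b i).val = m2 at *
  generalize (∑ i ∈ symmDiff B C, b i).val = m3 at *
  rcases hw with hw | hw
  · have : (((m1 : ℤ) + m2 - m3 : ℤ) : ZMod p) = ((1 : ℤ) : ZMod p) := by
      push_cast; rw [← rel, hw]
    have := cast_eq_small this (by rw [abs_lt]; constructor <;> omega)
    rcases par with ⟨t, ht⟩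
    omega
  · have : (((m1 : ℤ) + m2 - m3 : ℤ) : ZMod p) = ((-1 : ℤ) : ZMod p) := by
      push_cast; rw [← rel, hw]
    have := cast_eq_small this (by rw [abs_lt]; constructor <;> omega)
    rcases par with ⟨t, ht⟩
    omega

/-- The extremal configuration cannot be a proper part. -/
lemma proper_false [Fact p.Prime] (hp : 4 * K + 20 < p) [Fintype V] (hV : Fintype.card V = 32)
    (h2 : ∀ x : V, x + x = 0) (he : e ≠ 0)
    (h : Cfg p K e v b R) {B : Finset ι} (hB : B ⊆ R) (bB : Blk e v B) (hQ : HQ e v b B)
    {x : ι} (hx : x ∈ R) (hxB : x ∉ B) (hx0 : v x ≠ 0) (hxe : v x ≠ e) : False := by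
  classical
  have k1 : ∀ x y : V, x + y + y = x := fun x y => by rw [add_assoc, h2, add_zero]
  obtain ⟨z, hz, hz1, hz2⟩ := hQ.wt
  have hw : ∀ i ∈ B, 2 * b i = 1 ∨ 2 * b i = -1 := by
    intro i hi
    by_cases hiz : i = z
    · subst hiz; exact Or.inr hz1
    · exact Or.inl (hz2 i hi hiz)
  by_cases h1 : ∃ i ∈ B, v x + v i = 0 ∨ v x + v i = e
  · obtain ⟨i, hi, hvi⟩ := h1
    have hxi : x ≠ i := fun h0 => hxB (h0 ▸ hi)
    refine half_false hp h2 h (B := {x, i}) (C := B) (i := i) ?_ hB ?_ bB ?_ ?_ (hw i hi)
    · intro t ht; simp only [Finset.mem_insert, Finset.mem_singleton] at ht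
      rcases ht with rfl | rfl
      · exact hx
      · exact hB hi
    · unfold Blk; rw [Finset.sum_pair hxi]; exact hvi
    · ext t
      simp only [Finset.mem_inter, Finset.mem_insert, Finset.mem_singleton]
      constructor
      · rintro ⟨h3 | h3, h4⟩
        · exact absurd (h3 ▸ h4) hxB
        · exact h3
      · rintro rfl; exact ⟨Or.inr rfl, hi⟩
    · exact ⟨x, by rw [Finset.mem_symmDiff]; left; exact ⟨by simp, hxB⟩⟩
  · push Not at h1
    have h3 : ∃ i ∈ B, ∃ j ∈ B, i ≠ j ∧ (v x + v i + v j = 0 ∨ v x + v i + v j = e) := by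
      by_contra hcon
      push Not at hcon
      have := card_classes (ι := ι ⊕ ι) (v := Sum.elim v (fun i => v x + v i)) (R := B.disjSum B)
        h2 he ?_ ?_
      · rw [Finset.card_disjSum, hQ.card, hV] at this
        omega
      · rintro (i | i) hi
        · simp only [Finset.inl_mem_disjSum] at hi
          exact hQ.ne i hi
        · simp only [Finset.inr_mem_disjSum] at hi
          exact h1 i hi
      · rintro (i | i) hi (j | j) hj hij
        · simp only [Finset.inl_mem_disjSum] at hi hj
          exact hQ.cls i hi j hj (fun h0 => hij (by rw [h0]))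
        · simp only [Finset.inl_mem_disjSum, Finset.inr_mem_disjSum] at hi hj
          simp only [Sum.elim_inl, Sum.elim_inr]
          by_cases hij' : i = j
          · subst hij'
            rw [← add_assoc, add_right_comm, h2, zero_add]
            exact ⟨hx0, hxe⟩
          · have := hcon i hi j hj hij'
            have e1 : v i + (v x + v j) = v x + v i + v j := by abel
            rw [e1]; exact this
        · simp only [Finset.inl_mem_disjSum, Finset.inr_mem_disjSum] at hi hj
          simp only [Sum.elim_inl, Sum.elim_inr]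
          by_cases hij' : i = j
          · subst hij'
            rw [k1]
            exact ⟨hx0, hxe⟩
          · exact hcon i hi j hj hij'
        · simp only [Finset.inr_mem_disjSum] at hi hj
          simp only [Sum.elim_inr]
          have := hQ.cls i hi j hj (fun h0 => hij (by rw [h0]))
          have e1 : v x + v i + (v x + v j) = v i + v j := by
            have := h2 (v x)
            calc _ = (v x + v x) + (v i + v j) := by abel
              _ = _ := by rw [this, zero_add]
          rw [e1]; exact this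
    obtain ⟨i, hi, j, hj, hij, hv⟩ := h3
    obtain ⟨P, hP, hiP, hjP, bP⟩ := hQ.sep i hi j hj hij
    have hxi : x ≠ i := fun h0 => hxB (h0 ▸ hi)
    have hxj : x ≠ j := fun h0 => hxB (h0 ▸ hj)
    refine half_false hp h2 h (B := {x, i, j}) (C := P) (i := i) ?_ (hP.trans hB) ?_ bP ?_ ?_ (hw i hi)
    · intro t ht; simp only [Finset.mem_insert, Finset.mem_singleton] at ht
      rcases ht with rfl | rfl | rfl
      · exact hx
      · exact hB hi
      · exact hB hj
    · unfold Blk; rw [Finset.sum_insert (by simp [hxi, hxj]), Finset.sum_pair hij, ← add_assoc]; exact hv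
    · ext t
      simp only [Finset.mem_inter, Finset.mem_insert, Finset.mem_singleton]
      constructor
      · rintro ⟨h3 | h3 | h3, h4⟩
        · exact absurd (hP (h3 ▸ h4)) hxB
        · exact h3
        · exact absurd (h3 ▸ h4) hjP
      · rintro rfl; exact ⟨Or.inr (Or.inl rfl), hiP⟩
    · exact ⟨x, by rw [Finset.mem_symmDiff]; left; exact ⟨by simp, fun h0 => hxB (hP h0)⟩⟩

/-- Number of zero-sum subsets. -/
lemma ker_card [Fintype V] [DecidableEq V] (h2 : ∀ x : V, x + x = 0) :
    2 ^ R.card ≤ Fintype.card V * (R.powerset.filter (fun B => ∑ i ∈ B, v i = 0)).card := by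
  have h1 : R.powerset.card = ∑ x : V, (R.powerset.filter (fun B => ∑ i ∈ B, v i = x)).card :=
    Finset.card_eq_sum_card_fiberwise (fun _ _ => Finset.mem_coe.mpr (Finset.mem_univ _))
  rw [Finset.card_powerset] at h1
  rw [h1, ← smul_eq_mul, ← Finset.card_univ (α := V), ← Finset.sum_const]
  apply Finset.sum_le_sum
  intro x _
  rcases (R.powerset.filter (fun B => ∑ i ∈ B, v i = x)).eq_empty_or_nonempty with h0 | ⟨B0, hB0⟩
  · rw [h0]; simp
  · rw [Finset.mem_filter, Finset.mem_powerset] at hB0
    apply Finset.card_le_card_of_injOn (fun B => symmDiff B B0)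
    · intro B hB
      rw [Finset.mem_coe, Finset.mem_filter, Finset.mem_powerset] at hB
      rw [Finset.mem_coe, Finset.mem_filter, Finset.mem_powerset]
      refine ⟨?_, ?_⟩
      · intro t ht
        rw [Finset.mem_symmDiff] at ht
        rcases ht with ht | ht
        · exact hB.1 ht.1
        · exact hB0.1 ht.1
      · rw [sum_symm h2, hB.2, hB0.2, h2]
    · intro B _ B' _ heq
      simpa using heq

/-- Number of blocks. -/
lemma blk_card [Fintype V] [DecidableEq V] (h2 : ∀ x : V, x + x = 0) (he : e ≠ 0) 
    [DecidablePred (Blk e v)] :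
    2 ^ (R.card + 1) ≤ Fintype.card V * (R.powerset.filter (fun B => Blk e v B)).card := by
  have k1 : ∀ x y : V, x + y + y = x := fun x y => by rw [add_assoc, h2, add_zero]
  set S := R.powerset ×ˢ ({0, e} : Finset V) with hS
  have hScard : S.card = 2 ^ (R.card + 1) := by
    rw [hS, Finset.card_product, Finset.card_powerset, Finset.card_pair he.symm, pow_succ]
  have h1 : S.card = ∑ x : V, (S.filter (fun q => ∑ i ∈ q.1, v i + q.2 = x)).card :=
    Finset.card_eq_sum_card_fiberwise (fun _ _ => Finset.mem_coe.mpr (Finset.mem_univ _))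
  rw [← hScard, h1, ← smul_eq_mul, ← Finset.card_univ (α := V), ← Finset.sum_const]
  apply Finset.sum_le_sum
  intro x _
  rcases (S.filter (fun q => ∑ i ∈ q.1, v i + q.2 = x)).eq_empty_or_nonempty with h0 | ⟨⟨B0, u0⟩, hB0⟩
  · rw [h0]; simp
  · rw [Finset.mem_filter, hS, Finset.mem_product, Finset.mem_powerset] at hB0
    simp only [Finset.mem_insert, Finset.mem_singleton] at hB0
    apply Finset.card_le_card_of_injOn (fun q => symmDiff q.1 B0)
    · rintro ⟨B, u⟩ hB
      rw [Finset.mem_coe, Finset.mem_filter, hS, Finset.mem_product, Finset.mem_powerset] at hB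
      simp only [Finset.mem_insert, Finset.mem_singleton] at hB
      rw [Finset.mem_coe, Finset.mem_filter, Finset.mem_powerset]
      refine ⟨?_, ?_⟩
      · intro t ht
        rw [Finset.mem_symmDiff] at ht
        rcases ht with ht | ht
        · exact hB.1.1 ht.1
        · exact hB0.1.1 ht.1
      · unfold Blk
        rw [sum_symm h2]
        have e1 : ∑ i ∈ B, v i + ∑ i ∈ B0, v i = u + u0 := by
          have a1 : ∑ i ∈ B, v i = x + u := by rw [← hB.2, k1]
          have a2 : ∑ i ∈ B0, v i = x + u0 := by rw [← hB0.2, k1]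
          rw [a1, a2]
          have := h2 x
          calc _ = (x + x) + (u + u0) := by abel
            _ = _ := by rw [this, zero_add]
        rw [e1]
        rcases hB.1.2 with hu | hu <;> rcases hB0.1.2 with hw | hw <;> simp [hu, hw, h2]
    · rintro ⟨B, u⟩ hB ⟨B', u'⟩ hB' heq
      have hBB : B = B' := by simpa using heq
      subst hBB
      rw [Finset.mem_coe, Finset.mem_filter] at hB hB'
      have : ∑ i ∈ B, v i + u = ∑ i ∈ B, v i + u' := hB.2.trans hB'.2.symm
      have := add_left_cancel this
      rw [this]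

end

end Pool.Agent.Rho
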