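import Pool.Agent.Lib_MP_bb931d_co.Struct

set_option autoImplicit false
set_option linter.unusedSectionVars false
set_option linter.unusedSimpArgs false
set_option linter.unusedTactic false
set_option linter.unnecessarySimpa false
set_option linter.unusedVariables false

namespace Pool.Agent.Rho

open Finset

/-- The elementary abelian group of order 32. -/
abbrev V5 : Type := ZMod 2 × ZMod 2 × ZMod 2 × ZMod 2 × ZMod 2

lemma V5_two : ∀ x : V5, x + x = 0 := by decide

lemma V5_card : Fintype.card V5 = 32 := by rfl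

/-- The distinguished vector. -/
def e5 : V5 := (0, 0, 0, 0, 1)

/-- The eight odd weight vectors, the last one shifted. -/
def f8 : Fin 8 → V5 := ![(1, 0, 0, 0, 0), (0, 1, 0, 0, 0), (0, 0, 1, 0, 0), (0, 0, 0, 1, 0),
  (1, 1, 1, 0, 0), (1, 1, 0, 1, 0), (1, 0, 1, 1, 0), (0, 1, 1, 1, 1)]

lemma f8_spec : ∀ I : Finset (Fin 8), (∑ i ∈ I, f8 i = 0 → I = ∅ ∨ (I.card = 4 ∧ 7 ∉ I)) ∧
    (∑ i ∈ I, f8 i = e5 → (I.card = 4 ∧ 7 ∈ I) ∨ I = Finset.univ) := by
  decide +kernel

lemma f8_sum : ∑ i, f8 i = e5 := by decide +kernel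

section
variable (p : ℕ) [Fact p.Prime]

/-- The second components. -/
def c8 : Fin 8 → ZMod p := fun i => if i = 7 then -1 else 1

/-- The eight special elements. -/
def x8 : Fin 8 → V5 × ZMod p := fun i => (f8 i, c8 p i)

/-- The long atom. -/
def longAtom : Multiset (V5 × ZMod p) :=
  Multiset.replicate (2 * p - 3) (e5, 2) + (Finset.univ : Finset (Fin 8)).val.map (x8 p)

lemma longAtom_card (hp : 2 < p) : (longAtom p).card = 2 * p + 5 := by
  unfold longAtom
  rw [Multiset.card_add, Multiset.card_replicate, Multiset.card_map]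
  have : Multiset.card (Finset.univ : Finset (Fin 8)).val = 8 := rfl
  omega

lemma c8_sum (I : Finset (Fin 8)) : ∑ i ∈ I, c8 p i = (I.card : ZMod p) - 2 * (if 7 ∈ I then 1 else 0) := by
  classical
  have h1 : ∀ i, c8 p i = 1 - 2 * (if i = 7 then 1 else 0) := by
    intro i; unfold c8; split_ifs <;> ring
  rw [Finset.sum_congr rfl (fun i _ => h1 i), Finset.sum_sub_distrib, ← Finset.mul_sum,
    Finset.sum_ite_eq' I (7 : Fin 8) (fun _ => (1 : ZMod p))]
  simp

lemma longAtom_atom (hp : 4000 < p) : Atom (longAtom p) := by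
  classical
  have hpp : p.Prime := Fact.out
  have hpodd : Odd p := hpp.odd_of_ne_two (by omega)
  have hpo : p % 2 = 1 := Nat.odd_iff.mp hpodd
  have hsum : ∀ (I : Finset (Fin 8)), (I.val.map (x8 p)).sum = (∑ i ∈ I, f8 i, ∑ i ∈ I, c8 p i) := by
    intro I
    have h1 : (I.val.map (x8 p)).sum = ∑ i ∈ I, x8 p i := rfl
    rw [h1]
    refine Prod.ext ?_ ?_
    · rw [Prod.fst_sum]; rfl
    · rw [Prod.snd_sum]; rfl
  refine ⟨?_, ?_, ?_⟩
  · intro h0
    have := congrArg Multiset.card h0
    rw [longAtom_card p (by omega), Multiset.card_zero] at this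
    omega
  · unfold longAtom
    rw [Multiset.sum_add, Multiset.sum_replicate, hsum, f8_sum, c8_sum]
    refine Prod.ext ?_ ?_
    · show (2 * p - 3) • e5 + e5 = 0
      rw [nsmul_odd V5_two e5 (Nat.odd_iff.mpr (by omega)), V5_two]
    · show (2 * p - 3) • (2 : ZMod p) + ((Finset.univ : Finset (Fin 8)).card - 2 * (if (7 : Fin 8) ∈ Finset.univ then 1 else 0)) = 0
      have h1 : ((2 * p - 3 : ℕ) : ZMod p) = -3 := by
        have : ((2 * p - 3 + 3 : ℕ) : ZMod p) = 0 := by
          rw [Nat.sub_add_cancel (by omega)]; push_cast; rw [CharP.cast_eq_zero]; simp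
        push_cast at this
        exact eq_neg_of_add_eq_zero_left this
      rw [nsmul_eq_mul, h1, if_pos (Finset.mem_univ _), Finset.card_univ, Fintype.card_fin]
      norm_num
  · intro B hB hn hs
    set X := (Finset.univ : Finset (Fin 8)).val.map (x8 p) with hX
    set P := Multiset.replicate (2 * p - 3) ((e5, 2) : V5 × ZMod p) with hP
    have hBPX : B ≤ P + X := hB
    have hsplit : B - P + B ∩ P = B := Multiset.sub_add_inter B P
    have h1 : B - P ≤ X := tsub_le_iff_left.mpr hBPX
    have h3 : B ∩ P ≤ P := Multiset.inter_le_right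
    obtain ⟨j, hj, hjr⟩ := Multiset.le_replicate_iff.mp h3
    obtain ⟨s', hs', hm⟩ := exists_le_of_le_map (x8 p) _ _ h1
    have hnd : s'.Nodup := Multiset.nodup_of_le hs' Finset.univ.nodup
    set I : Finset (Fin 8) := ⟨s', hnd⟩ with hI
    have hIs : I.val = s' := rfl
    rw [← hIs] at hm
    have hBeq : B = I.val.map (x8 p) + Multiset.replicate j (e5, 2) := by
      rw [hm, ← hjr]; exact hsplit.symm
    rw [hBeq, Multiset.sum_add, Multiset.sum_replicate, hsum] at hs
    have hs1 : ∑ i ∈ I, f8 i + j • e5 = 0 := congrArg Prod.fst hs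
    have hs2 : ∑ i ∈ I, c8 p i + j • (2 : ZMod p) = 0 := congrArg Prod.snd hs
    rw [c8_sum, nsmul_eq_mul] at hs2
    have hlow : ∀ m : ℕ, ((m : ℕ) : ZMod p) = 0 → p ∣ m := fun m hm => (ZMod.natCast_eq_zero_iff m p).mp hm
    have hdiv : ∀ c : ℕ, p ∣ 2 * (j + c) → p ∣ j + c := by
      intro c hc
      exact (Nat.Coprime.dvd_mul_left ((Nat.coprime_primes hpp Nat.prime_two).mpr (by omega))).mp hc
    have e50 : e5 ≠ 0 := by decide
    have hspec := f8_spec I
    rcases Nat.even_or_odd j with hje | hjo
    · have hje' := Nat.even_iff.mp hje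
      rw [nsmul_even V5_two e5 hje, add_zero] at hs1
      rcases hspec.1 hs1 with h0 | ⟨h4, h7⟩
      · rw [h0] at hs2
        have : ((2 * (j + 0) : ℕ) : ZMod p) = 0 := by
          simp only [Finset.card_empty, Nat.cast_zero, Finset.notMem_empty, if_false, mul_zero,
            sub_zero, zero_add] at hs2
          push_cast; linear_combination hs2
        obtain ⟨t, ht⟩ := hdiv 0 (hlow _ this)
        have ht2 : t ≤ 1 := by
          by_contra hcon
          have : p * 2 ≤ p * t := Nat.mul_le_mul_left p (by omega)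
          omega
        have hj0 : j = 0 := by interval_cases t <;> omega
        exfalso
        apply hn
        rw [hBeq, h0, hj0]; rfl
      · rw [h4, if_neg h7] at hs2
        have : ((2 * (j + 2) : ℕ) : ZMod p) = 0 := by
          push_cast; push_cast at hs2; linear_combination hs2
        obtain ⟨t, ht⟩ := hdiv 2 (hlow _ this)
        have ht2 : t ≤ 1 := by
          by_contra hcon
          have : p * 2 ≤ p * t := Nat.mul_le_mul_left p (by omega)
          omega
        exfalso
        interval_cases t <;> omega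
    · have hjo' := Nat.odd_iff.mp hjo
      rw [nsmul_odd V5_two e5 hjo] at hs1
      have hs1' : ∑ i ∈ I, f8 i = e5 := by
        have h5 := V5_two e5
        exact add_right_cancel (hs1.trans h5.symm)
      rcases hspec.2 hs1' with ⟨h4, h7⟩ | h0
      · rw [h4, if_pos h7] at hs2
        have : ((2 * (j + 1) : ℕ) : ZMod p) = 0 := by
          push_cast; push_cast at hs2; linear_combination hs2
        obtain ⟨t, ht⟩ := hdiv 1 (hlow _ this)
        have ht2 : t ≤ 1 := by
          by_contra hcon
          have : p * 2 ≤ p * t := Nat.mul_le_mul_left p (by omega)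
          omega
        exfalso
        interval_cases t <;> omega
      · have h7 : (7 : Fin 8) ∈ I := by rw [h0]; exact Finset.mem_univ _
        have h8 : I.card = 8 := by rw [h0]; rfl
        rw [h8, if_pos h7] at hs2
        have : ((2 * (j + 3) : ℕ) : ZMod p) = 0 := by
          push_cast; push_cast at hs2; linear_combination hs2
        obtain ⟨t, ht⟩ := hdiv 3 (hlow _ this)
        have ht2 : t ≤ 2 := by
          by_contra hcon
          have : p * 3 ≤ p * t := Nat.mul_le_mul_left p (by omega)
          omega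
        have hj2 : j = 2 * p - 3 := by interval_cases t <;> omega
        rw [hBeq, h0, hj2]
        show _ = P + X
        rw [add_comm]

end

end Pool.Agent.Rho
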