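import Pool.Agent.Lib_MP_bb931d_co.Count

set_option autoImplicit false
set_option linter.unusedSectionVars false
set_option linter.unusedSimpArgs false
set_option linter.unusedTactic false
set_option linter.unnecessarySimpa false
set_option linter.unusedVariables false

namespace Pool.Agent.Rho

open Finset

lemma msum_le {α : Type*} (f : α → ℕ) (c : ℕ) (S : Multiset α) (h : ∀ a ∈ S, f a ≤ c) :
    (S.map f).sum ≤ S.card * c := by
  induction S using Multiset.induction with
  | empty => simp
  | cons a S ih =>
    rw [Multiset.map_cons, Multiset.sum_cons, Multiset.card_cons]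
    have h1 := ih (fun b hb => h b (Multiset.mem_cons_of_mem hb))
    have h3 := h a (Multiset.mem_cons_self _ _)
    have : (S.card + 1) * c = S.card * c + c := by ring
    omega

lemma le_msum {α : Type*} (f : α → ℕ) (c : ℕ) (S : Multiset α) (h : ∀ a ∈ S, c ≤ f a) :
    S.card * c ≤ (S.map f).sum := by
  induction S using Multiset.induction with
  | empty => simp
  | cons a S ih =>
    rw [Multiset.map_cons, Multiset.sum_cons, Multiset.card_cons]
    have h1 := ih (fun b hb => h b (Multiset.mem_cons_of_mem hb))
    have h3 := h a (Multiset.mem_cons_self _ _)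
    have : (S.card + 1) * c = S.card * c + c := by ring
    omega

lemma eq_of_msum_le {α : Type*} (f : α → ℕ) (c : ℕ) (S : Multiset α) (h : ∀ a ∈ S, c ≤ f a)
    (hs : (S.map f).sum ≤ S.card * c) : ∀ a ∈ S, f a = c := by
  intro a ha
  obtain ⟨S', rfl⟩ := Multiset.exists_cons_of_mem ha
  have h1 := le_msum f c S' (fun b hb => h b (Multiset.mem_cons_of_mem hb))
  have h3 := h a ha
  rw [Multiset.map_cons, Multiset.sum_cons, Multiset.card_cons] at hs
  have : (S'.card + 1) * c = S'.card * c + c := by ring
  omega

lemma eq_of_le_msum {α : Type*} (f : α → ℕ) (c : ℕ) (S : Multiset α) (h : ∀ a ∈ S, f a ≤ c)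
    (hs : S.card * c ≤ (S.map f).sum) : ∀ a ∈ S, f a = c := by
  intro a ha
  obtain ⟨S', rfl⟩ := Multiset.exists_cons_of_mem ha
  have h1 := msum_le f c S' (fun b hb => h b (Multiset.mem_cons_of_mem hb))
  have h3 := h a ha
  rw [Multiset.map_cons, Multiset.sum_cons, Multiset.card_cons] at hs
  have : (S'.card + 1) * c = S'.card * c + c := by ring
  omega

lemma card_msum {α : Type*} (S : Multiset (Multiset α)) :
    S.sum.card = (S.map Multiset.card).sum := by
  induction S using Multiset.induction with
  | empty => simp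
  | cons a S ih => rw [Multiset.sum_cons, Multiset.map_cons, Multiset.sum_cons,
      Multiset.card_add, ih]

lemma count_msum {α : Type*} [DecidableEq α] (x : α) (S : Multiset (Multiset α)) :
    S.sum.count x = (S.map (Multiset.count x)).sum := by
  induction S using Multiset.induction with
  | empty => simp
  | cons a S ih => rw [Multiset.sum_cons, Multiset.map_cons, Multiset.sum_cons,
      Multiset.count_add, ih]

section grp
variable {V : Type} [AddCommGroup V] [Fintype V] [DecidableEq V] {p : ℕ} [Fact p.Prime]

lemma pairs_odf (YS : Multiset (Multiset (V × ZMod p))) (hY : ∀ A ∈ YS, Atom A ∧ A.card = 2)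
    (u : ZMod p) : odf (YS.sum.map Prod.snd) u = 0 := by
  induction YS using Multiset.induction with
  | empty => simp [odf]
  | cons A YS ih =>
    obtain ⟨hA, hc⟩ := hY A (Multiset.mem_cons_self _ _)
    obtain ⟨g, rfl⟩ := hA.card_two hc
    rw [Multiset.sum_cons, Multiset.map_add, odf_add,
      ih (fun B hB => hY B (Multiset.mem_cons_of_mem hB)), add_zero]
    have e : ({g, -g} : Multiset (V × ZMod p)).map Prod.snd = {g.2} + {-g.2} := rfl
    rw [e, odf_add]
    unfold odf
    simp only [Multiset.count_singleton]
    have e1 : (-u = g.2) ↔ (u = -g.2) := neg_eq_iff_eq_neg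
    have e2 : (-u = -g.2) ↔ (u = g.2) := neg_inj
    simp only [e1, e2]
    ring

lemma pairs_count (h2 : ∀ x : V, x + x = 0) (YS : Multiset (Multiset (V × ZMod p)))
    (hY : ∀ A ∈ YS, Atom A ∧ A.card = 2)
    (x : V × ZMod p) (hx : x.2 = 0) : Even (YS.sum.count x) := by
  have hxx : -x = x := by
    rw [neg_eq_iff_add_eq_zero]
    refine Prod.ext (h2 _) ?_
    show x.2 + x.2 = 0
    rw [hx, add_zero]
  induction YS using Multiset.induction with
  | empty => simp
  | cons A YS ih =>
    obtain ⟨hA, hc⟩ := hY A (Multiset.mem_cons_self _ _)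
    obtain ⟨g, rfl⟩ := hA.card_two hc
    rw [Multiset.sum_cons, Multiset.count_add]
    apply Even.add _ (ih (fun B hB => hY B (Multiset.mem_cons_of_mem hB)))
    have e : ({g, -g} : Multiset (V × ZMod p)) = {g} + {-g} := rfl
    rw [e, Multiset.count_add, Multiset.count_singleton, Multiset.count_singleton]
    have e1 : (x = -g) ↔ (x = g) := by
      constructor
      · intro h; rw [← hxx, h, neg_neg]
      · intro h; rw [← h, hxx]
    simp only [e1]
    exact ⟨_, rfl⟩

/-- The counting contradiction. -/
theorem no_factorization (hp : 4000 < p) (h2 : ∀ x : V, x + x = 0) (hV : Fintype.card V = 32)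
    (k : ℕ) (XS YS : Multiset (Multiset (V × ZMod p))) (hX : ∀ A ∈ XS, Atom A)
    (hY : ∀ A ∈ YS, Atom A) (cX : XS.card = 2 * k + 1)
    (cY : YS.card = k * (2 * p + 5) + (p + 2)) (h : XS.sum = YS.sum) : False := by
  classical
  have hp2 : 2 < p := by omega
  have h20 := two_ne (p := p) hp2
  set M := XS.sum with hM
  -- sizes of atoms
  have hsize : ∀ A ∈ XS, A.card ≤ 2 * p + 5 := by
    intro A hA
    by_contra hcon
    have := (structure_theorem hp h2 hV (hX A hA) (by omega)).1
    omega
  have hup : ∀ A ∈ XS, A.card + (2 * p + 4) * A.count 0 ≤ 2 * p + 5 := by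
    intro A hA
    by_cases h0 : (0 : V × ZMod p) ∈ A
    · rw [(hX A hA).eq_zero_singleton h0]
      simp
      omega
    · rw [Multiset.count_eq_zero_of_notMem h0]
      have := hsize A hA
      omega
  have hlo : ∀ A ∈ YS, 2 ≤ A.card + A.count 0 := by
    intro A hA
    have hpos := (hY A hA).card_pos
    by_cases h1 : A.card = 1
    · rw [(hY A hA).card_one h1]; simp
    · omega
  have hs1 := msum_le (fun A : Multiset (V × ZMod p) => A.card + (2 * p + 4) * A.count 0)
    (2 * p + 5) XS hup
  have hs2 := le_msum (fun A : Multiset (V × ZMod p) => A.card + A.count 0) 2 YS hlo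
  rw [Multiset.sum_map_add, Multiset.sum_map_mul_left] at hs1
  rw [Multiset.sum_map_add] at hs2
  have cM1 : (XS.map (fun A => A.card)).sum = M.card := (card_msum XS).symm
  have cM2 : (YS.map (fun A => A.card)).sum = M.card := by rw [h]; exact (card_msum YS).symm
  have zM1 : (XS.map (fun A => A.count 0)).sum = M.count 0 := (count_msum 0 XS).symm
  have zM2 : (YS.map (fun A => A.count 0)).sum = M.count 0 := by rw [h]; exact (count_msum 0 YS).symm
  rw [cM1, zM1, cX] at hs1
  rw [cM2, zM2, cY] at hs2
  set K := k * (2 * p + 5) with hK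
  have e1 : (2 * k + 1) * (2 * p + 5) = 2 * K + (2 * p + 5) := by rw [hK]; ring
  rw [e1] at hs1
  have hz : M.count 0 = 0 := by
    by_contra hne
    have h1 : 1 ≤ M.count 0 := Nat.one_le_iff_ne_zero.mpr hne
    have h3 : (2 * p + 3) * 1 ≤ (2 * p + 3) * M.count 0 := Nat.mul_le_mul_left _ h1
    have h4 : (2 * p + 4) * M.count 0 = (2 * p + 3) * M.count 0 + M.count 0 := by ring
    omega
  have hYz : ∀ A ∈ YS, 2 ≤ A.card := by
    intro A hA
    have h1 := hlo A hA
    have h3 : A.count 0 ≤ M.count 0 := by
      rw [h]
      obtain ⟨YS', rfl⟩ := Multiset.exists_cons_of_mem hA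
      rw [Multiset.sum_cons, Multiset.count_add]
      exact Nat.le_add_right _ _
    omega
  by_cases hall : ∀ A ∈ XS, A.card = 2 * p + 5
  · -- all atoms on the left are long
    have hcM : M.card = 2 * K + (2 * p + 5) := by
      rw [← cM1, ← e1, ← cX]
      apply le_antisymm
      · exact msum_le _ _ XS (fun A hA => (hall A hA).le)
      · exact le_msum _ _ XS (fun A hA => (hall A hA).ge)
    have hex : ∃ Y0 ∈ YS, Y0.card ≠ 2 := by
      by_contra hcon
      push Not at hcon
      have := msum_le (fun A : Multiset (V × ZMod p) => A.card) 2 YS (fun A hA => (hcon A hA).le)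
      rw [cM2, cY] at this
      omega
    obtain ⟨Y0, hY0, hY02⟩ := hex
    have hY03 := hYz Y0 hY0
    obtain ⟨YS', rfl⟩ := Multiset.exists_cons_of_mem hY0
    have hl := le_msum (fun A : Multiset (V × ZMod p) => A.card) 2 YS'
      (fun A hA => hYz A (Multiset.mem_cons_of_mem hA))
    rw [Multiset.map_cons, Multiset.sum_cons] at cM2
    rw [Multiset.card_cons] at cY
    have hY3 : Y0.card = 3 := by omega
    have hY2 := eq_of_msum_le (fun A : Multiset (V × ZMod p) => A.card) 2 YS'
      (fun A hA => hYz A (Multiset.mem_cons_of_mem hA)) (by omega)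
    obtain ⟨W, hW, hW0, hWs⟩ := types hp h2 hV XS (fun A hA => ⟨hX A hA, hall A hA⟩)
    have hodf : ∀ u, |((2 * p - 3 : ℕ) : ℤ) * odf W u + 6 * odf W (u + u)| ≤ 3 := by
      intro u
      rw [← odf_types hp2, ← hWs, ← hM, h, Multiset.sum_cons, Multiset.map_add, odf_add,
        pairs_odf YS' (fun A hA => ⟨hY A (Multiset.mem_cons_of_mem hA), hY2 A hA⟩), add_zero]
      have := odf_abs_le hp2 (Y0.map Prod.snd) (u + u)
      rwa [Multiset.card_map, hY3] at this
    obtain ⟨u0, hu0, hb⟩ := max_odf hp2 W 3 hodf
    have hm0 : |odf W u0| = 0 := by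
      have h1 : 0 ≤ |odf W u0| := abs_nonneg _
      by_contra hne
      have : 1 ≤ |odf W u0| := by omega
      nlinarith
    have hev := even_card hp2 W hW0 (by
      intro u
      have h1 := hu0 u
      rw [hm0] at h1
      have h3 := abs_nonpos_iff.mp h1
      unfold odf at h3
      omega)
    rw [hW, cX] at hev
    exact (Nat.not_even_iff_odd.mpr ⟨k, rfl⟩) hev
  · push Not at hall
    obtain ⟨X0, hX0, hX0c⟩ := hall
    have hX0le := hsize X0 hX0
    obtain ⟨XS', hXS⟩ := Multiset.exists_cons_of_mem hX0
    have hu := msum_le (fun A : Multiset (V × ZMod p) => A.card) (2 * p + 5) XS'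
      (fun A hA => hsize A (by rw [hXS]; exact Multiset.mem_cons_of_mem hA))
    have hl := le_msum (fun A : Multiset (V × ZMod p) => A.card) 2 YS hYz
    rw [hXS, Multiset.card_cons] at cX
    have cX' : XS'.card = 2 * k := by omega
    rw [hXS, Multiset.map_cons, Multiset.sum_cons] at cM1
    rw [cX'] at hu
    have e3 : 2 * k * (2 * p + 5) = 2 * K := by rw [hK]; ring
    rw [e3] at hu
    rw [cM2, cY] at hl
    have hX0card : X0.card = 2 * p + 4 := by omega
    have hXl := eq_of_le_msum (fun A : Multiset (V × ZMod p) => A.card) (2 * p + 5) XS'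
      (fun A hA => hsize A (by rw [hXS]; exact Multiset.mem_cons_of_mem hA))
      (by rw [cX', e3]; omega)
    have hYl := eq_of_msum_le (fun A : Multiset (V × ZMod p) => A.card) 2 YS hYz
      (by rw [cM2, cY]; omega)
    have hXa : Atom X0 := hX X0 hX0
    obtain ⟨W, hW, hW0, hWs⟩ := types hp h2 hV XS' (fun A hA =>
      ⟨hX A (by rw [hXS]; exact Multiset.mem_cons_of_mem hA), hXl A hA⟩)
    have hMX : M = X0 + XS'.sum := by rw [hM, hXS, Multiset.sum_cons]
    have hrel : ∀ u, odf (X0.map Prod.snd) (u + u) +
        (((2 * p - 3 : ℕ) : ℤ) * odf W u + 6 * odf W (u + u)) = 0 := by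
      intro u
      rw [← odf_types hp2, ← hWs, ← odf_add, ← Multiset.map_add, ← hMX, h]
      exact pairs_odf YS (fun A hA => ⟨hY A hA, hYl A hA⟩) (u + u)
    have hodf : ∀ u, |((2 * p - 3 : ℕ) : ℤ) * odf W u + 6 * odf W (u + u)| ≤ (2 * p + 4 : ℤ) := by
      intro u
      have h1 := hrel u
      have h3 : ((2 * p - 3 : ℕ) : ℤ) * odf W u + 6 * odf W (u + u) =
          - odf (X0.map Prod.snd) (u + u) := by linarith
      rw [h3, abs_neg]
      have := odf_abs_le hp2 (X0.map Prod.snd) (u + u)
      rw [Multiset.card_map, hX0card] at this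
      push_cast at this
      exact this
    obtain ⟨u0, hu0, hb⟩ := max_odf hp2 W _ hodf
    have hm1 : |odf W u0| ≤ 1 := by
      by_contra hne
      have : 2 ≤ |odf W u0| := by omega
      nlinarith
    have hcast : ((2 * p - 3 : ℕ) : ℤ) = 2 * (p : ℤ) - 3 := by
      rw [Nat.cast_sub (by omega)]; push_cast; ring
    by_cases hm : |odf W u0| = 1
    · -- two large classes
      exfalso
      have hu00 : u0 ≠ 0 := by
        rintro rfl
        rw [odf_zero] at hm; simp at hm
      have hex : ∃ u1, u1 ≠ u0 ∧ u1 ≠ -u0 ∧ W.count u1 ≠ W.count (-u1) := by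
        by_contra hcon
        push Not at hcon
        have := parity_card hp2 W hW0 hu00 hcon
        rw [hW, cX'] at this
        unfold odf at hm
        rcases (abs_eq (by norm_num : (0 : ℤ) ≤ 1)).mp hm with h1 | h1 <;> omega
      obtain ⟨u1, hu10, hu1n, hu1c⟩ := hex
      have hm1' : |odf W u1| = 1 := by
        have h1 := hu0 u1
        rw [hm] at h1
        have h3 : odf W u1 ≠ 0 := by unfold odf; omega
        have h4 : 0 < |odf W u1| := abs_pos.mpr h3
        omega
      have hbig : ∀ u, |odf W u| = 1 → 2 * (p : ℤ) - 9 ≤ |odf (X0.map Prod.snd) (u + u)| := by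
        intro u hu'
        have h1 := hrel u
        rw [hcast] at h1
        have h3 : |odf W (u + u)| ≤ 1 := (hu0 _).trans hm1
        rw [abs_le] at h3
        rcases (abs_eq (by norm_num : (0 : ℤ) ≤ 1)).mp hu' with h4 | h4
        · rw [h4] at h1
          rw [le_abs]; right; linarith
        · rw [h4] at h1
          rw [le_abs]; left; linarith
      have b0 := hbig u0 hm
      have b1 := hbig u1 hm1'
      have hdbl : ∀ x y : ZMod p, x + x = y + y → x = y := by
        intro x y hxy
        have : 2 * (x - y) = 0 := by linear_combination hxy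
        exact sub_eq_zero.mp ((mul_eq_zero.mp this).resolve_left h20)
      have hu10' : u1 ≠ 0 := by
        rintro rfl
        rw [odf_zero] at hm1'; simp at hm1'
      have n0 : u0 + u0 ≠ -(u0 + u0) := by
        apply Ne.symm
        apply neg_ne_self hp2
        intro h0; exact hu00 (hdbl u0 0 (by rw [h0, add_zero]))
      have n1 : u1 + u1 ≠ -(u1 + u1) := by
        apply Ne.symm
        apply neg_ne_self hp2
        intro h0; exact hu10' (hdbl u1 0 (by rw [h0, add_zero]))
      have n2 : u0 + u0 ≠ u1 + u1 := fun h0 => hu10 (hdbl _ _ h0).symm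
      have n3 : u0 + u0 ≠ -(u1 + u1) := by
        intro h0
        have h3 : u0 + u0 = -u1 + -u1 := by rw [h0]; ring
        exact hu1n (by rw [hdbl _ _ h3, neg_neg])
      have n4 : -(u0 + u0) ≠ u1 + u1 := by
        intro h0
        exact n3 (by rw [← h0, neg_neg])
      have n5 : -(u0 + u0) ≠ -(u1 + u1) := fun h0 => n2 (neg_injective h0)
      have hsum := sum_count_le (X0.map Prod.snd) {u0 + u0, -(u0 + u0), u1 + u1, -(u1 + u1)}
      rw [Finset.sum_insert (by simp only [Finset.mem_insert, Finset.mem_singleton, not_or]; exact ⟨n0, n2, n3⟩),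
        Finset.sum_insert (by simp only [Finset.mem_insert, Finset.mem_singleton, not_or]; exact ⟨n4, n5⟩),
        Finset.sum_pair n1, Multiset.card_map, hX0card] at hsum
      unfold odf at b0 b1
      rw [le_abs] at b0 b1
      rcases b0 with b0 | b0 <;> rcases b1 with b1 | b1 <;> omega
    · have hm0 : |odf W u0| = 0 := by
        have h1 : 0 ≤ |odf W u0| := abs_nonneg _
        omega
      have hall0 : ∀ u, odf W u = 0 := by
        intro u
        have h1 := hu0 u
        rw [hm0] at h1
        exact abs_nonpos_iff.mp h1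
      have hbal : ∀ u, odf (X0.map Prod.snd) u = 0 := by
        intro u
        have h1 := hrel (u / 2)
        rw [hall0, hall0] at h1
        have h3 : u / 2 + u / 2 = u := by field_simp; ring
        rw [h3] at h1
        simpa using h1
      have hnz : ∀ g ∈ X0, g.2 ≠ 0 := by
        intro g hg hg0
        have hev := pairs_count h2 YS (fun A hA => ⟨hY A hA, hYl A hA⟩) g hg0
        rw [← h, hMX, Multiset.count_add] at hev
        have hg' : g ∉ XS'.sum := by
          intro h0
          have h1 : g.2 ∈ XS'.sum.map Prod.snd := Multiset.mem_map_of_mem _ h0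
          rw [hWs, hg0] at h1
          exact types_zero hp2 W hW0 h1
        rw [Multiset.count_eq_zero_of_notMem hg', add_zero] at hev
        have hpos : 0 < X0.count g := Multiset.count_pos.mpr hg
        have h22 : 2 ≤ X0.count g := by
          obtain ⟨t, ht⟩ := hev; omega
        have hle : Multiset.replicate 2 g ≤ X0 := Multiset.le_count_iff_replicate_le.mp h22
        have := hXa.2.2 _ hle (by
          intro h0
          have := congrArg Multiset.card h0
          simp at this) (by
          rw [Multiset.sum_replicate, two_nsmul]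
          refine Prod.ext (h2 _) ?_
          show g.2 + g.2 = 0
          rw [hg0, add_zero])
        have := congrArg Multiset.card this
        rw [Multiset.card_replicate] at this
        omega
      exact balanced_false hp h2 hV hXa (by omega) hnz hbal

end grp

end Pool.Agent.Rho
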