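import Mathlib

/-!
Elementary Fourier analysis on `Fin n → ZMod 2` with integer valued functions.
-/

set_option autoImplicit false

namespace Pool.Agent.BB931D

/-- The vector space of bit vectors of length `n`. -/
abbrev V (n : ℕ) := Fin n → ZMod 2

/-- The bilinear form. -/
def dot {n : ℕ} (c y : V n) : ZMod 2 := ∑ i, c i * y i

/-- The sign of an element of `ZMod 2`. -/
def sg (a : ZMod 2) : ℤ := if a = 0 then 1 else -1

/-- The characters. -/
def chi {n : ℕ} (c y : V n) : ℤ := sg (dot c y)

lemma sg_add (a b : ZMod 2) : sg (a + b) = sg a * sg b := by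
  revert a b; decide

lemma sg_zero : sg 0 = 1 := rfl

lemma sg_sq (a : ZMod 2) : sg a * sg a = 1 := by
  revert a; decide

lemma sg_cases (a : ZMod 2) : sg a = 1 ∨ sg a = -1 := by
  revert a; decide

lemma sg_eq_one_iff (a : ZMod 2) : sg a = 1 ↔ a = 0 := by
  revert a; decide

variable {n : ℕ}

lemma dot_comm (c y : V n) : dot c y = dot y c := by
  unfold dot; exact Finset.sum_congr rfl fun i _ => mul_comm _ _

lemma dot_add_right (c y z : V n) : dot c (y + z) = dot c y + dot c z := by
  unfold dot; rw [← Finset.sum_add_distrib]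
  exact Finset.sum_congr rfl fun i _ => by rw [Pi.add_apply, mul_add]

lemma dot_zero_right (c : V n) : dot c 0 = 0 := by
  unfold dot; simp

lemma chi_comm (c y : V n) : chi c y = chi y c := by
  unfold chi; rw [dot_comm]

lemma chi_add_right (c y z : V n) : chi c (y + z) = chi c y * chi c z := by
  unfold chi; rw [dot_add_right, sg_add]

lemma chi_add_left (c d y : V n) : chi (c + d) y = chi c y * chi d y := by
  rw [chi_comm, chi_add_right, chi_comm y c, chi_comm y d]

lemma chi_zero_right (c : V n) : chi c 0 = 1 := by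
  unfold chi; rw [dot_zero_right, sg_zero]

lemma chi_zero_left (c : V n) : chi 0 c = 1 := by
  rw [chi_comm, chi_zero_right]

lemma chi_sq (c y : V n) : chi c y * chi c y = 1 := sg_sq _

lemma chi_cases (c y : V n) : chi c y = 1 ∨ chi c y = -1 := sg_cases _

lemma add_self (y : V n) : y + y = 0 := by
  funext i; exact CharTwo.add_self_eq_zero (y i)

lemma add_add_self (y z : V n) : y + z + z = y := by
  rw [add_assoc, add_self, add_zero]

lemma add_self_add (y z : V n) : y + (y + z) = z := by
  rw [← add_assoc, add_self, zero_add]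

lemma add_eq_zero_iff' (y z : V n) : y + z = 0 ↔ y = z := by
  constructor
  · intro h
    have := congrArg (· + z) h
    simpa [add_add_self] using this
  · rintro rfl; exact add_self y

/-- a nonzero vector is detected by a character -/
lemma exists_chi_neg {z : V n} (hz : z ≠ 0) : ∃ c : V n, chi c z = -1 := by
  obtain ⟨i, hi⟩ := Function.ne_iff.1 hz
  refine ⟨Pi.single i 1, ?_⟩
  have : dot (Pi.single i 1) z = z i := by
    unfold dot
    rw [Finset.sum_eq_single i]
    · simp
    · intro j _ hj; simp [Pi.single_eq_of_ne hj]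
    · intro h; exact absurd (Finset.mem_univ i) h
  unfold chi; rw [this]
  rcases sg_cases (z i) with h | h
  · exact absurd ((sg_eq_one_iff _).1 h) hi
  · exact h

/-- translation of a sum -/
lemma sum_translate {M : Type*} [AddCommMonoid M] (g : V n → M) (z : V n) :
    ∑ y, g (y + z) = ∑ y, g y :=
  Fintype.sum_equiv (Equiv.addRight z) _ _ (fun _ => rfl)

lemma sum_chi_ne {z : V n} (hz : z ≠ 0) : ∑ c, chi c z = 0 := by
  obtain ⟨c0, hc0⟩ := exists_chi_neg hz
  have h1 : ∑ c, chi (c + c0) z = ∑ c, chi c z := sum_translate (fun c => chi c z) c0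
  have h2 : ∑ c, chi (c + c0) z = - ∑ c, chi c z := by
    rw [← Finset.sum_neg_distrib]
    refine Finset.sum_congr rfl fun c _ => ?_
    rw [chi_add_left, hc0]; ring
  linarith

lemma card_V : Fintype.card (V n) = 2 ^ n := by
  rw [Fintype.card_fun]; simp [ZMod.card]

lemma sum_chi (z : V n) : ∑ c, chi c z = if z = 0 then 2 ^ n else 0 := by
  split_ifs with h
  · subst h
    simp only [chi_zero_right, Finset.sum_const, Finset.card_univ, card_V]
    simp
  · exact sum_chi_ne h

/-- The Fourier transform. -/
def hat (g : V n → ℤ) (c : V n) : ℤ := ∑ y, g y * chi c y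

/-- Correlation. -/
def corr (g h : V n → ℤ) (z : V n) : ℤ := ∑ y, g y * h (y + z)

lemma hat_inversion (g : V n → ℤ) (z : V n) :
    ∑ c, hat g c * chi c z = 2 ^ n * g z := by
  unfold hat
  have : ∀ c, (∑ y, g y * chi c y) * chi c z = ∑ y, g y * chi c (y + z) := by
    intro c
    rw [Finset.sum_mul]
    exact Finset.sum_congr rfl fun y _ => by rw [chi_add_right]; ring
  simp_rw [this]
  rw [Finset.sum_comm]
  have h2 : ∀ y, ∑ c, g y * chi c (y + z) = if y = z then 2 ^ n * g z else 0 := by
    intro y
    rw [← Finset.mul_sum, sum_chi]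
    by_cases h : y = z
    · subst h; rw [if_pos (add_self y), if_pos rfl]; ring
    · rw [if_neg (fun h' => h ((add_eq_zero_iff' _ _).1 h')), if_neg h]; ring
  simp_rw [h2]
  simp

lemma hat_corr (g h : V n → ℤ) (c : V n) :
    hat (corr g h) c = hat g c * hat h c := by
  unfold hat corr
  have h1 : ∀ y, ∑ z, g y * h (y + z) * chi c z = g y * chi c y * ∑ x, h x * chi c x := by
    intro y
    have : ∑ x, h x * chi c x = ∑ z, h (z + y) * chi c (z + y) :=
      (sum_translate (fun x => h x * chi c x) y).symm
    rw [this, Finset.mul_sum]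
    refine Finset.sum_congr rfl fun z _ => ?_
    rw [chi_add_right, add_comm z y]
    linear_combination (-(g y * h (y + z) * chi c z)) * chi_sq c y
  rw [Finset.sum_mul]
  simp_rw [Finset.sum_mul]
  rw [Finset.sum_comm]
  exact Finset.sum_congr rfl fun y _ => h1 y

lemma sum_hat_mul (g h : V n → ℤ) (z : V n) :
    ∑ c, hat g c * hat h c * chi c z = 2 ^ n * corr g h z := by
  rw [← hat_inversion]
  exact Finset.sum_congr rfl fun c _ => by rw [hat_corr]

lemma hat_zero (g : V n → ℤ) : hat g 0 = ∑ y, g y := by
  unfold hat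
  exact Finset.sum_congr rfl fun y _ => by rw [chi_zero_left, mul_one]

lemma sum_corr (g h : V n → ℤ) : ∑ z, corr g h z = (∑ y, g y) * ∑ y, h y := by
  have := hat_corr g h 0
  rwa [hat_zero, hat_zero, hat_zero] at this

lemma corr_zero (g h : V n → ℤ) : corr g h 0 = ∑ y, g y * h y := by
  unfold corr; simp

/-- pairing lemma: sum over `V` as a sum over a half space. -/
lemma sum_pair {M : Type*} [AddCommMonoid M] (g : V n → M) {c z : V n} (hcz : chi c z = -1) :
    ∑ h, g h = ∑ h, if chi c h = 1 then g h + g (h + z) else 0 := by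
  classical
  have h1 : ∑ h, g h = (∑ h, if chi c h = 1 then g h else 0)
      + ∑ h, if chi c h = 1 then 0 else g h := by
    rw [← Finset.sum_add_distrib]
    refine Finset.sum_congr rfl fun h _ => ?_
    split_ifs <;> simp
  have h2 : (∑ h, if chi c h = 1 then 0 else g h) = ∑ h, if chi c h = 1 then g (h + z) else 0 := by
    rw [← sum_translate _ z]
    refine Finset.sum_congr rfl fun h _ => ?_
    rw [chi_add_right, hcz]
    rcases chi_cases c h with h' | h' <;> rw [h'] <;> simp
  rw [h1, h2, ← Finset.sum_add_distrib]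
  refine Finset.sum_congr rfl fun h _ => ?_
  split_ifs <;> simp

end Pool.Agent.BB931D
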