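import Pool.Agent.Lib_MP_bb931d_co.Corr

/-!
The key bound `3 N(z) - R(z) ≤ 20`.
-/

set_option autoImplicit false

namespace Pool.Agent.BB931D

open Finset

/-- residue mod 3 in `{-1,0,1}` -/
def resid (x : ℤ) : ℤ := (x + 1) % 3 - 1

lemma resid_cases (x : ℤ) : resid x = 0 ∨ resid x = 1 ∨ resid x = -1 := by
  unfold resid; omega

lemma resid_dvd (x : ℤ) : (3 : ℤ) ∣ resid x - x := by
  unfold resid; omega

lemma resid_of_small {x : ℤ} (h : x = 0 ∨ x = 1 ∨ x = -1) : resid x = x := by
  unfold resid; omega

variable {n : ℕ}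

lemma card_half {c : V n} (hc : c ≠ 0) :
    2 * ((univ.filter fun w : V n => chi c w = 1).card : ℤ) = 2 ^ n := by
  have h1 : ∑ w : V n, chi c w = 0 := by
    have := sum_chi_ne hc
    rw [← this]; exact Finset.sum_congr rfl fun w _ => chi_comm _ _
  have h2 : ∑ w : V n, (1 + chi c w) = 2 ^ n := by
    rw [Finset.sum_add_distrib, h1, Finset.sum_const, Finset.card_univ, card_V]; simp
  rw [← h2, Finset.card_filter]
  push_cast
  rw [Finset.mul_sum]
  refine Finset.sum_congr rfl fun w _ => ?_
  rcases chi_cases c w with h | h <;> rw [h] <;> norm_num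

theorem three_N_sub_R_le {μ : V 7 → ℤ} (hμ : IsSign μ) (h20 : ∑ y, μ y * μ y = 20)
    (hR : ∀ z : V 7, z ≠ 0 → (3 : ℤ) ∣ corr μ μ z - 1) {z : V 7} (hz : z ≠ 0) :
    3 * corr (sq μ) (sq μ) z - corr μ μ z ≤ 20 := by
  classical
  obtain ⟨c, hc⟩ := exists_chi_neg hz
  have hc0 : c ≠ 0 := by
    rintro rfl
    rw [chi_zero_left] at hc
    norm_num at hc
  set ν : V 7 → ℤ := fun h => if chi c h = 1 then resid (μ h + μ (h + z)) else 0 with hνdef
  have hν : IsSign ν := by
    intro h
    simp only [hνdef]
    split_ifs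
    · exact resid_cases _
    · left; rfl
  set B : Finset (V 7) := univ.filter (fun w => chi c w = 1) \ {0} with hBdef
  have hB : B.card = 63 := by
    have h1 := card_half hc0
    have h2 : (univ.filter fun w : V 7 => chi c w = 1).card = 64 := by
      norm_num at h1; omega
    rw [hBdef, Finset.card_sdiff_of_subset, h2]
    · simp
    · intro w hw
      rw [Finset.mem_singleton] at hw
      subst hw
      simp [chi_zero_right]
  have h0 : (0 : V 7) ∉ B := by simp [hBdef]
  have hBmem : ∀ w, w ∈ B → chi c w = 1 ∧ w ≠ 0 := by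
    intro w hw
    simpa [hBdef] using hw
  have hRν : ∀ w ∈ B, (3 : ℤ) ∣ corr ν ν w - 2 := by
    intro w hw
    obtain ⟨hw1, hw0⟩ := hBmem w hw
    have hwz : w + z ≠ 0 := by
      intro h
      rw [add_eq_zero_iff'] at h
      rw [h, hc] at hw1; norm_num at hw1
    have hsum : corr μ μ w + corr μ μ (w + z)
        = ∑ h, if chi c h = 1 then
            (μ h + μ (h + z)) * (μ (h + w) + μ (h + w + z)) else 0 := by
      have e1 : corr μ μ w + corr μ μ (w + z) = ∑ h, μ h * (μ (h + w) + μ (h + w + z)) := by
        unfold corr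
        rw [← Finset.sum_add_distrib]
        refine Finset.sum_congr rfl fun h _ => ?_
        rw [← add_assoc]; ring
      rw [e1, sum_pair _ hc]
      refine Finset.sum_congr rfl fun h _ => ?_
      split_ifs with hh
      · have e2 : h + z + w = h + w + z := by rw [add_right_comm]
        rw [e2, add_add_self]; ring
      · rfl
    have hdiff : (3 : ℤ) ∣ corr ν ν w - (corr μ μ w + corr μ μ (w + z)) := by
      rw [hsum]
      unfold corr
      rw [← Finset.sum_sub_distrib]
      refine Finset.dvd_sum fun h _ => ?_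
      simp only [hνdef]
      by_cases hh : chi c h = 1
      · have hh' : chi c (h + w) = 1 := by rw [chi_add_right, hh, hw1]; norm_num
        rw [if_pos hh, if_pos hh', if_pos hh]
        obtain ⟨p, hp⟩ := resid_dvd (μ h + μ (h + z))
        obtain ⟨q, hq⟩ := resid_dvd (μ (h + w) + μ (h + w + z))
        have hp' : resid (μ h + μ (h + z)) = (μ h + μ (h + z)) + 3 * p := by linarith
        have hq' : resid (μ (h + w) + μ (h + w + z)) = (μ (h + w) + μ (h + w + z)) + 3 * q := by
          linarith
        rw [hp', hq']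
        exact ⟨p * (μ (h + w) + μ (h + w + z)) + q * (μ h + μ (h + z)) + 3 * p * q, by ring⟩
      · rw [if_neg hh, if_neg hh]; simp
    have a1 := hR w hw0
    have a2 := hR (w + z) hwz
    omega
  have hout : ∀ w, w ∉ B → w ≠ 0 → corr (sq ν) (sq ν) w = 0 := by
    intro w hw hw0
    have hw1 : chi c w = -1 := by
      rcases chi_cases c w with h | h
      · exfalso; apply hw; simp [hBdef, h, hw0]
      · exact h
    unfold corr
    refine Finset.sum_eq_zero fun h _ => ?_
    simp only [sq, hνdef]
    rcases chi_cases c h with hh | hh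
    · have : chi c (h + w) ≠ 1 := by rw [chi_add_right, hh, hw1]; norm_num
      rw [if_neg this]; ring
    · have : chi c h ≠ 1 := by rw [hh]; norm_num
      rw [if_neg this]; ring
  have h13 := thirteen_le hν B hB h0 hRν hout
  have h4 : 4 * ∑ y, ν y * ν y = 80 - 3 * corr (sq μ) (sq μ) z + corr μ μ z := by
    have e1 : (80 : ℤ) - 3 * corr (sq μ) (sq μ) z + corr μ μ z
        = ∑ y, (4 * (μ y * μ y) - 3 * (μ y * μ y * (μ (y + z) * μ (y + z))) + μ y * μ (y + z)) := by
      rw [Finset.sum_add_distrib, Finset.sum_sub_distrib, ← Finset.mul_sum, ← Finset.mul_sum, h20]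
      rfl
    rw [e1, Finset.mul_sum]
    refine Eq.trans ?_ (sum_pair _ hc).symm
    refine Finset.sum_congr rfl fun h _ => ?_
    simp only [hνdef]
    split_ifs with hh
    · rw [add_add_self]
      rcases hμ h with h1 | h1 | h1 <;> rcases hμ (h + z) with h2 | h2 | h2 <;> rw [h1, h2] <;>
        norm_num [resid]
    · norm_num
  have a1 := hR z hz
  omega

end Pool.Agent.BB931D
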