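import Pool.Agent.Lib_MP_bb931d_co.Cfg

set_option autoImplicit false
set_option linter.unusedSectionVars false
set_option linter.unusedSimpArgs false
set_option linter.unusedTactic false
set_option linter.unnecessarySimpa false

namespace Pool.Agent.Rho

open Finset

/-- The sum of all elements of a finite elementary abelian 2-group of order divisible by 4. -/
lemma sum_univ_zero {Q : Type*} [AddCommGroup Q] [Fintype Q] (h2 : ∀ x : Q, x + x = 0)
    (h4 : 4 ∣ Fintype.card Q) : ∑ x : Q, x = 0 := by
  classical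
  let _ : Module (ZMod 2) Q := AddCommGroup.zmodModule (n := 2) (fun x => by rw [two_nsmul]; exact h2 x)
  set n := Module.finrank (ZMod 2) Q with hn
  have hcard : Fintype.card Q = 2 ^ n := by
    have := Module.card_eq_pow_finrank (K := ZMod 2) (V := Q)
    simpa using this
  have hn2 : 2 ≤ n := by
    by_contra hlt
    have : n = 0 ∨ n = 1 := by omega
    rcases this with h | h <;> rw [hcard, h] at h4 <;> norm_num at h4
  let B := Module.finBasis (ZMod 2) Q
  let φ := B.equivFun
  apply φ.injective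
  rw [map_sum, map_zero]
  have e1 : ∑ x : Q, φ x = ∑ y : (Fin n → ZMod 2), y :=
    Fintype.sum_equiv φ.toEquiv _ _ (fun x => rfl)
  rw [e1]
  funext i
  rw [Finset.sum_apply, Pi.zero_apply]
  obtain ⟨j, hj⟩ : ∃ j : Fin n, j ≠ i := by
    by_contra hcon
    push Not at hcon
    have h0 := hcon ⟨0, by omega⟩
    have h1 := hcon ⟨1, by omega⟩
    rw [← h1] at h0
    simp at h0
  refine Finset.sum_involution (fun y _ => Function.update y j (y j + 1)) ?_ ?_ ?_ ?_
  · intro y _
    rw [Function.update_of_ne hj.symm]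
    exact CharTwo.add_self_eq_zero _
  · intro y _ _ hy
    have := congrFun hy j
    rw [Function.update_self] at this
    have h3 : (1 : ZMod 2) = 0 := by
      have := congrArg (fun t => t - y j) this
      simpa using this
    exact one_ne_zero h3
  · intro y _; exact Finset.mem_univ _
  · intro y _
    funext k
    by_cases hk : k = j
    · subst hk
      simp only [Function.update_self]
      rw [add_assoc, CharTwo.add_self_eq_zero, add_zero]
    · simp [Function.update_of_ne hk]

section
variable {ι V : Type*} [DecidableEq ι] [AddCommGroup V] {e : V} {v : ι → V} {R : Finset ι}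

/-- The four element subgroup `{0, e, w, e + w}`. -/
def four (h2 : ∀ x : V, x + x = 0) (e w : V) : AddSubgroup V where
  carrier := {x | x = 0 ∨ x = e ∨ x = w ∨ x = e + w}
  zero_mem' := Or.inl rfl
  add_mem' := by
    rintro a b ha hb
    have k1 : ∀ x y : V, x + y + y = x := fun x y => by rw [add_assoc, h2, add_zero]
    have k2 : ∀ x y : V, x + (x + y) = y := fun x y => by rw [← add_assoc, h2, zero_add]
    have k3 : ∀ x y : V, x + (y + x) = y := fun x y => by rw [add_comm y x, k2]
    have k4 : ∀ x y : V, x + y + x = y := fun x y => by rw [add_comm, k2]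
    rcases ha with rfl | rfl | rfl | rfl <;> rcases hb with rfl | rfl | rfl | rfl
    all_goals first
      | (left; simp [h2]; done)
      | (right; left; simp [h2, k1, k2, k3, k4]; done)
      | (right; right; left; simp [h2, k1, k2, k3, k4]; done)
      | (right; right; right; simp [h2, k1, k2, k3, k4]; done)
      | (right; right; right; exact add_comm _ _)
  neg_mem' := by
    rintro a ha
    have : -a = a := by
      rw [neg_eq_iff_add_eq_zero]; exact h2 a
    rw [this]; exact ha

lemma mem_four {h2 : ∀ x : V, x + x = 0} {e w x : V} :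
    x ∈ four h2 e w ↔ x = 0 ∨ x = e ∨ x = w ∨ x = e + w := Iff.rfl

/-- Every point of a large zero-sum configuration with distinct classes is on two lines. -/
lemma two_lines [Fintype V] (h2 : ∀ x : V, x + x = 0) (he : e ≠ 0)
    (h16 : 16 ∣ Fintype.card V) (hcard : Fintype.card V + 4 ≤ 4 * R.card)
    (hne : ∀ i ∈ R, v i ≠ 0 ∧ v i ≠ e)
    (hd : ∀ i ∈ R, ∀ j ∈ R, i ≠ j → v i + v j ≠ 0 ∧ v i + v j ≠ e)
    (hR : Blk e v R) {i : ι} (hi : i ∈ R) :
    ∃ j ∈ R, ∃ k ∈ R, ∃ j' ∈ R, ∃ k' ∈ R, i ≠ j ∧ i ≠ k ∧ i ≠ j' ∧ i ≠ k' ∧ j ≠ k ∧ j' ≠ k' ∧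
      j ≠ j' ∧ j ≠ k' ∧ k ≠ j' ∧ k ≠ k' ∧
      (v i + v j + v k = 0 ∨ v i + v j + v k = e) ∧
      (v i + v j' + v k' = 0 ∨ v i + v j' + v k' = e) := by
  classical
  have k1 : ∀ x y : V, x + y + y = x := fun x y => by rw [add_assoc, h2, add_zero]
  have hneg : ∀ x : V, -x = x := fun x => by rw [neg_eq_iff_add_eq_zero]; exact h2 x
  set U := four h2 e (v i) with hU
  have hQcard : Fintype.card V = Fintype.card (V ⧸ U) * 4 := by
    have h := AddSubgroup.card_eq_card_quotient_mul_card_addSubgroup U
    rw [Nat.card_eq_fintype_card, Nat.card_eq_fintype_card] at h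
    rw [h]
    congr 1
    have hset : (U : Set V) = (({0, e, v i, e + v i} : Finset V) : Set V) := by
      ext x
      simp [hU, mem_four]
    have h1 : Nat.card ((U : Set V)) = 4 := by
      rw [hset, Nat.card_coe_set_eq, Set.ncard_coe_finset]
      have a1 := hne i hi
      rw [Finset.card_insert_of_notMem, Finset.card_insert_of_notMem,
        Finset.card_insert_of_notMem, Finset.card_singleton]
      · simp only [Finset.mem_singleton]
        intro h; exact he (by simpa using h)
      · simp only [Finset.mem_insert, Finset.mem_singleton, not_or]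
        refine ⟨fun h => a1.2 h.symm, fun h => a1.1 (by simpa using h)⟩
      · simp only [Finset.mem_insert, Finset.mem_singleton, not_or]
        refine ⟨fun h => he h.symm, fun h => a1.1 h.symm, fun h => ?_⟩
        apply a1.2
        have := congrArg (fun t => t + v i) h
        simp only [k1, zero_add] at this
        exact this
    exact h1
  have hQ0 : 0 < Fintype.card (V ⧸ U) := Fintype.card_pos
  set π : V → V ⧸ U := fun x => (x : V ⧸ U) with hπ
  have hπadd : ∀ x y, π (x + y) = π x + π y := fun x y => rfl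
  have hπ0 : ∀ x, π x = 0 ↔ x ∈ U := fun x => QuotientAddGroup.eq_zero_iff x
  have hQ2 : ∀ x : V ⧸ U, x + x = 0 := by
    intro x
    obtain ⟨y, rfl⟩ := QuotientAddGroup.mk_surjective x
    show π y + π y = 0
    rw [← hπadd, h2]; rfl
  -- elements of R.erase i do not vanish
  have hnz : ∀ j ∈ R, i ≠ j → π (v j) ≠ 0 := by
    intro j hj hij h0
    rw [hπ0, hU, mem_four] at h0
    rcases h0 with h0 | h0 | h0 | h0
    · exact (hne j hj).1 h0
    · exact (hne j hj).2 h0
    · exact (hd i hi j hj hij).1 (by rw [h0, h2])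
    · exact (hd i hi j hj hij).2 (by rw [h0, add_comm, k1])
  -- equal images give a line
  have hline : ∀ j ∈ R, ∀ k ∈ R, i ≠ j → i ≠ k → j ≠ k → π (v j) = π (v k) →
      (v i + v j + v k = 0 ∨ v i + v j + v k = e) := by
    intro j hj k hk hij hik hjk hjk'
    have h0 : v j + v k ∈ U := by
      rw [← hπ0, hπadd, hjk', hQ2]
    rw [hU, mem_four] at h0
    have hd' := hd j hj k hk hjk
    rcases h0 with h0 | h0 | h0 | h0
    · exact absurd h0 hd'.1
    · exact absurd h0 hd'.2
    · left; rw [add_assoc, h0, h2]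
    · right; rw [add_assoc, h0, add_comm, k1]
  -- no three with the same image
  have hthree : ∀ j ∈ R, ∀ k ∈ R, ∀ l ∈ R, i ≠ j → i ≠ k → i ≠ l → j ≠ k → j ≠ l → k ≠ l →
      π (v j) = π (v k) → π (v j) = π (v l) → False := by
    intro j hj k hk l hl hij hik hil hjk hjl hkl h1 h3
    have a1 := hline j hj k hk hij hik hjk h1
    have a3 := hline j hj l hl hij hil hjl h3
    have hd' := hd k hk l hl hkl
    have key : v k + v l = (v i + v j + v k) + (v i + v j + v l) := by
      have := h2 (v i + v j)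
      calc v k + v l = 0 + (v k + v l) := by rw [zero_add]
        _ = _ := by rw [← this]; abel
    rcases a1 with a1 | a1 <;> rcases a3 with a3 | a3 <;> rw [a1, a3] at key
    · exact hd'.1 (by simpa using key)
    · exact hd'.2 (by simpa using key)
    · exact hd'.2 (by simpa using key)
    · exact hd'.1 (by rw [key, h2])
  -- first pair
  obtain ⟨j, hj, k, hk, hjk, hjk'⟩ : ∃ j ∈ R.erase i, ∃ k ∈ R.erase i, j ≠ k ∧
      π (v j) = π (v k) := by
    apply Finset.exists_ne_map_eq_of_card_lt_of_maps_to (t := (Finset.univ : Finset (V ⧸ U)).erase 0)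
    · rw [Finset.card_erase_of_mem hi, Finset.card_erase_of_mem (Finset.mem_univ _),
        Finset.card_univ]
      omega
    · intro x hx
      have hx' := Finset.mem_erase.mp (Finset.mem_coe.mp hx)
      rw [Finset.mem_coe, Finset.mem_erase]
      exact ⟨hnz x hx'.2 (Ne.symm hx'.1), Finset.mem_univ _⟩
  rw [Finset.mem_erase] at hj hk
  have hij : i ≠ j := hj.1.symm
  have hik : i ≠ k := hk.1.symm
  have hl1 := hline j hj.2 k hk.2 hij hik hjk hjk'
  set R1 := ((R.erase i).erase j).erase k with hR1
  have hR1card : R1.card = R.card - 3 := by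
    rw [hR1, Finset.card_erase_of_mem, Finset.card_erase_of_mem, Finset.card_erase_of_mem hi]
    · omega
    · rw [Finset.mem_erase]; exact ⟨hj.1, hj.2⟩
    · rw [Finset.mem_erase, Finset.mem_erase]; exact ⟨hjk.symm, hk.1, hk.2⟩
  have hmem1 : ∀ l, l ∈ R1 ↔ l ≠ k ∧ l ≠ j ∧ l ≠ i ∧ l ∈ R := by
    intro l; rw [hR1, Finset.mem_erase, Finset.mem_erase, Finset.mem_erase]
  set T := ((Finset.univ : Finset (V ⧸ U)).erase 0).erase (π (v j)) with hT
  have hTcard : T.card = Fintype.card (V ⧸ U) - 2 := by
    rw [hT, Finset.card_erase_of_mem, Finset.card_erase_of_mem (Finset.mem_univ _),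
      Finset.card_univ]
    · omega
    · rw [Finset.mem_erase]; exact ⟨hnz j hj.2 hij, Finset.mem_univ _⟩
  have hmaps : ∀ l ∈ R1, π (v l) ∈ T := by
    intro l hl
    rw [hmem1] at hl
    rw [hT, Finset.mem_erase, Finset.mem_erase]
    refine ⟨fun h => ?_, hnz l hl.2.2.2 hl.2.2.1.symm, Finset.mem_univ _⟩
    exact hthree j hj.2 k hk.2 l hl.2.2.2 hij hik hl.2.2.1.symm hjk hl.2.1.symm hl.1.symm hjk' h.symm
  by_cases hinj : Set.InjOn (fun l => π (v l)) (R1 : Set ι)
  · exfalso
    have himg : R1.image (fun l => π (v l)) = T := by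
      apply Finset.eq_of_subset_of_card_le
      · intro x hx
        obtain ⟨l, hl, rfl⟩ := Finset.mem_image.mp hx
        exact hmaps l hl
      · rw [Finset.card_image_of_injOn hinj, hR1card, hTcard]
        omega
    have hs1 : ∑ l ∈ R1, π (v l) = ∑ c ∈ T, c := by
      rw [← himg, Finset.sum_image hinj]
    have hs2 : ∑ c ∈ T, c + π (v j) = 0 := by
      have h4 : 4 ∣ Fintype.card (V ⧸ U) := by omega
      have h0 := sum_univ_zero hQ2 h4
      rw [← Finset.sum_erase_add _ _ (Finset.mem_univ (0 : V ⧸ U)), add_zero] at h0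
      rw [hT, Finset.sum_erase_add _ _ (Finset.mem_erase.mpr ⟨hnz j hj.2 hij, Finset.mem_univ _⟩)]
      exact h0
    have hs3 : ∑ l ∈ R, v l = ∑ l ∈ R1, v l + v k + v j + v i := by
      rw [hR1, Finset.sum_erase_add _ _ (by
          rw [Finset.mem_erase, Finset.mem_erase]; exact ⟨hjk.symm, hk.1, hk.2⟩),
        Finset.sum_erase_add _ _ (by rw [Finset.mem_erase]; exact ⟨hj.1, hj.2⟩),
        Finset.sum_erase_add _ _ hi]
    have hs4 : ∑ l ∈ R1, v l ∈ U := by
      have e1 : ∑ l ∈ R1, v l = ∑ l ∈ R, v l + (v i + v j + v k) := by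
        rw [hs3]
        have := h2 (v i + v j + v k)
        calc ∑ l ∈ R1, v l = ∑ l ∈ R1, v l + 0 := by rw [add_zero]
          _ = _ := by rw [← this]; abel
      rw [e1, hU, mem_four]
      rcases hR with h | h <;> rcases hl1 with h' | h' <;> simp [h, h', h2]
    have hs5 : ∑ l ∈ R1, π (v l) = 0 := by
      have : ∑ l ∈ R1, π (v l) = π (∑ l ∈ R1, v l) := by
        rw [hπ]; exact (map_sum (QuotientAddGroup.mk' U) v R1).symm
      rw [this, hπ0]; exact hs4
    rw [← hs1, hs5, zero_add] at hs2
    exact hnz j hj.2 hij hs2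
  · rw [Set.InjOn] at hinj
    push Not at hinj
    obtain ⟨j', hj', k', hk', he', hne'⟩ := hinj
    rw [Finset.mem_coe, hmem1] at hj' hk'
    refine ⟨j, hj.2, k, hk.2, j', hj'.2.2.2, k', hk'.2.2.2, hij, hik, hj'.2.2.1.symm,
      hk'.2.2.1.symm, hjk, hne', hj'.2.1.symm, hk'.2.1.symm, hj'.1.symm, hk'.1.symm, hl1,
      hline j' hj'.2.2.2 k' hk'.2.2.2 hj'.2.2.1.symm hk'.2.2.1.symm hne' he'⟩

end

end Pool.Agent.Rho
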