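import Pool.Agent.Lib_MP_bb931d_co.SmallEight

set_option autoImplicit false
set_option linter.unusedSectionVars false
set_option linter.unusedSimpArgs false
set_option linter.unusedTactic false
set_option linter.unnecessarySimpa false
set_option linter.unusedVariables false

namespace Pool.Agent.Rho

open Finset

/-- Zero-sum free multisets. -/
def ZF {G : Type*} [AddCommMonoid G] (T : Multiset G) : Prop :=
  ∀ B : Multiset G, B ≤ T → B ≠ 0 → B.sum ≠ 0

lemma ZF.mono {G : Type*} [AddCommMonoid G] {S T : Multiset G} (h : ZF T) (hS : S ≤ T) : ZF S :=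
  fun B hB hn => h B (hB.trans hS) hn

lemma exists_le_of_le_map {α β : Type*} [DecidableEq β] (f : α → β) (s : Multiset α) :
    ∀ C : Multiset β, C ≤ s.map f → ∃ s' ≤ s, s'.map f = C := by
  classical
  induction s using Multiset.induction with
  | empty =>
    intro C hC
    rw [Multiset.map_zero] at hC
    refine ⟨0, le_refl _, ?_⟩
    rw [Multiset.map_zero]
    exact (Multiset.le_zero.mp hC).symm
  | cons a s ih =>
    intro C hC
    rw [Multiset.map_cons] at hC
    by_cases h : f a ∈ C
    · obtain ⟨C', rfl⟩ := Multiset.exists_cons_of_mem h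
      have := (Multiset.cons_le_cons_iff _).mp hC
      obtain ⟨s', hs', hm⟩ := ih C' this
      exact ⟨a ::ₘ s', Multiset.cons_le_cons _ hs', by rw [Multiset.map_cons, hm]⟩
    · have := (Multiset.le_cons_of_notMem h).mp hC
      obtain ⟨s', hs', hm⟩ := ih C this
      exact ⟨s', hs'.trans (Multiset.le_cons_self _ _), hm⟩

section zp
variable {p : ℕ} [Fact p.Prime]

/-- The set of subset sums. -/
def sums (S : Multiset (ZMod p)) : Finset (ZMod p) := (S.powerset.map Multiset.sum).toFinset

lemma mem_sums {S : Multiset (ZMod p)} {x : ZMod p} : x ∈ sums S ↔ ∃ B ≤ S, B.sum = x := by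
  unfold sums
  rw [Multiset.mem_toFinset, Multiset.mem_map]
  simp only [Multiset.mem_powerset]

lemma zero_mem_sums (S : Multiset (ZMod p)) : (0 : ZMod p) ∈ sums S :=
  mem_sums.mpr ⟨0, Multiset.zero_le _, rfl⟩

open scoped Pointwise in
lemma sums_add (S T : Multiset (ZMod p)) {U : Finset (ZMod p)} (hU : U ⊆ sums T) :
    sums S + U ⊆ sums (S + T) := by
  intro x hx
  obtain ⟨a, ha, b, hb, rfl⟩ := Finset.mem_add.mp hx
  obtain ⟨A, hA, rfl⟩ := mem_sums.mp ha
  obtain ⟨B, hB, rfl⟩ := mem_sums.mp (hU hb)
  exact mem_sums.mpr ⟨A + B, add_le_add hA hB, by rw [Multiset.sum_add]⟩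

open scoped Pointwise in
lemma sums_card_add (S T : Multiset (ZMod p)) {U : Finset (ZMod p)} (hU : U ⊆ sums T)
    (hne : U.Nonempty) : min p ((sums S).card + U.card - 1) ≤ (sums (S + T)).card :=
  (ZMod.cauchy_davenport (Fact.out) ⟨0, zero_mem_sums S⟩ hne).trans
    (Finset.card_le_card (sums_add S T hU))

lemma growth_single (S : Multiset (ZMod p)) (x : ZMod p) (hx : x ≠ 0) {n : ℕ}
    (h : min p n ≤ (sums S).card) : min p (n + 1) ≤ (sums (S + {x})).card := by
  have hU : ({0, x} : Finset (ZMod p)) ⊆ sums {x} := by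
    intro y hy
    simp only [Finset.mem_insert, Finset.mem_singleton] at hy
    rcases hy with rfl | rfl
    · exact zero_mem_sums _
    · exact mem_sums.mpr ⟨{y}, le_refl _, by simp⟩
  have := sums_card_add S {x} hU ⟨0, by simp⟩
  rw [Finset.card_pair hx.symm] at this
  omega

lemma growth_pair (S : Multiset (ZMod p)) (x y : ZMod p) (hx : x ≠ 0) (hy : y ≠ 0) (hxy : x ≠ y)
    (hs : x + y ≠ 0) {n : ℕ}
    (h : min p n ≤ (sums S).card) : min p (n + 3) ≤ (sums (S + {x, y})).card := by
  have hU : ({0, x, y, x + y} : Finset (ZMod p)) ⊆ sums {x, y} := by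
    intro z hz
    simp only [Finset.mem_insert, Finset.mem_singleton] at hz
    rcases hz with rfl | rfl | rfl | rfl
    · exact zero_mem_sums _
    · exact mem_sums.mpr ⟨{z}, by simp, by simp⟩
    · exact mem_sums.mpr ⟨{z}, by simp, by simp⟩
    · exact mem_sums.mpr ⟨{x, y}, le_refl _, by simp⟩
  have := sums_card_add S {x, y} hU ⟨0, by simp⟩
  have hc : ({0, x, y, x + y} : Finset (ZMod p)).card = 4 := by
    rw [Finset.card_insert_of_notMem, Finset.card_insert_of_notMem, Finset.card_pair]
    · intro h0; apply hx; simpa using h0.symm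
    · simp only [Finset.mem_insert, Finset.mem_singleton, not_or]
      exact ⟨hxy, fun h0 => hy (by simpa using h0.symm)⟩
    · simp only [Finset.mem_insert, Finset.mem_singleton, not_or]
      exact ⟨hx.symm, hy.symm, hs.symm⟩
  rw [hc] at this
  omega

lemma growth (P : Multiset (ZMod p × ZMod p)) (Q : Multiset (ZMod p))
    (hS : ZF (P.map Prod.fst + P.map Prod.snd + Q)) (hd : ∀ q ∈ P, q.1 ≠ q.2) :
    min p (1 + 3 * P.card + Q.card) ≤ (sums (P.map Prod.fst + P.map Prod.snd + Q)).card := by
  classical
  induction P using Multiset.induction with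
  | empty =>
    simp only [Multiset.map_zero, zero_add, Multiset.card_zero, mul_zero, add_zero] at hS ⊢
    induction Q using Multiset.induction with
    | empty =>
      have : 0 < (sums (0 : Multiset (ZMod p))).card := Finset.card_pos.mpr ⟨0, zero_mem_sums _⟩
      simp only [Multiset.card_zero]
      omega
    | cons a Q ih =>
      have hQ : ZF Q := hS.mono (Multiset.le_cons_self _ _)
      have ha : a ≠ 0 := by
        have := hS {a} (by simp) (by simp)
        simpa using this
      have h1 : a ::ₘ Q = Q + {a} := by rw [add_comm, Multiset.singleton_add]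
      have := growth_single Q a ha (ih hQ)
      rw [h1, Multiset.card_add, Multiset.card_singleton]
      rwa [add_assoc] at this
  | cons a P ih =>
    have h1 : (a ::ₘ P).map Prod.fst + (a ::ₘ P).map Prod.snd + Q =
        (P.map Prod.fst + P.map Prod.snd + Q) + {a.1, a.2} := by
      rw [Multiset.map_cons, Multiset.map_cons, ← Multiset.singleton_add, ← Multiset.singleton_add]
      have : ({a.1, a.2} : Multiset (ZMod p)) = {a.1} + {a.2} := rfl
      rw [this]
      abel
    rw [h1] at hS ⊢
    have hS' := hS.mono (Multiset.le_add_right _ _)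
    have hle : ({a.1, a.2} : Multiset (ZMod p)) ≤ (P.map Prod.fst + P.map Prod.snd + Q) + {a.1, a.2} :=
      Multiset.le_add_left _ _
    have hx : a.1 ≠ 0 := by
      have := hS {a.1} (le_trans (by simp) hle) (by simp)
      simpa using this
    have hy : a.2 ≠ 0 := by
      have := hS {a.2} (le_trans (by simp) hle) (by simp)
      simpa using this
    have hs : a.1 + a.2 ≠ 0 := by
      have := hS {a.1, a.2} hle (by simp)
      simpa using this
    have := growth_pair _ a.1 a.2 hx hy (hd a (Multiset.mem_cons_self _ _)) hs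
      (ih hS' (fun q hq => hd q (Multiset.mem_cons_of_mem hq)))
    rw [Multiset.card_cons]
    have e1 : 1 + 3 * (P.card + 1) + Q.card = 1 + 3 * P.card + Q.card + 3 := by ring
    rw [e1]; exact this

/-- Bound for zero-sum free sequences with many distinct pairs. -/
lemma bound (P : Multiset (ZMod p × ZMod p)) (Q : Multiset (ZMod p))
    (hS : ZF (P.map Prod.fst + P.map Prod.snd + Q)) (hd : ∀ q ∈ P, q.1 ≠ q.2) :
    3 * P.card + Q.card ≤ p := by
  classical
  have key : ∀ (S : Multiset (ZMod p)) (c : ZMod p), ZF (S + {c}) → (sums S).card < p := by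
    intro S c h
    have h1 : (-c) ∉ sums S := by
      intro h0
      obtain ⟨B, hB, hs⟩ := mem_sums.mp h0
      apply h (B + {c}) (add_le_add hB (le_refl _)) (by simp)
      rw [Multiset.sum_add, hs, Multiset.sum_singleton, neg_add_cancel]
    have h3 : (sums S).card < (Finset.univ : Finset (ZMod p)).card :=
      Finset.card_lt_card (Finset.ssubset_univ_iff.mpr (fun h0 => h1 (h0 ▸ Finset.mem_univ _)))
    rwa [Finset.card_univ, ZMod.card] at h3
  rcases Multiset.empty_or_exists_mem Q with rfl | ⟨c, hc⟩
  · rcases Multiset.empty_or_exists_mem P with rfl | ⟨a, ha⟩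
    · simp
    · obtain ⟨P', rfl⟩ := Multiset.exists_cons_of_mem ha
      have h1 : (a ::ₘ P').map Prod.fst + (a ::ₘ P').map Prod.snd + 0 =
        (P'.map Prod.fst + P'.map Prod.snd + {a.1}) + {a.2} := by
        rw [Multiset.map_cons, Multiset.map_cons, ← Multiset.singleton_add,
          ← Multiset.singleton_add]
        abel
      rw [h1] at hS
      have h3 := key _ _ hS
      have h4 := growth P' {a.1} (hS.mono (Multiset.le_add_right _ _))
        (fun q hq => hd q (Multiset.mem_cons_of_mem hq))
      rw [Multiset.card_singleton] at h4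
      rw [Multiset.card_cons, Multiset.card_zero]
      omega
  · obtain ⟨Q', rfl⟩ := Multiset.exists_cons_of_mem hc
    have h1 : P.map Prod.fst + P.map Prod.snd + (c ::ₘ Q') =
        (P.map Prod.fst + P.map Prod.snd + Q') + {c} := by
      rw [← Multiset.singleton_add]; abel
    rw [h1] at hS
    have h3 := key _ _ hS
    have h4 := growth P Q' (hS.mono (Multiset.le_add_right _ _)) hd
    rw [Multiset.card_cons]
    omega

end zp

/-- Many distinct pairs or one dominating element. -/
lemma pairs_or_count {α : Type*} [DecidableEq α] [Inhabited α] (t : ℕ) :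
    ∀ S : Multiset α, (∃ P : Multiset (α × α), P.card = t + 1 ∧ (∀ q ∈ P, q.1 ≠ q.2) ∧
      P.map Prod.fst + P.map Prod.snd ≤ S) ∨ ∃ c, S.card ≤ S.count c + 2 * t := by
  have split : ∀ S : Multiset α, (∃ c, S.card = S.count c) ∨
      ∃ x y, x ≠ y ∧ ∃ S' : Multiset α, S = {x, y} + S' := by
    intro S
    rcases Multiset.empty_or_exists_mem S with rfl | ⟨c, hc⟩
    · left; exact ⟨default, by simp⟩
    · by_cases h : ∀ b ∈ S, c = b
      · left; exact ⟨c, (Multiset.count_eq_card.mpr h).symm⟩
      · right
        push Not at h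
        obtain ⟨y, hy, hne⟩ := h
        obtain ⟨S1, rfl⟩ := Multiset.exists_cons_of_mem hc
        have : y ∈ S1 := by
          rcases Multiset.mem_cons.mp hy with h | h
          · exact absurd h.symm hne
          · exact h
        obtain ⟨S2, rfl⟩ := Multiset.exists_cons_of_mem this
        refine ⟨c, y, hne, S2, ?_⟩
        rw [Multiset.insert_eq_cons, Multiset.cons_add, Multiset.singleton_add]
  induction t with
  | zero =>
    intro S
    rcases split S with ⟨c, hc⟩ | ⟨x, y, hxy, S', rfl⟩
    · right; exact ⟨c, by omega⟩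
    · left
      refine ⟨{(x, y)}, by simp, ?_, ?_⟩
      · intro q hq; rw [Multiset.mem_singleton] at hq; subst hq; exact hxy
      · simp only [Multiset.map_singleton]
        have : ({x, y} : Multiset α) = {x} + {y} := rfl
        rw [this]; exact Multiset.le_add_right _ _
  | succ t ih =>
    intro S
    rcases split S with ⟨c, hc⟩ | ⟨x, y, hxy, S', rfl⟩
    · right; exact ⟨c, by omega⟩
    · rcases ih S' with ⟨P, hP, hd, hle⟩ | ⟨c, hc⟩
      · left
        refine ⟨(x, y) ::ₘ P, by rw [Multiset.card_cons, hP], ?_, ?_⟩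
        · intro q hq
          rcases Multiset.mem_cons.mp hq with rfl | hq
          · exact hxy
          · exact hd q hq
        · rw [Multiset.map_cons, Multiset.map_cons]
          have e1 : ((x, y).1 ::ₘ P.map Prod.fst) + ((x, y).2 ::ₘ P.map Prod.snd) =
              {x, y} + (P.map Prod.fst + P.map Prod.snd) := by
            rw [← Multiset.singleton_add, ← Multiset.singleton_add]
            have : ({x, y} : Multiset α) = {x} + {y} := rfl
            rw [this]
            simp only
            abel
          rw [e1]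
          exact add_le_add (le_refl _) hle
      · right
        refine ⟨c, ?_⟩
        rw [Multiset.card_add, Multiset.count_add]
        have : Multiset.card ({x, y} : Multiset α) = 2 := rfl
        omega

/-- Splitting off squares. -/
lemma double_decomp {α : Type*} [DecidableEq α] (T : Multiset α) :
    ∃ E D : Multiset α, T = E + E + D ∧ D.Nodup := by
  induction h : T.card using Nat.strong_induction_on generalizing T with
  | _ n ih =>
  by_cases hT : T.Nodup
  · exact ⟨0, T, by simp, hT⟩
  · rw [Multiset.nodup_iff_le] at hT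
    push Not at hT
    obtain ⟨a, ha⟩ := hT
    obtain ⟨T', rfl⟩ := Multiset.le_iff_exists_add.mp ha
    have hc : Multiset.card (a ::ₘ a ::ₘ (0 : Multiset α)) = 2 := rfl
    obtain ⟨E, D, hED, hD⟩ := ih T'.card (by rw [← h, Multiset.card_add, hc]; omega) T' rfl
    refine ⟨a ::ₘ E, D, ?_, hD⟩
    rw [hED]
    simp only [Multiset.cons_add, Multiset.add_cons, zero_add]

section grp
variable {V : Type} [AddCommGroup V] [Fintype V] [DecidableEq V] {p : ℕ} [Fact p.Prime]

/-- Four elements with the same first component give two blocks with distinct weights. -/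
lemma four_tuple (hp : 2 < p) (h2 : ∀ x : V, x + x = 0) {D : Finset (V × ZMod p)} {w : V}
    (hD : 4 ≤ (D.filter (fun g => g.1 = w)).card) :
    ∃ B1 B2 : Multiset (V × ZMod p), B1.card = 2 ∧ B2.card = 2 ∧ B1.sum.1 = 0 ∧ B2.sum.1 = 0 ∧
      B1.sum.2 ≠ B2.sum.2 ∧ B1 + B2 ≤ D.val := by
  have h20 := two_ne (p := p) hp
  set F := D.filter (fun g => g.1 = w) with hF
  obtain ⟨a, b, c, ha, hb, hc, hab, hac, hbc⟩ := Finset.two_lt_card_iff.mp (show 2 < F.card by omega)
  have hd : ∃ d ∈ F, d ∉ ({a, b, c} : Finset (V × ZMod p)) := by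
    by_contra hcon
    push Not at hcon
    have h1 := Finset.card_le_card (show F ⊆ {a, b, c} from hcon)
    have h3 := Finset.card_le_three (a := a) (b := b) (c := c)
    omega
  obtain ⟨d, hd, hd'⟩ := hd
  simp only [Finset.mem_insert, Finset.mem_singleton, not_or] at hd'
  obtain ⟨hda, hdb, hdc⟩ := hd'
  have hsub : ∀ x y z t : V × ZMod p, x ∈ F → y ∈ F → z ∈ F → t ∈ F → x ≠ y → x ≠ z → y ≠ z →
      t ≠ x → t ≠ y → t ≠ z → ({x, y} : Multiset (V × ZMod p)) + {z, t} ≤ D.val := by
    intro x y z t hx hy hz ht h1 h3 h4 h5 h6 h7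
    have hnd : ({x, y} + {z, t} : Multiset (V × ZMod p)).Nodup := by
      have : ({x, y} + {z, t} : Multiset (V × ZMod p)) = x ::ₘ y ::ₘ z ::ₘ t ::ₘ 0 := rfl
      rw [this]
      simp only [Multiset.nodup_cons, Multiset.mem_cons, Multiset.notMem_zero, or_false, not_or,
        not_false_eq_true, Multiset.nodup_zero, and_true]
      exact ⟨⟨h1, h3, h5.symm⟩, ⟨h4, h6.symm⟩, h7.symm⟩
    rw [Multiset.le_iff_subset hnd]
    intro u hu
    have : u = x ∨ u = y ∨ u = z ∨ u = t := by
      have e : ({x, y} + {z, t} : Multiset (V × ZMod p)) = x ::ₘ y ::ₘ z ::ₘ t ::ₘ 0 := rfl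
      rw [e] at hu
      simpa using hu
    have hFD : F ⊆ D := Finset.filter_subset _ _
    rcases this with rfl | rfl | rfl | rfl
    · exact hFD hx
    · exact hFD hy
    · exact hFD hz
    · exact hFD ht
  have hw : ∀ x ∈ F, x.1 = w := fun x hx => (Finset.mem_filter.mp hx).2
  have hpair : ∀ x ∈ F, ∀ y ∈ F, (({x, y} : Multiset (V × ZMod p)).sum).1 = 0 := by
    intro x hx y hy
    rw [Multiset.sum_pair]
    show x.1 + y.1 = 0
    rw [hw x hx, hw y hy, h2]
  by_cases hcase : a.2 + b.2 = c.2 + d.2
  · refine ⟨{a, c}, {b, d}, rfl, rfl, hpair a ha c hc, hpair b hb d hd, ?_,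
      hsub a c b d ha hc hb hd hac hab hbc.symm hda hdc hdb⟩
    rw [Multiset.sum_pair, Multiset.sum_pair]
    show a.2 + c.2 ≠ b.2 + d.2
    intro h0
    apply hbc
    have h3 : 2 * (b.2 - c.2) = 0 := by linear_combination hcase - h0
    have h4 : b.2 = c.2 := sub_eq_zero.mp ((mul_eq_zero.mp h3).resolve_left h20)
    exact Prod.ext ((hw b hb).trans (hw c hc).symm) h4
  · refine ⟨{a, b}, {c, d}, rfl, rfl, hpair a ha b hb, hpair c hc d hd, ?_,
      hsub a b c d ha hb hc hd hab hac hbc hda hdb hdc⟩
    rw [Multiset.sum_pair, Multiset.sum_pair]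
    exact hcase

/-- Extracting many four-tuples from a set. -/
lemma extract (hp : 2 < p) (h2 : ∀ x : V, x + x = 0) (hV : Fintype.card V = 32) (n : ℕ) :
    ∀ D : Multiset (V × ZMod p), D.Nodup → D.card ≤ n →
    ∃ P : Multiset (Multiset (V × ZMod p) × Multiset (V × ZMod p)),
      (∀ q ∈ P, q.1.card = 2 ∧ q.2.card = 2 ∧ q.1.sum.1 = 0 ∧ q.2.sum.1 = 0 ∧
        q.1.sum.2 ≠ q.2.sum.2) ∧
      (P.map Prod.fst).sum + (P.map Prod.snd).sum ≤ D ∧ D.card ≤ 4 * P.card + 96 := by
  induction n with
  | zero =>
    intro D _ hn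
    exact ⟨0, by simp, by simp, by omega⟩
  | succ n ih =>
    intro D hD hn
    by_cases h96 : D.card ≤ 96
    · exact ⟨0, by simp, by simp, by omega⟩
    · set F : Finset (V × ZMod p) := ⟨D, hD⟩ with hF
      have hpig : ∃ w ∈ (Finset.univ : Finset V), 3 < (F.filter (fun g => g.1 = w)).card := by
        apply Finset.exists_lt_card_fiber_of_mul_lt_card_of_maps_to (fun _ _ => Finset.mem_univ _)
        rw [Finset.card_univ, hV]
        show 32 * 3 < Multiset.card D
        omega
      obtain ⟨w, -, hw⟩ := hpig
      obtain ⟨B1, B2, c1, c2, s1, s2, hne, hle⟩ := four_tuple hp h2 hw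
      have hle' : B1 + B2 ≤ D := hle
      obtain ⟨D', hD'⟩ := Multiset.le_iff_exists_add.mp hle'
      have hnd : D'.Nodup := Multiset.nodup_of_le (by rw [hD']; exact Multiset.le_add_left _ _) hD
      have hcard : D.card = 4 + D'.card := by
        rw [hD', Multiset.card_add, Multiset.card_add, c1, c2]
      obtain ⟨P, hP, hle2, hc⟩ := ih D' hnd (by omega)
      refine ⟨(B1, B2) ::ₘ P, ?_, ?_, ?_⟩
      · intro q hq
        rcases Multiset.mem_cons.mp hq with rfl | hq
        · exact ⟨c1, c2, s1, s2, hne⟩
        · exact hP q hq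
      · rw [Multiset.map_cons, Multiset.map_cons, Multiset.sum_cons, Multiset.sum_cons, hD']
        have e1 : (B1, B2).1 + (P.map Prod.fst).sum + ((B1, B2).2 + (P.map Prod.snd).sum) =
            B1 + B2 + ((P.map Prod.fst).sum + (P.map Prod.snd).sum) := by
          simp only; abel
        rw [e1]
        exact add_le_add (le_refl _) hle2
      · rw [Multiset.card_cons]; omega

/-- Grouping: weights of disjoint blocks form a zero-sum free sequence. -/
lemma grouping {T : Multiset (V × ZMod p)} (hT : ZF T) (F : Multiset (Multiset (V × ZMod p)))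
    (hF : ∀ B ∈ F, B ≠ 0 ∧ B.sum.1 = 0) (hle : F.sum ≤ T) :
    ZF (F.map (fun B => B.sum.2)) := by
  classical
  intro C hC hn hs
  obtain ⟨F', hF', rfl⟩ := exists_le_of_le_map (fun B : Multiset (V × ZMod p) => B.sum.2) F C hC
  have hsum1 : ∀ F' : Multiset (Multiset (V × ZMod p)), (∀ B ∈ F', B.sum.1 = 0) →
      F'.sum.sum.1 = 0 ∧ F'.sum.sum.2 = (F'.map (fun B => B.sum.2)).sum := by
    intro F'
    induction F' using Multiset.induction with
    | empty => intro _; simp
    | cons a F' ih =>
      intro h
      have := ih (fun B hB => h B (Multiset.mem_cons_of_mem hB))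
      rw [Multiset.sum_cons, Multiset.sum_add, Multiset.map_cons, Multiset.sum_cons]
      refine ⟨?_, ?_⟩
      · show a.sum.1 + F'.sum.sum.1 = 0
        rw [this.1, h a (Multiset.mem_cons_self _ _), add_zero]
      · show a.sum.2 + F'.sum.sum.2 = _
        rw [this.2]
  have hn' : F' ≠ 0 := fun h0 => hn (by rw [h0]; rfl)
  have hsumle : F'.sum ≤ F.sum := by
    obtain ⟨F'', rfl⟩ := Multiset.le_iff_exists_add.mp hF'
    rw [Multiset.sum_add]; exact Multiset.le_add_right _ _
  have hne : F'.sum ≠ 0 := by
    obtain ⟨B, hB⟩ := Multiset.exists_mem_of_ne_zero hn'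
    obtain ⟨F'', rfl⟩ := Multiset.exists_cons_of_mem hB
    rw [Multiset.sum_cons]
    intro h0
    have : B = 0 := by
      have h3 : B ≤ 0 := by rw [← h0]; exact Multiset.le_add_right _ _
      exact Multiset.le_zero.mp h3
    exact (hF B (Multiset.mem_of_le hF' hB)).1 this
  have h3 := hsum1 F' (fun B hB => (hF B (Multiset.mem_of_le hF' hB)).2)
  apply hT F'.sum (hsumle.trans hle) hne
  exact Prod.ext h3.1 (h3.2.trans hs)

/-- Long zero-sum free sequences are concentrated on one value of the second component. -/
lemma concentrated (hp : 1000 < p) (h2 : ∀ x : V, x + x = 0) (hV : Fintype.card V = 32)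
    {T : Multiset (V × ZMod p)} (hT : ZF T) (hc : 2 * p + 4 ≤ T.card) :
    ∃ (lam : ZMod p) (E : Multiset (V × ZMod p)), lam ≠ 0 ∧ E + E ≤ T ∧ (∀ g ∈ E, g.2 = lam) ∧
      p ≤ E.card + 414 := by
  classical
  have h20 := two_ne (p := p) (by omega)
  obtain ⟨E, D, hED, hD⟩ := double_decomp T
  obtain ⟨P, hP, hle, hcD⟩ := extract (by omega) h2 hV D.card D hD le_rfl
  have hcT : T.card = 2 * E.card + D.card := by
    rw [hED, Multiset.card_add, Multiset.card_add]; ring
  -- blocks
  have hsumE : (E.map (fun g => ({g, g} : Multiset (V × ZMod p)))).sum = E + E := by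
    induction E using Multiset.induction_on with
    | empty => simp
    | cons a E ih =>
      clear hED hcT
      rw [Multiset.map_cons, Multiset.sum_cons]
      have : ∀ E : Multiset (V × ZMod p),
          (E.map (fun g => ({g, g} : Multiset (V × ZMod p)))).sum = E + E := by
        intro E
        induction E using Multiset.induction_on with
        | empty => simp
        | cons a E ih =>
          rw [Multiset.map_cons, Multiset.sum_cons, ih]
          have e : ({a, a} : Multiset (V × ZMod p)) = {a} + {a} := rfl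
          rw [e, ← Multiset.singleton_add]; abel
      rw [this]
      have e : ({a, a} : Multiset (V × ZMod p)) = {a} + {a} := rfl
      rw [e, ← Multiset.singleton_add]; abel
  have hZ := grouping hT (E.map (fun g => ({g, g} : Multiset (V × ZMod p))) + P.map Prod.fst +
    P.map Prod.snd) ?_ ?_
  · have e1 : (E.map (fun g => ({g, g} : Multiset (V × ZMod p))) + P.map Prod.fst +
        P.map Prod.snd).map (fun B => B.sum.2) =
        (P.map (fun q => (q.1.sum.2, q.2.sum.2))).map Prod.fst +
        (P.map (fun q => (q.1.sum.2, q.2.sum.2))).map Prod.snd + E.map (fun g => 2 * g.2) := by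
      rw [Multiset.map_add, Multiset.map_add, Multiset.map_map, Multiset.map_map, Multiset.map_map,
        Multiset.map_map, Multiset.map_map]
      have e2 : E.map ((fun B : Multiset (V × ZMod p) => B.sum.2) ∘
          (fun g => ({g, g} : Multiset (V × ZMod p)))) = E.map (fun g => 2 * g.2) := by
        apply Multiset.map_congr rfl
        intro g _
        show (({g, g} : Multiset (V × ZMod p)).sum).2 = 2 * g.2
        rw [Multiset.sum_pair]
        show g.2 + g.2 = 2 * g.2
        ring
      rw [e2]
      have e3 : (fun B : Multiset (V × ZMod p) => B.sum.2) ∘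
          (Prod.fst : Multiset (V × ZMod p) × Multiset (V × ZMod p) → _) =
          (Prod.fst ∘ fun q : Multiset (V × ZMod p) × Multiset (V × ZMod p) =>
            (q.1.sum.2, q.2.sum.2)) := rfl
      have e4 : (fun B : Multiset (V × ZMod p) => B.sum.2) ∘
          (Prod.snd : Multiset (V × ZMod p) × Multiset (V × ZMod p) → _) =
          (Prod.snd ∘ fun q : Multiset (V × ZMod p) × Multiset (V × ZMod p) =>
            (q.1.sum.2, q.2.sum.2)) := rfl
      rw [e3, e4]
      abel
    rw [e1] at hZ
    have hb := bound _ _ hZ (by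
      intro q hq
      obtain ⟨r, hr, rfl⟩ := Multiset.mem_map.mp hq
      exact (hP r hr).2.2.2.2)
    rw [Multiset.card_map, Multiset.card_map] at hb
    -- numbers
    have hE : p ≤ E.card + 138 := by omega
    have hZE : ZF (E.map (fun g => 2 * g.2)) := hZ.mono (Multiset.le_add_left _ _)
    have hEc : (E.map (fun g => 2 * g.2)).card = E.card := Multiset.card_map _ _
    rcases pairs_or_count 138 (E.map (fun g => 2 * g.2)) with ⟨P', hP', hd, hle'⟩ | ⟨c, hcc⟩
    · exfalso
      obtain ⟨Q, hQ⟩ := Multiset.le_iff_exists_add.mp hle'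
      rw [hQ] at hZE hEc
      have := bound P' Q hZE hd
      rw [Multiset.card_add, Multiset.card_add, Multiset.card_map, Multiset.card_map] at hEc
      omega
    · set lam : ZMod p := c / 2 with hlam
      have hl : 2 * lam = c := by rw [hlam]; field_simp
      have hcount : (E.map (fun g => 2 * g.2)).count c = (E.filter (fun g => g.2 = lam)).card := by
        rw [Multiset.count_map]
        congr 1
        apply Multiset.filter_congr
        intro g _
        constructor
        · intro h
          have : 2 * (g.2 - lam) = 0 := by rw [mul_sub, hl, ← h]; ring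
          exact sub_eq_zero.mp ((mul_eq_zero.mp this).resolve_left h20)
        · intro h; rw [h, hl]
      rw [hEc, hcount] at hcc
      have hEE : E.filter (fun g => g.2 = lam) + E.filter (fun g => g.2 = lam) ≤ T := by
        rw [hED]
        exact (add_le_add (Multiset.filter_le _ _) (Multiset.filter_le _ _)).trans
          (Multiset.le_add_right _ _)
      refine ⟨lam, E.filter (fun g => g.2 = lam), ?_, hEE, ?_, by omega⟩
      · intro h0
        have hpos : 0 < (E.filter (fun g => g.2 = lam)).card := by omega
        obtain ⟨g, hg⟩ := Multiset.card_pos_iff_exists_mem.mp hpos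
        have hg2 := (Multiset.mem_filter.mp hg).2
        apply hT {g, g} _ (by simp) _
        · refine le_trans ?_ hEE
          have e : ({g, g} : Multiset (V × ZMod p)) = {g} + {g} := rfl
          rw [e]
          exact add_le_add (Multiset.singleton_le.mpr hg) (Multiset.singleton_le.mpr hg)
        · rw [Multiset.sum_pair]
          refine Prod.ext (h2 _) ?_
          show g.2 + g.2 = 0
          rw [hg2, h0, add_zero]
      · intro g hg; exact (Multiset.mem_filter.mp hg).2
  · intro B hB
    rw [Multiset.mem_add, Multiset.mem_add] at hB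
    rcases hB with (hB | hB) | hB
    · obtain ⟨g, -, rfl⟩ := Multiset.mem_map.mp hB
      refine ⟨by simp, ?_⟩
      rw [Multiset.sum_pair]; exact h2 _
    · obtain ⟨q, hq, rfl⟩ := Multiset.mem_map.mp hB
      have := hP q hq
      refine ⟨?_, this.2.2.1⟩
      intro h0; rw [h0] at this; simp at this
    · obtain ⟨q, hq, rfl⟩ := Multiset.mem_map.mp hB
      have := hP q hq
      refine ⟨?_, this.2.2.2.1⟩
      intro h0; rw [h0] at this; simp at this
  · rw [Multiset.sum_add, Multiset.sum_add, hsumE, hED, add_assoc]
    exact add_le_add (le_refl _) hle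

end grp

end Pool.Agent.Rho
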