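import Pool.Agent.Lib_MP_bb931d_co.Contract

set_option autoImplicit false
set_option linter.unusedSectionVars false
set_option linter.unusedSimpArgs false
set_option linter.unusedTactic false
set_option linter.unnecessarySimpa false
set_option linter.unusedVariables false

namespace Pool.Agent.Rho

open Finset

lemma card_quot {V : Type*} [AddCommGroup V] [Fintype V] (h2 : ∀ x : V, x + x = 0) {w : V}
    (hw : w ≠ 0) [Fintype (V ⧸ twoS h2 w)] :
    Fintype.card V = Fintype.card (V ⧸ twoS h2 w) * 2 := by
  classical
  have h := AddSubgroup.card_eq_card_quotient_mul_card_addSubgroup (twoS h2 w)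
  rw [Nat.card_eq_fintype_card, Nat.card_eq_fintype_card] at h
  rw [h]
  congr 1
  have hset : (twoS h2 w : Set V) = (({0, w} : Finset V) : Set V) := by
    ext x
    simp [mem_twoS]
  have h1 : Nat.card ((twoS h2 w : Set V)) = 2 := by
    rw [hset, Nat.card_coe_set_eq, Set.ncard_coe_finset, Finset.card_pair hw.symm]
  exact h1

/-- In rank at most three the defect is at most the rank. -/
theorem rank_small {p K : ℕ} [Fact p.Prime] (hp : 4 * K + 20 < p) {ι : Type} [DecidableEq ι]
    (b : ι → ZMod p) :
    ∀ (r : ℕ), r ≤ 3 → ∀ (V : Type) [AddCommGroup V] [Fintype V], (∀ x : V, x + x = 0) →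
      Fintype.card V = 2 ^ (r + 1) → ∀ (e : V), e ≠ 0 → ∀ (v : ι → V) (n : ℕ) (R : Finset ι),
      R.card ≤ n → Cfg p K e v b R → R.Nonempty → Blk e v R →
      R.card ≤ (∑ i ∈ R, b i).val + r := by
  classical
  intro r
  induction r using Nat.strong_induction_on with
  | _ r ihr =>
  intro hr V _ _ h2 hV e he v n
  induction n with
  | zero => intro R hRn _ hne; exact absurd (Finset.card_pos.mpr hne) (by omega)
  | succ n ih =>
  intro R hRn hC hne hR
  have hK : 2 * K < p := by omega
  -- removing a block of nonpositive defect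
  have hrem : ∀ B ⊆ R, B.Nonempty → Blk e v B → B.card ≤ (∑ i ∈ B, b i).val →
      R.card ≤ (∑ i ∈ R, b i).val + r := by
    intro B hB hn hb hc
    by_cases hn' : (R \ B).Nonempty
    · have hsp := hC.split h2 hK hR hB hb hn hn'
      have hcard := Finset.card_sdiff_add_card_eq_card hB
      have hpos : 0 < B.card := Finset.card_pos.mpr hn
      have := ih (R \ B) (by omega) (hC.mono Finset.sdiff_subset) hn' (hR.sdiff h2 hb hB)
      omega
    · rw [Finset.not_nonempty_iff_eq_empty, Finset.sdiff_eq_empty_iff_subset] at hn'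
      have : R = B := Finset.Subset.antisymm hn' hB
      rw [this]; omega
  by_cases hz : ∃ x ∈ R, v x = 0 ∨ v x = e
  · obtain ⟨x, hx, hvx⟩ := hz
    have hb : Blk e v {x} := by unfold Blk; simpa using hvx
    have hsub : ({x} : Finset ι) ⊆ R := by simpa using hx
    have := hC.pos hsub (Finset.singleton_nonempty x) hb
    exact hrem {x} hsub (Finset.singleton_nonempty x) hb (by rw [Finset.card_singleton]; omega)
  push Not at hz
  by_cases hpr : ∃ x ∈ R, ∃ y ∈ R, x ≠ y ∧ (v x + v y = 0 ∨ v x + v y = e)
  · obtain ⟨x, hx, y, hy, hxy, hv⟩ := hpr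
    have hb : Blk e v {x, y} := by unfold Blk; rw [Finset.sum_pair hxy]; exact hv
    have hsub : ({x, y} : Finset ι) ⊆ R := by
      intro t ht; simp only [Finset.mem_insert, Finset.mem_singleton] at ht
      rcases ht with rfl | rfl <;> assumption
    have hn : ({x, y} : Finset ι).Nonempty := ⟨x, by simp⟩
    have hpos := hC.pos hsub hn hb
    by_cases h2' : 2 ≤ (∑ i ∈ ({x, y} : Finset ι), b i).val
    · exact hrem {x, y} hsub hn hb (by rw [Finset.card_pair hxy]; exact h2')
    have h1 : (∑ i ∈ ({x, y} : Finset ι), b i).val = 1 := by omega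
    have hve : v x + v y = e := by
      rcases hv with hv | hv
      · have := (hC.even _ hsub hn (by rw [Finset.sum_pair hxy]; exact hv)).1
        rw [h1] at this
        exact absurd this (by decide)
      · exact hv
    have hb1 : b x + b y = 1 := by
      rw [← Finset.sum_pair (f := b) hxy, ← ZMod.natCast_zmod_val (∑ i ∈ ({x, y} : Finset ι), b i), h1]
      simp
    obtain ⟨w, hw0, hwe, hC'⟩ := contract (by omega) h2 he hC hx hy hxy hve hb1 (hz x hx).1 (hz x hx).2
    let _ : Fintype (V ⧸ twoS h2 w) := Fintype.ofFinite _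
    have hcq := card_quot h2 hw0
    have hr1 : 1 ≤ r := by
      by_contra hr0
      have hr0' : r = 0 := by omega
      subst hr0'
      rw [hV] at hcq
      have h1' : Fintype.card (V ⧸ twoS h2 w) = 1 := by omega
      have hz' := Fintype.card_eq_one_iff.mp h1'
      obtain ⟨z, hz'⟩ := hz'
      have : (QuotientAddGroup.mk (s := twoS h2 w) e) = QuotientAddGroup.mk (s := twoS h2 w) 0 := by
        rw [hz' (QuotientAddGroup.mk e), hz' (QuotientAddGroup.mk 0)]
      have h0 : QuotientAddGroup.mk (s := twoS h2 w) e = 0 := this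
      rw [QuotientAddGroup.eq_zero_iff, mem_twoS] at h0
      rcases h0 with h0 | h0
      · exact he h0
      · exact hwe h0.symm
    obtain ⟨r', rfl⟩ : ∃ r', r = r' + 1 := ⟨r - 1, by omega⟩
    have hcq' : Fintype.card (V ⧸ twoS h2 w) = 2 ^ (r' + 1) := by
      have : (2 : ℕ) ^ (r' + 1 + 1) = 2 ^ (r' + 1) * 2 := by rw [pow_succ]
      omega
    by_cases hn' : (R \ {x, y}).Nonempty
    · have hsp := hC.split h2 hK hR hsub hb hn hn'
      have hcard := Finset.card_sdiff_add_card_eq_card hsub
      rw [Finset.card_pair hxy] at hcard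
      have hbq : Blk (QuotientAddGroup.mk (s := twoS h2 w) e)
          (fun i => QuotientAddGroup.mk (s := twoS h2 w) (v i)) (R \ {x, y}) := by
        have hbb := hR.sdiff h2 hb hsub
        have hsq : ∑ i ∈ R \ {x, y}, (QuotientAddGroup.mk (s := twoS h2 w) (v i)) =
            QuotientAddGroup.mk (s := twoS h2 w) (∑ i ∈ R \ {x, y}, v i) :=
          (map_sum (QuotientAddGroup.mk' (twoS h2 w)) v _).symm
        unfold Blk
        rw [hsq]
        rcases hbb with hbb | hbb
        · left; rw [hbb]; rfl
        · right; rw [hbb]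
      have hq2 : ∀ z : V ⧸ twoS h2 w, z + z = 0 := by
        intro z
        obtain ⟨z', rfl⟩ := QuotientAddGroup.mk_surjective z
        show QuotientAddGroup.mk (s := twoS h2 w) (z' + z') = 0
        rw [h2]; rfl
      have heq0 : QuotientAddGroup.mk (s := twoS h2 w) e ≠ 0 := by
        rw [Ne, QuotientAddGroup.eq_zero_iff, mem_twoS]
        rintro (h0 | h0)
        · exact he h0
        · exact hwe h0.symm
      have := ihr r' (by omega) (by omega) (V ⧸ twoS h2 w) hq2 hcq' _ heq0 _ n (R \ {x, y})
        (by omega) hC' hn' hbq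
      omega
    · rw [Finset.not_nonempty_iff_eq_empty, Finset.sdiff_eq_empty_iff_subset] at hn'
      have hRe : R = {x, y} := Finset.Subset.antisymm hn' hsub
      rw [hRe, Finset.card_pair hxy]; omega
  push Not at hpr
  have hcb := card_classes h2 he hz hpr
  rw [hV] at hcb
  have hpos := hC.pos (Finset.Subset.refl R) hne hR
  have hcp := Finset.card_pos.mpr hne
  by_cases h5 : R.card ≤ 4 ∧ 2 ≤ r
  · have : R.card ≤ r + 1 := by
      have hr' : r = 2 ∨ r = 3 := by omega
      rcases hr' with rfl | rfl
      · have hcb' : 2 * R.card + 2 ≤ 8 := by simpa using hcb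
        omega
      · omega
    omega
  have hr' : r = 0 ∨ r = 1 ∨ r = 2 ∨ r = 3 := by omega
  rcases hr' with rfl | rfl | rfl | rfl
  · have hcb' : 2 * R.card + 2 ≤ 2 := by simpa using hcb
    omega
  · have hcb' : 2 * R.card + 2 ≤ 4 := by simpa using hcb
    have hc1 : R.card = 1 := by omega
    obtain ⟨x, hx⟩ := Finset.card_eq_one.mp hc1
    exfalso
    have hx' := hz x (by rw [hx]; simp)
    unfold Blk at hR
    rw [hx, Finset.sum_singleton] at hR
    rcases hR with h | h
    · exact hx'.1 h
    · exact hx'.2 h
  · have hcb' : 2 * R.card + 2 ≤ 8 := by simpa using hcb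
    omega
  · -- rank three, at least five elements
    have h5' : 5 ≤ R.card := by
      by_contra hlt
      exact h5 ⟨by omega, by norm_num⟩
    by_contra hcon
    have hprop : ∀ B ⊆ R, B.Nonempty → Blk e v B → B ≠ R → (∑ i ∈ B, b i).val + 1 ≤ B.card := by
      intro B hB hn hb hBR
      have hn' : (R \ B).Nonempty := by
        rw [Finset.nonempty_iff_ne_empty, Ne, Finset.sdiff_eq_empty_iff_subset]
        intro h0; exact hBR (Finset.Subset.antisymm hB h0)
      have hsp := hC.split h2 hK hR hB hb hn hn'
      have hcard := Finset.card_sdiff_add_card_eq_card hB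
      have hpos' : 0 < B.card := Finset.card_pos.mpr hn
      have := ih (R \ B) (by omega) (hC.mono Finset.sdiff_subset) hn' (hR.sdiff h2 hb hB)
      omega
    have h01 : ∀ i ∈ R, b i = 0 ∨ b i = 1 := fun i hi =>
      zero_one_of_lines (by omega) h2 he (by rw [hV]; norm_num) (by rw [hV]; norm_num; omega)
        hC hz hpr hR hprop hi
    have hRp : R.card < p := by
      have hcb' : 2 * R.card + 2 ≤ 16 := by simpa using hcb
      omega
    have := card_le_of_zero_one h2 (by omega) hV.le he hC hRp h01
    exact hcon this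

end Pool.Agent.Rho
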