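import Pool.Agent.Lib_MP_bb931d_co.Basic7

/-!
Exclusion of total sum `6` and `-6`.
-/

set_option autoImplicit false

namespace Pool.Agent.BB931D

open Finset

lemma finite_check_six : ∀ F ∈ Finset.Icc (-20 : ℤ) 20, ∀ T ∈ Finset.Icc (-20 : ℤ) 20,
    ¬ (3 : ℤ) ∣ F → 3 * T ^ 2 - F ^ 2 ≠ 116 ∧ 3 * T ^ 2 - F ^ 2 ≠ 140 := by
  decide +kernel

/-- orthogonal vector to few vectors -/
lemma exists_orthogonal (Y : Finset (V 7)) (hY : Y.card ≤ 6) :
    ∃ c : V 7, c ≠ 0 ∧ ∀ y ∈ Y, chi c y = 1 := by
  classical
  have hcard : Fintype.card (Y → ZMod 2) < Fintype.card (V 7) := by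
    rw [card_V, Fintype.card_fun, ZMod.card, Fintype.card_coe]
    calc 2 ^ Y.card ≤ 2 ^ 6 := Nat.pow_le_pow_right (by norm_num) hY
      _ < 2 ^ 7 := by norm_num
  obtain ⟨c1, c2, hne, heq⟩ := Fintype.exists_ne_map_eq_of_card_lt
    (fun (c : V 7) (y : Y) => dot c y.1) hcard
  refine ⟨c1 + c2, fun h => hne ((add_eq_zero_iff' _ _).1 h), fun y hy => ?_⟩
  have h1 : dot c1 y = dot c2 y := congrFun heq ⟨y, hy⟩
  rw [chi_add_left]
  unfold chi
  rw [h1]; exact sg_sq _

variable {μ : V 7 → ℤ}

lemma four_card {a b z : V 7} (hz : z ≠ 0) (hab : b ≠ a) (habz : b ≠ a + z) :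
    ({a, b, a + z, b + z} : Finset (V 7)).card = 4 := by
  classical
  have hawa : a + z ≠ a := by simpa using hz
  have hbwb : b + z ≠ b := by simpa using hz
  rw [Finset.card_insert_of_notMem, Finset.card_insert_of_notMem, Finset.card_insert_of_notMem,
      Finset.card_singleton]
  · simp only [Finset.mem_singleton]
    intro h; exact hab (add_right_cancel h).symm
  · simp only [Finset.mem_insert, Finset.mem_singleton, not_or]
    exact ⟨habz, fun h => hbwb h.symm⟩
  · simp only [Finset.mem_insert, Finset.mem_singleton, not_or]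
    refine ⟨fun h => hab h.symm, fun h => hawa h.symm, fun h => habz ?_⟩
    rw [h, add_add_self]

lemma Good.counts (h : Good μ) {z : V 7} (hz : z ≠ 0) :
    ((PP μ z).card : ℤ) + 2 * (MM μ z).card = 4 + 6 * tau μ z ∧
      2 ∣ (PP μ z).card ∧ 2 ∣ (MM μ z).card := by
  have h1 := h.tau_spec hz
  rw [corr_eq h.sign, corr_sq_eq h.sign] at h1
  exact ⟨by linarith, even_PP μ hz, even_MM μ hz⟩

/-- direction with both types of pairs -/
def Mixed (μ : V 7 → ℤ) (z : V 7) : Prop := (PP μ z).Nonempty ∧ (MM μ z).Nonempty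

lemma Mixed.ne_zero {z : V 7} (hm : Mixed μ z) : z ≠ 0 := by
  rintro rfl
  obtain ⟨y, hy⟩ := hm.2
  rw [mem_MM, add_zero] at hy
  nlinarith [mul_self_nonneg (μ y)]

lemma Mixed.tau (h : Good μ) (h20 : ∑ y, μ y * μ y = 20) {z : V 7} (hm : Mixed μ z) :
    tau μ z = 1 := by
  obtain ⟨h1, ⟨a, ha⟩, ⟨b, hb⟩⟩ := h.counts hm.ne_zero
  have h2 := hm.1.card_pos
  have h3 := hm.2.card_pos
  rcases h.tau_cases h20 z with h4 | h4
  · rw [h4, ha, hb] at h1
    push_cast at h1
    omega
  · exact h4

lemma mixed_of (hμ : IsSign μ) {a m z : V 7} (ha : μ a * μ (a + z) = 1)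
    (hm : μ m * μ (m + z) = -1) : Mixed μ (a + m) ∧ Mixed μ (a + m + z) := by
  have key : ∀ {u v w : V 7}, (μ u * μ (u + w)) * (μ v * μ (v + w)) = -1 → Mixed μ w := by
    intro u v w huv
    rcases mul_cases hμ u (u + w) with h1 | h1 | h1
    · rw [h1] at huv; norm_num at huv
    · rw [h1] at huv
      exact ⟨⟨u, mem_PP.2 h1⟩, ⟨v, mem_MM.2 (by linarith)⟩⟩
    · rw [h1] at huv
      exact ⟨⟨v, mem_PP.2 (by linarith)⟩, ⟨u, mem_MM.2 h1⟩⟩
  constructor
  · apply key (u := a) (v := a + z)
    have e1 : a + (a + m) = m := add_self_add _ _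
    have e2 : a + z + (a + m) = m + z := by
      rw [add_comm a z, add_assoc, add_self_add, add_comm]
    rw [e1, e2]
    calc (μ a * μ m) * (μ (a + z) * μ (m + z)) = (μ a * μ (a + z)) * (μ m * μ (m + z)) := by ring
      _ = -1 := by rw [ha, hm]; norm_num
  · apply key (u := a) (v := a + z)
    have e1 : a + (a + m + z) = m + z := by rw [add_assoc a m z, add_self_add]
    have e2 : a + z + (a + m + z) = m := by
      have : a + z + (a + m + z) = (a + a) + (z + z) + m := by abel
      rw [this, add_self, add_self]; simp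
    rw [e1, e2]
    calc (μ a * μ (m + z)) * (μ (a + z) * μ m) = (μ a * μ (a + z)) * (μ m * μ (m + z)) := by ring
      _ = -1 := by rw [ha, hm]; norm_num

lemma no_mixed (h : Good μ) (h20 : ∑ y, μ y * μ y = 20) (hs : (∑ y, μ y) ^ 2 = 36) (z : V 7) :
    ¬ Mixed μ z := by
  classical
  intro hmix
  have hz := hmix.ne_zero
  set X : Finset (V 7) := univ.filter (fun x => tau μ x = 1) with hX
  have hXcard : X.card = 9 := by
    have h1 := h.sum_tau h20
    rw [hs] at h1
    have h2 : ∑ z, tau μ z = (X.card : ℤ) := by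
      rw [hX, Finset.card_filter]
      push_cast
      refine Finset.sum_congr rfl fun x _ => ?_
      rcases h.tau_cases h20 x with h4 | h4 <;> rw [h4] <;> norm_num
    rw [h2] at h1
    omega
  have hXmem : ∀ {x : V 7}, Mixed μ x → x ∈ X := by
    intro x hx
    rw [hX, Finset.mem_filter]
    exact ⟨Finset.mem_univ _, hx.tau h h20⟩
  -- two lines through `z`
  have hlines : ∃ w1 w2 : V 7, Mixed μ w1 ∧ Mixed μ (w1 + z) ∧ Mixed μ w2 ∧ Mixed μ (w2 + z) ∧
      w1 ≠ z ∧ w2 ≠ z ∧ w2 ≠ w1 ∧ w2 ≠ w1 + z := by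
    obtain ⟨⟨a, ha⟩, ⟨m, hm⟩⟩ := hmix
    have hwne : ∀ {a m : V 7}, a ∈ PP μ z → m ∈ MM μ z → a + m ≠ z := by
      intro a m ha hm hw
      have e : m = a + z := by rw [← hw, add_self_add]
      rw [mem_PP] at ha
      rw [mem_MM, e, add_add_self, mul_comm] at hm
      rw [ha] at hm; norm_num at hm
    have hmk : ∀ {a m : V 7}, a ∈ PP μ z → m ∈ MM μ z →
        Mixed μ (a + m) ∧ Mixed μ (a + m + z) := by
      intro a m ha hm
      exact mixed_of h.sign (mem_PP.1 ha) (mem_MM.1 hm)
    obtain ⟨h1, ⟨p, hp⟩, ⟨q, hq⟩⟩ := h.counts hz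
    have htau : tau μ z = 1 := Mixed.tau h h20 ⟨⟨a, ha⟩, ⟨m, hm⟩⟩
    have hp0 : 0 < (PP μ z).card := Finset.card_pos.2 ⟨a, ha⟩
    have hq0 : 0 < (MM μ z).card := Finset.card_pos.2 ⟨m, hm⟩
    rw [htau] at h1
    have hcase : 6 ≤ (PP μ z).card ∨ 4 ≤ (MM μ z).card := by omega
    rcases hcase with hc | hc
    · obtain ⟨a2, ha2, hne⟩ : ∃ a2 ∈ PP μ z, a2 ∉ ({a, a + z} : Finset (V 7)) := by
        by_contra hno
        push Not at hno
        have h2 := Finset.card_le_card (show PP μ z ⊆ {a, a + z} from hno)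
        have h3 : ({a, a + z} : Finset (V 7)).card ≤ 2 := Finset.card_le_two
        omega
      rw [Finset.mem_insert, Finset.mem_singleton, not_or] at hne
      refine ⟨a + m, a2 + m, (hmk ha hm).1, (hmk ha hm).2, (hmk ha2 hm).1, (hmk ha2 hm).2,
        hwne ha hm, hwne ha2 hm, fun e => hne.1 (add_right_cancel e), fun e => hne.2 ?_⟩
      have e' : a2 + m = (a + z) + m := by rw [e]; abel
      exact add_right_cancel e'
    · obtain ⟨m2, hm2, hne⟩ : ∃ m2 ∈ MM μ z, m2 ∉ ({m, m + z} : Finset (V 7)) := by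
        by_contra hno
        push Not at hno
        have h2 := Finset.card_le_card (show MM μ z ⊆ {m, m + z} from hno)
        have h3 : ({m, m + z} : Finset (V 7)).card ≤ 2 := Finset.card_le_two
        omega
      rw [Finset.mem_insert, Finset.mem_singleton, not_or] at hne
      refine ⟨a + m, a + m2, (hmk ha hm).1, (hmk ha hm).2, (hmk ha hm2).1, (hmk ha hm2).2,
        hwne ha hm, hwne ha hm2, fun e => hne.1 (add_left_cancel e), fun e => hne.2 ?_⟩
      have e' : a + m2 = a + (m + z) := by rw [e]; abel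
      exact add_left_cancel e'
  obtain ⟨w1, w2, hw1, hw1z, hw2, hw2z, n1, n2, n3, n4⟩ := hlines
  obtain ⟨d, hdX, hd⟩ : ∃ d ∈ X, d ∉ ({z, w1, w2, w1 + z, w2 + z} : Finset (V 7)) := by
    by_contra hno
    push Not at hno
    have h2 := Finset.card_le_card (show X ⊆ {z, w1, w2, w1 + z, w2 + z} from hno)
    have h3 : ({z, w1, w2, w1 + z, w2 + z} : Finset (V 7)).card ≤ 5 := Finset.card_le_five
    omega
  simp only [Finset.mem_insert, Finset.mem_singleton, not_or] at hd
  obtain ⟨d0, d1, d2, d3, d4⟩ := hd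
  set Y : Finset (V 7) := ((X.erase d).erase (w1 + z)).erase (w2 + z) with hY
  have hYcard : Y.card = 6 := by
    rw [hY, Finset.card_erase_of_mem, Finset.card_erase_of_mem, Finset.card_erase_of_mem hdX, hXcard]
    · rw [Finset.mem_erase]; exact ⟨fun e => d3 e.symm, hXmem hw1z⟩
    · rw [Finset.mem_erase, Finset.mem_erase]
      exact ⟨fun e => n3 (add_right_cancel e), fun e => d4 e.symm, hXmem hw2z⟩
  obtain ⟨c, hc0, hc⟩ := exists_orthogonal Y (by rw [hYcard])
  have hz0 : w1 + z ≠ z := by
    intro e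
    have : w1 = 0 := by simpa using e
    exact hw1.ne_zero this
  have hz0' : w2 + z ≠ z := by
    intro e
    have : w2 = 0 := by simpa using e
    exact hw2.ne_zero this
  have hzY : z ∈ Y := by
    rw [hY]
    simp only [Finset.mem_erase]
    exact ⟨fun e => hz0' e.symm, fun e => hz0 e.symm, fun e => d0 e.symm, hXmem hmix⟩
  have hw1Y : w1 ∈ Y := by
    rw [hY]
    simp only [Finset.mem_erase]
    refine ⟨fun e => n4 ?_, fun e => hz ?_, fun e => d1 e.symm, hXmem hw1⟩
    · rw [e, add_add_self]
    · simpa using e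
  have hw2Y : w2 ∈ Y := by
    rw [hY]
    simp only [Finset.mem_erase]
    refine ⟨fun e => hz ?_, fun e => n4 e, fun e => d2 e.symm, hXmem hw2⟩
    · simpa using e
  have hcz := hc z hzY
  have hcw1 := hc w1 hw1Y
  have hcw2 := hc w2 hw2Y
  have hall : ∀ x ∈ X.erase d, chi c x = 1 := by
    intro x hx
    by_cases e2 : x = w2 + z
    · rw [e2, chi_add_right, hcz, hcw2]; norm_num
    · by_cases e1 : x = w1 + z
      · rw [e1, chi_add_right, hcz, hcw1]; norm_num
      · apply hc
        rw [hY]
        simp only [Finset.mem_erase] at hx ⊢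
        exact ⟨e2, e1, hx.1, hx.2⟩
  have hhat : hat (tau μ) c = 8 + chi c d := by
    have e1 : hat (tau μ) c = ∑ x ∈ X, chi c x := by
      unfold hat
      rw [hX, Finset.sum_filter]
      refine Finset.sum_congr rfl fun x _ => ?_
      rcases h.tau_cases h20 x with h4 | h4 <;> rw [h4] <;> norm_num
    rw [e1, ← Finset.sum_erase_add _ _ hdX, Finset.sum_congr rfl hall, Finset.sum_const,
      Finset.card_erase_of_mem hdX, hXcard]
    norm_num
  have h1 := h.hat_tau h20 hc0
  rw [hhat] at h1
  have hF3 : ¬ (3 : ℤ) ∣ hat μ c := fun h' => hc0 ((h.zero_iff c).1 h')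
  obtain ⟨b1, b2, b3, b4⟩ := hat_bounds h.sign h20 c
  have hck := finite_check_six (hat μ c) (by rw [Finset.mem_Icc]; constructor <;> linarith)
    (hat (sq μ) c) (by rw [Finset.mem_Icc]; constructor <;> linarith) hF3
  rcases chi_cases c d with h2 | h2
  · rw [h2] at h1; exact hck.2 (by linarith)
  · rw [h2] at h1; exact hck.1 (by linarith)

theorem sum_ne_six (h : Good μ) (h20 : ∑ y, μ y * μ y = 20) : ∑ y, μ y ≠ 6 := by
  classical
  intro hs
  have hs2 : (∑ y, μ y) ^ 2 = 36 := by rw [hs]; norm_num
  have hno := no_mixed h h20 hs2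
  have hμ := h.sign
  set X : Finset (V 7) := univ.filter (fun x => tau μ x = 1) with hX
  have hXcard : X.card = 9 := by
    have h1 := h.sum_tau h20
    rw [hs2] at h1
    have h2 : ∑ z, tau μ z = (X.card : ℤ) := by
      rw [hX, Finset.card_filter]
      push_cast
      refine Finset.sum_congr rfl fun x _ => ?_
      rcases h.tau_cases h20 x with h4 | h4 <;> rw [h4] <;> norm_num
    rw [h2] at h1
    omega
  have hX0 : (0 : V 7) ∉ X := by
    rw [hX, Finset.mem_filter, tau_zero]; simp
  -- a minus count of at least four is impossible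
  have hMM : ∀ z : V 7, z ≠ 0 → (MM μ z).card < 4 := by
    intro z hz
    by_contra hge
    push Not at hge
    obtain ⟨h1, ⟨p, hp⟩, ⟨q, hq⟩⟩ := h.counts hz
    have h2 := h.tau_cases h20 z
    apply hno z
    constructor
    · rw [← Finset.card_pos]; omega
    · rw [← Finset.card_pos]; omega
  have hten : ∀ z ∈ X, (PP μ z).card = 10 ∧ (MM μ z).card = 0 := by
    intro z hz
    have hz0 : z ≠ 0 := fun e => hX0 (e ▸ hz)
    obtain ⟨h1, ⟨p, hp⟩, ⟨q, hq⟩⟩ := h.counts hz0
    rw [hX, Finset.mem_filter] at hz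
    rw [hz.2] at h1
    have h3 := hMM z hz0
    have h4 : ¬ (0 < (PP μ z).card ∧ 0 < (MM μ z).card) := by
      intro h5
      exact hno z ⟨Finset.card_pos.1 h5.1, Finset.card_pos.1 h5.2⟩
    omega
  have hfew : ∀ z : V 7, z ≠ 0 → z ∉ X → (PP μ z).card ≤ 4 := by
    intro z hz0 hz
    obtain ⟨h1, -, -⟩ := h.counts hz0
    have : tau μ z = 0 := by
      rcases h.tau_cases h20 z with h4 | h4
      · exact h4
      · exfalso; apply hz; rw [hX, Finset.mem_filter]; exact ⟨Finset.mem_univ _, h4⟩
    rw [this] at h1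
    omega
  -- all plus pairs of a direction in `X` have the same sign
  have hsame : ∀ z ∈ X, ∀ a ∈ PP μ z, ∀ b ∈ PP μ z, μ a = μ b := by
    intro z hz a ha b hb
    by_contra hne
    have hz0 : z ≠ 0 := fun e => hX0 (e ▸ hz)
    rw [mem_PP] at ha hb
    have ha1 : μ a = 1 ∨ μ a = -1 := by
      rcases hμ a with e | e | e
      · rw [e] at ha; norm_num at ha
      · left; exact e
      · right; exact e
    have hb1 : μ b = 1 ∨ μ b = -1 := by
      rcases hμ b with e | e | e
      · rw [e] at hb; norm_num at hb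
      · left; exact e
      · right; exact e
    have haz : μ (a + z) = μ a := by
      rcases ha1 with e | e <;> rw [e] at ha ⊢ <;> linarith
    have hbz : μ (b + z) = μ b := by
      rcases hb1 with e | e <;> rw [e] at hb ⊢ <;> linarith
    have hprod : μ a * μ b = -1 := by
      rcases ha1 with e | e <;> rcases hb1 with e' | e'
      · exact absurd (e.trans e'.symm) hne
      · rw [e, e']; norm_num
      · rw [e, e']; norm_num
      · exact absurd (e.trans e'.symm) hne
    have hba : b ≠ a := fun e => hne (by rw [e])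
    have hbaz : b ≠ a + z := fun e => hne (by rw [e, haz])
    have hab0 : a + b ≠ 0 := fun e => hba ((add_eq_zero_iff' _ _).1 e).symm
    have hsub : ({a, b, a + z, b + z} : Finset (V 7)) ⊆ MM μ (a + b) := by
      intro y hy
      simp only [Finset.mem_insert, Finset.mem_singleton] at hy
      rw [mem_MM]
      rcases hy with rfl | rfl | rfl | rfl
      · rw [add_self_add]; exact hprod
      · rw [add_comm a y, add_self_add, mul_comm]; exact hprod
      · have : a + z + (a + b) = b + z := by
          rw [add_comm a z, add_assoc, add_self_add, add_comm]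
        rw [this, haz, hbz]; exact hprod
      · have : b + z + (a + b) = a + z := by
          rw [add_comm a b, add_comm b z, add_assoc, add_self_add, add_comm]
        rw [this, haz, hbz, mul_comm]; exact hprod
    have h4 := Finset.card_le_card hsub
    rw [four_card hz0 hba hbaz] at h4
    have := hMM _ hab0
    omega
  -- counts of the signs
  set Sp : Finset (V 7) := univ.filter (fun y => μ y = 1) with hSp
  set Sm : Finset (V 7) := univ.filter (fun y => μ y = -1) with hSm
  have hSpm : (Sp.card : ℤ) - Sm.card = 6 := by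
    rw [← hs, hSp, hSm, Finset.card_filter, Finset.card_filter]
    push_cast
    rw [← Finset.sum_sub_distrib]
    refine Finset.sum_congr rfl fun y _ => ?_
    rcases hμ y with e | e | e <;> rw [e] <;> norm_num
  have hSpm' : (Sp.card : ℤ) + Sm.card = 20 := by
    rw [← h20, hSp, hSm, Finset.card_filter, Finset.card_filter]
    push_cast
    rw [← Finset.sum_add_distrib]
    refine Finset.sum_congr rfl fun y _ => ?_
    rcases hμ y with e | e | e <;> rw [e] <;> norm_num
  have hSpc : Sp.card = 13 := by omega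
  have hSmc : Sm.card = 7 := by omega
  have hplus : ∀ z ∈ X, ∀ a ∈ PP μ z, μ a = 1 := by
    intro z hz a ha
    by_contra hne
    have ha1 : μ a = -1 := by
      rw [mem_PP] at ha
      rcases hμ a with e | e | e
      · rw [e] at ha; norm_num at ha
      · exact absurd e hne
      · exact e
    have hsub : PP μ z ⊆ Sm := by
      intro b hb
      rw [hSm, Finset.mem_filter]
      exact ⟨Finset.mem_univ _, by rw [← hsame z hz a ha b hb]; exact ha1⟩
    have h1 := Finset.card_le_card hsub
    rw [(hten z hz).1, hSmc] at h1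
    omega
  have hsubp : ∀ z ∈ X, PP μ z ⊆ Sp := by
    intro z hz b hb
    rw [hSp, Finset.mem_filter]
    exact ⟨Finset.mem_univ _, hplus z hz b hb⟩
  have hclosed : ∀ z ∈ X, ∀ z' ∈ X, z ≠ z' → z + z' ∈ X := by
    intro z hz z' hz' hne
    by_contra hnot
    have hzz0 : z + z' ≠ 0 := fun e => hne ((add_eq_zero_iff' _ _).1 e)
    have h1 := hfew _ hzz0 hnot
    have h2 : 7 ≤ (PP μ z ∩ PP μ z').card := by
      have h3 := Finset.card_union_add_card_inter (PP μ z) (PP μ z')
      have h4 := Finset.card_le_card (Finset.union_subset (hsubp z hz) (hsubp z' hz'))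
      rw [(hten z hz).1, (hten z' hz').1] at h3
      rw [hSpc] at h4
      omega
    have h3 : (PP μ z ∩ PP μ z').card ≤ (PP μ (z + z')).card := by
      refine Finset.card_le_card_of_injOn (fun y => y + z) ?_ ?_
      · intro y hy
        rw [Finset.mem_coe, Finset.mem_inter] at hy
        rw [Finset.mem_coe, mem_PP]
        have e1 := hplus z hz y hy.1
        have e2 := hplus z' hz' y hy.2
        have e3 := mem_PP.1 hy.1
        have e4 := mem_PP.1 hy.2
        rw [e1, one_mul] at e3 e4
        have e5 : y + z + (z + z') = y + z' := by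
          rw [← add_assoc, add_add_self]
        rw [e5, e3, e4]; norm_num
      · intro y _ y' _ e
        exact add_right_cancel e
    omega
  -- the subgroup
  let H : AddSubgroup (V 7) :=
    { carrier := {x | x = 0 ∨ x ∈ X}
      add_mem' := by
        intro a b ha hb
        rcases ha with rfl | ha
        · rw [zero_add]; exact hb
        · rcases hb with rfl | hb
          · rw [add_zero]; right; exact ha
          · by_cases e : a = b
            · left; rw [e]; exact add_self b
            · right; exact hclosed a ha b hb e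
      zero_mem' := Or.inl rfl
      neg_mem' := by
        intro a ha
        have : -a = a := by
          have := add_self a
          exact neg_eq_of_add_eq_zero_left this
        rw [this]; exact ha }
  have hHcard : Nat.card H = 10 := by
    have e1 : (H : Set (V 7)) = ((insert 0 X : Finset (V 7)) : Set (V 7)) := by
      ext x
      simp only [Finset.coe_insert, Set.mem_insert_iff, Finset.mem_coe]
      rfl
    have e2 : Nat.card H = Nat.card (H : Set (V 7)) := rfl
    rw [e2, e1, Nat.card_coe_set_eq, Set.ncard_coe_finset, Finset.card_insert_of_notMem hX0, hXcard]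
  have hdvd := AddSubgroup.card_addSubgroup_dvd_card H
  rw [hHcard, Nat.card_eq_fintype_card, card_V] at hdvd
  omega

lemma Good.neg (h : Good μ) : Good (fun y => - μ y) := by
  constructor
  · intro y
    rcases h.sign y with e | e | e <;> simp only [e] <;> norm_num
  · intro c
    have : hat (fun y => - μ y) c = - hat μ c := by
      unfold hat
      rw [← Finset.sum_neg_distrib]
      exact Finset.sum_congr rfl fun y _ => by ring
    rw [this, dvd_neg]
    exact h.zero_iff c

theorem sum_ne_neg_six (h : Good μ) (h20 : ∑ y, μ y * μ y = 20) : ∑ y, μ y ≠ -6 := by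
  intro hs
  refine sum_ne_six h.neg ?_ ?_
  · rw [← h20]; exact Finset.sum_congr rfl fun y _ => by ring
  · rw [Finset.sum_neg_distrib, hs]; norm_num

end Pool.Agent.BB931D
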