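import Pool.Agent.Lib_MP_bb931d_co.SZero
import Pool.Agent.Lib_MP_bb931d_co.SSix

/-!
From minimal zero-sum sequences over `C_2^12 + C_3` to sign functions on `V k`.
-/

set_option autoImplicit false

namespace Pool.Agent.BB931D

open Finset

theorem core7 {μ : V 7 → ℤ} (h : Good μ) (hle : ∑ y, μ y * μ y ≤ 20) :
    ∑ y, μ y * μ y = 20 ∧ (∑ y, μ y) ^ 2 = 144 := by
  obtain ⟨h20, hs⟩ := h.size_sum hle
  refine ⟨h20, ?_⟩
  have h1 := sum_ne_zero h h20
  have h2 := sum_ne_six h h20
  have h3 := sum_ne_neg_six h h20
  have h4 := h.sum_mod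
  have h5 : (2 : ℤ) ∣ (∑ y, μ y * μ y) - ∑ y, μ y := sum_sub_even h.sign
  rw [h20] at h5
  set s := ∑ y, μ y with hsdef
  have h6 : s ≤ 12 := by nlinarith
  have h7 : -12 ≤ s := by nlinarith
  have h8 : s = 12 ∨ s = -12 := by omega
  rcases h8 with e | e <;> rw [e] <;> norm_num

/-- the symmetric lift from `ZMod 3` to the integers -/
def ep (a : ZMod 3) : ℤ := if a = 0 then 0 else if a = 1 then 1 else -1

lemma ep_cast (a : ZMod 3) : ((ep a : ℤ) : ZMod 3) = a := by
  revert a; decide

lemma ep_neg (a : ZMod 3) : ep (-a) = - ep a := by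
  revert a; decide

lemma ep_cases (a : ZMod 3) : ep a = 0 ∨ ep a = 1 ∨ ep a = -1 := by
  revert a; decide

theorem exists_y (k : ℕ) (x : Fin (k + 13) → Fin 12 → ZMod 2) (a : Fin (k + 13) → ZMod 3)
    (ha : ∑ i, a i = 0)
    (hmin : ∀ T : Finset (Fin (k + 13)), ∑ i ∈ T, x i = 0 → ∑ i ∈ T, a i = 0 →
      T = ∅ ∨ T = univ) :
    ∃ y : Fin (k + 13) → V k, ∀ c : V k, (3 : ℤ) ∣ ∑ i, ep (a i) * chi c (y i) ↔ c = 0 := by
  classical
  let Φ : (Fin (k + 13) → ZMod 2) →ₗ[ZMod 2] ((Fin 12 → ZMod 2) × ZMod 2) :=
    (Fintype.linearCombination (ZMod 2) x).prod (LinearMap.proj (Fin.last (k + 12)))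
  have hrank : k ≤ Module.finrank (ZMod 2) (LinearMap.ker Φ) := by
    have h1 := LinearMap.finrank_range_add_finrank_ker Φ
    have h2 : Module.finrank (ZMod 2) (Fin (k + 13) → ZMod 2) = k + 13 := by simp
    have h3 : Module.finrank (ZMod 2) ((Fin 12 → ZMod 2) × ZMod 2) = 13 := by simp
    have h4 := Submodule.finrank_le (LinearMap.range Φ)
    rw [h3] at h4
    rw [h2] at h1
    omega
  obtain ⟨b, hb⟩ := exists_linearIndependent_of_le_finrank hrank
  refine ⟨fun i j => (b j : Fin (k + 13) → ZMod 2) i, fun c => ?_⟩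
  -- the subset attached to `c`
  set e : Fin (k + 13) → ZMod 2 := fun i => dot c (fun j => (b j : Fin (k + 13) → ZMod 2) i) with he
  have he' : e = ((∑ j, c j • b j : LinearMap.ker Φ) : Fin (k + 13) → ZMod 2) := by
    funext i
    rw [he]
    simp only [dot, Submodule.coe_sum, Submodule.coe_smul, Finset.sum_apply, Pi.smul_apply,
      smul_eq_mul]
  have hker : Φ e = 0 := by
    rw [he']; exact (∑ j, c j • b j : LinearMap.ker Φ).2
  have hker1 : ∑ i, e i • x i = 0 := by
    have := congrArg Prod.fst hker
    simpa [Φ, Fintype.linearCombination_apply] using this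
  have hker2 : e (Fin.last (k + 12)) = 0 := by
    have := congrArg Prod.snd hker
    simpa [Φ] using this
  set T : Finset (Fin (k + 13)) := univ.filter (fun i => e i = 1) with hT
  have hval : ∀ t : ZMod 2, t = 0 ∨ t = 1 := by decide
  have hTx : ∑ i ∈ T, x i = 0 := by
    rw [← hker1, hT, Finset.sum_filter]
    refine Finset.sum_congr rfl fun i _ => ?_
    rcases hval (e i) with h | h <;> rw [h]
    · rw [if_neg (by decide), zero_smul]
    · rw [if_pos rfl, one_smul]
  have hTuniv : T ≠ univ := by
    intro h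
    have : Fin.last (k + 12) ∈ T := by rw [h]; exact Finset.mem_univ _
    rw [hT, Finset.mem_filter, hker2] at this
    exact absurd this.2 (by decide)
  have hsum : (((∑ i, ep (a i) * chi c (fun j => (b j : Fin (k + 13) → ZMod 2) i) : ℤ)) : ZMod 3)
      = ∑ i ∈ T, a i := by
    have h1 : ∀ i, ((ep (a i) * chi c (fun j => (b j : Fin (k + 13) → ZMod 2) i) : ℤ) : ZMod 3)
        = a i + (if e i = 1 then a i else 0) := by
      intro i
      push_cast
      rw [ep_cast]
      have : chi c (fun j => (b j : Fin (k + 13) → ZMod 2) i) = sg (e i) := rfl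
      rw [this]
      rcases hval (e i) with h | h <;> rw [h]
      · rw [if_neg (by decide), sg_zero]; push_cast; ring
      · rw [if_pos rfl]
        have : sg 1 = -1 := by decide
        rw [this]
        generalize a i = t
        revert t; decide
    rw [Int.cast_sum]
    rw [Finset.sum_congr rfl fun i _ => h1 i, Finset.sum_add_distrib, ha, zero_add, hT,
      Finset.sum_filter]
  have hiff : (3 : ℤ) ∣ ∑ i, ep (a i) * chi c (fun j => (b j : Fin (k + 13) → ZMod 2) i)
      ↔ ∑ i ∈ T, a i = 0 := by
    rw [← hsum]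
    exact (ZMod.intCast_zmod_eq_zero_iff_dvd _ 3).symm
  rw [hiff]
  constructor
  · intro h
    rcases hmin T hTx h with h0 | h0
    · -- then `e = 0`
      have he0 : e = 0 := by
        funext i
        rcases hval (e i) with h' | h'
        · exact h'
        · exfalso
          have : i ∈ T := by rw [hT, Finset.mem_filter]; exact ⟨Finset.mem_univ _, h'⟩
          rw [h0] at this
          exact absurd this (Finset.notMem_empty _)
      rw [he'] at he0
      have h1 : (∑ j, c j • b j : LinearMap.ker Φ) = 0 := Subtype.ext he0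
      have h2 := Fintype.linearIndependent_iff.1 hb c h1
      funext j; exact h2 j
    · exact absurd h0 hTuniv
  · intro hc
    have he0 : e = 0 := by
      funext i
      rw [he, hc]
      simp [dot]
    have : T = ∅ := by
      rw [hT, he0]
      apply Finset.filter_false_of_mem
      intro i _
      simp
    rw [this, Finset.sum_empty]

section push

variable {k L : ℕ}

/-- the push-forward of a weight -/
def push (y : Fin L → V k) (w : Fin L → ℤ) (v : V k) : ℤ := ∑ i, if y i = v then w i else 0

lemma sum_push_mul (y : Fin L → V k) (w : Fin L → ℤ) (g : V k → ℤ) :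
    ∑ v, push y w v * g v = ∑ i, w i * g (y i) := by
  unfold push
  simp_rw [Finset.sum_mul]
  rw [Finset.sum_comm]
  refine Finset.sum_congr rfl fun i _ => ?_
  rw [Finset.sum_eq_single (y i)]
  · rw [if_pos rfl]
  · intro v _ hv
    rw [if_neg (fun h => hv h.symm), zero_mul]
  · intro h; exact absurd (Finset.mem_univ _) h

lemma sum_push (y : Fin L → V k) (w : Fin L → ℤ) : ∑ v, push y w v = ∑ i, w i := by
  have := sum_push_mul y w (fun _ => 1)
  simpa using this

lemma hat_resid_push (y : Fin L → V k) (w : Fin L → ℤ) (c : V k) :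
    (3 : ℤ) ∣ hat (fun v => resid (push y w v)) c - ∑ i, w i * chi c (y i) := by
  rw [← sum_push_mul y w (fun v => chi c v)]
  unfold hat
  rw [← Finset.sum_sub_distrib]
  refine Finset.dvd_sum fun v _ => ?_
  rw [← sub_mul]
  exact Dvd.dvd.mul_right (resid_dvd _) _

lemma fiber_sum (y : Fin L → V k) :
    ∑ v, ((univ.filter fun i => y i = v).card : ℤ) = L := by
  have h1 : ∀ v, ((univ.filter fun i => y i = v).card : ℤ) = push y (fun _ => 1) v := by
    intro v
    unfold push
    rw [Finset.card_filter]; push_cast; rfl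
  simp_rw [h1]
  rw [sum_push]
  simp

lemma resid_sq_le (y : Fin L → V k) (w : Fin L → ℤ) (v : V k) :
    resid (push y w v) * resid (push y w v) ≤ ((univ.filter fun i => y i = v).card : ℤ) := by
  by_cases h : (univ.filter fun i => y i = v) = ∅
  · have h1 : push y w v = 0 := by
      unfold push
      refine Finset.sum_eq_zero fun i _ => ?_
      rw [if_neg]
      intro hi
      have : i ∈ (univ.filter fun i => y i = v) := by
        rw [Finset.mem_filter]; exact ⟨Finset.mem_univ _, hi⟩
      rw [h] at this
      exact absurd this (Finset.notMem_empty _)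
    rw [h1, h]
    simp [resid]
  · have h1 : 0 < (univ.filter fun i => y i = v).card :=
      Finset.card_pos.2 (Finset.nonempty_iff_ne_empty.2 h)
    have h2 : (1 : ℤ) ≤ ((univ.filter fun i => y i = v).card : ℤ) := by exact_mod_cast h1
    rcases resid_cases (push y w v) with e | e | e <;> rw [e] <;> linarith

lemma resid_size_le (y : Fin L → V k) (w : Fin L → ℤ) :
    ∑ v, resid (push y w v) * resid (push y w v) ≤ L := by
  rw [← fiber_sum y]
  exact Finset.sum_le_sum fun v _ => resid_sq_le y w v

lemma resid_sum_eq (y : Fin L → V k) (w : Fin L → ℤ) (hw : ∀ i, w i = 0 ∨ w i = 1 ∨ w i = -1)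
    (hL : ∑ v, resid (push y w v) * resid (push y w v) = L) :
    ∑ v, resid (push y w v) = ∑ i, w i := by
  rw [← sum_push y w]
  rw [← fiber_sum y] at hL
  have h1 := (Finset.sum_eq_sum_iff_of_le fun v _ => resid_sq_le y w v).1 hL
  refine Finset.sum_congr rfl fun v _ => ?_
  have h2 := h1 v (Finset.mem_univ _)
  have h3 : (univ.filter fun i => y i = v).card ≤ 1 := by
    have : resid (push y w v) * resid (push y w v) ≤ 1 := by
      rcases resid_cases (push y w v) with e | e | e <;> rw [e] <;> norm_num
    rw [h2] at this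
    exact_mod_cast this
  apply resid_of_small
  rcases Nat.le_one_iff_eq_zero_or_eq_one.1 h3 with h4 | h4
  · left
    rw [Finset.card_eq_zero] at h4
    unfold push
    rw [← Finset.sum_filter, h4, Finset.sum_empty]
  · obtain ⟨i, hi⟩ := Finset.card_eq_one.1 h4
    unfold push
    rw [← Finset.sum_filter, hi, Finset.sum_singleton]
    exact hw i

end push

/-- sequences of length 20 -/
theorem long_sequence (x : Fin 20 → Fin 12 → ZMod 2) (a : Fin 20 → ZMod 3)
    (ha : ∑ i, a i = 0)
    (hmin : ∀ T : Finset (Fin 20), ∑ i ∈ T, x i = 0 → ∑ i ∈ T, a i = 0 → T = ∅ ∨ T = univ) :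
    (∑ i, ep (a i)) ^ 2 = 144 := by
  obtain ⟨y, hy⟩ := exists_y 7 x a ha hmin
  have hgood : Good (fun v => resid (push y (fun i => ep (a i)) v)) := by
    constructor
    · intro v; exact resid_cases _
    · intro c
      rw [← hy c]
      have := hat_resid_push y (fun i => ep (a i)) c
      constructor
      · intro h
        have h2 := dvd_sub h this
        simpa using h2
      · intro h
        have h2 := dvd_add this h
        simpa using h2
  obtain ⟨h1, h2⟩ := core7 hgood (resid_size_le y _)
  have h3 := resid_sum_eq y (fun i => ep (a i)) (fun i => ep_cases _) h1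
  rw [h3] at h2
  exact h2

/-- sequences of length 21 -/
theorem no_longer_sequence (x : Fin 21 → Fin 12 → ZMod 2) (a : Fin 21 → ZMod 3)
    (ha : ∑ i, a i = 0)
    (hmin : ∀ T : Finset (Fin 21), ∑ i ∈ T, x i = 0 → ∑ i ∈ T, a i = 0 → T = ∅ ∨ T = univ) :
    False := by
  obtain ⟨y, hy⟩ := exists_y 8 x a ha hmin
  refine no_dim_eight (μ := fun v => resid (push y (fun i => ep (a i)) v))
    (fun v => resid_cases _) (fun c => ?_) (resid_size_le y _)
  rw [← hy c]
  have := hat_resid_push y (fun i => ep (a i)) c
  constructor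
  · intro h
    have h2 := dvd_sub h this
    simpa using h2
  · intro h
    have h2 := dvd_add this h
    simpa using h2

end Pool.Agent.BB931D
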