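import Pool.Agent.Lib_MP_bb931d_co.Basic7

/-!
Exclusion of total sum `0`.
-/

set_option autoImplicit false

namespace Pool.Agent.BB931D

open Finset

variable {μ : V 7 → ℤ}

/-- the parity vector -/
noncomputable def zz (μ : V 7 → ℤ) : V 7 := fun i => ∑ y, (μ y : ZMod 2) * y i

lemma dot_zz (μ : V 7 → ℤ) (c : V 7) : dot c (zz μ) = ∑ y, (μ y : ZMod 2) * dot c y := by
  unfold dot zz
  simp_rw [Finset.mul_sum]
  rw [Finset.sum_comm]
  refine Finset.sum_congr rfl fun y _ => Finset.sum_congr rfl fun i _ => by ring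

lemma sg_val (a : ZMod 2) : sg a = 1 - 2 * (a.val : ℤ) := by
  revert a; decide

lemma four_dvd_iff (hs : ∑ y, μ y = 0) (c : V 7) :
    (4 : ℤ) ∣ hat μ c ↔ chi c (zz μ) = 1 := by
  have h1 : hat μ c = -2 * ∑ y, μ y * ((dot c y).val : ℤ) := by
    have : hat μ c = ∑ y, (μ y - 2 * (μ y * ((dot c y).val : ℤ))) := by
      unfold hat
      refine Finset.sum_congr rfl fun y _ => ?_
      unfold chi
      rw [sg_val]; ring
    rw [this, Finset.sum_sub_distrib, hs, ← Finset.mul_sum]; ring
  have h2 : ((∑ y, μ y * ((dot c y).val : ℤ) : ℤ) : ZMod 2) = dot c (zz μ) := by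
    rw [dot_zz]
    push_cast
    refine Finset.sum_congr rfl fun y _ => ?_
    rw [ZMod.natCast_val, ZMod.cast_id]
  unfold chi
  rw [sg_eq_one_iff, ← h2, h1, ZMod.intCast_zmod_eq_zero_iff_dvd]
  constructor
  · intro h; push_cast; omega
  · intro h; push_cast at h; omega

lemma finite_check_zero : ∀ F ∈ Finset.Icc (-20 : ℤ) 20, ∀ T ∈ Finset.Icc (-20 : ℤ) 20,
    F + T ≤ 20 → -(F + T) ≤ 20 → F - T ≤ 20 → -(F - T) ≤ 20 → -112 ≤ 3 * T ^ 2 - F ^ 2 →
    ¬ (3 : ℤ) ∣ F → (4 : ℤ) ∣ F → (F ^ 2 - 16) * (F ^ 2 - 64) = 0 := by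
  decide +kernel

lemma hat_tau_bound (h : Good μ) (h20 : ∑ y, μ y * μ y = 20) (c : V 7) :
    -∑ z, tau μ z ≤ hat (tau μ) c := by
  unfold hat
  rw [← Finset.sum_neg_distrib]
  refine Finset.sum_le_sum fun z _ => ?_
  rcases h.tau_cases h20 z with h1 | h1 <;> rcases chi_cases c z with h2 | h2 <;> rw [h1, h2] <;>
    norm_num

theorem sum_ne_zero (h : Good μ) (h20 : ∑ y, μ y * μ y = 20) : ∑ y, μ y ≠ 0 := by
  intro hs
  set F := hat μ with hF
  set R := corr μ μ with hRdef
  have htau : ∑ z, tau μ z = 12 := by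
    have := h.sum_tau h20
    rw [hs] at this
    linarith
  -- values on the half space
  have hval : ∀ c : V 7, c ≠ 0 → chi c (zz μ) = 1 → (F c ^ 2 - 16) * (F c ^ 2 - 64) = 0 := by
    intro c hc hcz
    have h1 := h.hat_tau h20 hc
    have h2 := hat_tau_bound h h20 c
    rw [htau] at h2
    obtain ⟨b1, b2, b3, b4⟩ := hat_bounds h.sign h20 c
    rw [hs] at b1 b2 b3 b4
    have h3 : ¬ (3 : ℤ) ∣ hat μ c := fun h' => hc ((h.zero_iff c).1 h')
    have h4 := (four_dvd_iff hs c).2 hcz
    apply finite_check_zero (hat μ c) _ (hat (sq μ) c) _ _ _ _ _ _ h3 h4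
    · rw [Finset.mem_Icc]; constructor <;> linarith
    · rw [Finset.mem_Icc]; constructor <;> linarith
    all_goals linarith
  -- the main identity
  have hmain : ∀ c : V 7, (1 + chi c (zz μ)) * ((F c ^ 2 - 16) * (F c ^ 2 - 64))
      = if c = 0 then 2048 else 0 := by
    intro c
    by_cases hc : c = 0
    · subst hc
      rw [if_pos rfl, chi_zero_left, hF, hat_zero, hs]; norm_num
    · rw [if_neg hc]
      rcases chi_cases c (zz μ) with h1 | h1
      · rw [hval c hc h1]; ring
      · rw [h1]; ring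
  have hR0 : R 0 = 20 := by rw [hRdef, corr_zero, h20]
  have hFR : ∀ c, hat R c = F c * F c := fun c => hat_corr μ μ c
  have m4 : ∀ z, ∑ c, F c ^ 4 * chi c z = 128 * corr R R z := by
    intro z
    have := sum_hat_mul R R z
    rw [show (2 : ℤ) ^ 7 = 128 by norm_num] at this
    rw [← this]
    refine Finset.sum_congr rfl fun c _ => ?_
    rw [hFR]; ring
  have m2 : ∀ z, ∑ c, F c ^ 2 * chi c z = 128 * R z := by
    intro z
    have := sum_hat_mul μ μ z
    rw [show (2 : ℤ) ^ 7 = 128 by norm_num] at this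
    rw [← this]
    refine Finset.sum_congr rfl fun c _ => ?_
    rw [pow_two]
  have hsum : 128 * corr R R 0 + 128 * corr R R (zz μ) - 80 * (128 * R 0 + 128 * R (zz μ))
      + 1024 * (∑ c, chi c (0 : V 7) + ∑ c, chi c (zz μ)) = 2048 := by
    rw [← m4, ← m4, ← m2, ← m2]
    have : ∑ c, (1 + chi c (zz μ)) * ((F c ^ 2 - 16) * (F c ^ 2 - 64)) = 2048 := by
      simp_rw [hmain]; simp
    rw [← this, ← Finset.sum_add_distrib, ← Finset.sum_add_distrib, ← Finset.sum_add_distrib,
      Finset.mul_sum, Finset.mul_sum, ← Finset.sum_sub_distrib, ← Finset.sum_add_distrib]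
    refine Finset.sum_congr rfl fun c _ => ?_
    rw [chi_zero_right]; ring
  -- residues of the correlations
  have hRmod : ∀ z : V 7, z ≠ 0 → (6 : ℤ) ∣ R z - 4 := by
    intro z hz
    obtain ⟨a, b, -, -, h2, -⟩ := struct h.sign hz
    have h4 := h.corr_mod hz
    rw [hRdef]
    omega
  have hsumR : ∑ z, R z = 0 := by
    have : ∑ z, corr μ μ z = (∑ y, μ y) * (∑ y, μ y) := sum_corr μ μ
    rw [hRdef, this, hs]; ring
  by_cases hz : zz μ = 0
  · rw [hz, sum_chi, if_pos rfl, hR0] at hsum
    have h584 : corr R R 0 = 584 := by norm_num at hsum; linarith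
    rw [corr_zero] at h584
    have hlow : ∀ z, 2 * R z + 8 + (if z = 0 then 352 else 0) ≤ R z * R z := by
      intro z
      by_cases hz0 : z = 0
      · rw [hz0, if_pos rfl, hR0]; norm_num
      · rw [if_neg hz0]
        obtain ⟨k, hk⟩ := hRmod z hz0
        have hk' : R z = 6 * k + 4 := by linarith
        have hk2 : 0 ≤ k * (k + 1) := by
          rcases le_or_gt 0 k with h5 | h5
          · positivity
          · nlinarith
        rw [hk']; nlinarith
    have h5 := Finset.sum_le_sum (fun z (_ : z ∈ (univ : Finset (V 7))) => hlow z)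
    rw [h584, Finset.sum_add_distrib, Finset.sum_add_distrib, ← Finset.mul_sum, hsumR,
      Finset.sum_const, Finset.card_univ, card_V, Finset.sum_ite_eq', if_pos (Finset.mem_univ _)] at h5
    norm_num at h5
  · rw [sum_chi, if_pos rfl, sum_chi_ne hz, hR0] at hsum
    set r := R (zz μ) with hr
    have h592 : corr R R 0 + corr R R (zz μ) = 592 + 80 * r := by norm_num at hsum; linarith
    have hdouble : ∑ y, (R y + R (y + zz μ)) ^ 2 = 2 * (592 + 80 * r) := by
      rw [← h592]
      have e1 : ∑ y, (R y + R (y + zz μ)) ^ 2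
          = ∑ y, R y * R y + ∑ y, R (y + zz μ) * R (y + zz μ) + 2 * ∑ y, R y * R (y + zz μ) := by
        rw [Finset.mul_sum, ← Finset.sum_add_distrib, ← Finset.sum_add_distrib]
        exact Finset.sum_congr rfl fun y _ => by ring
      rw [e1, sum_translate (fun y => R y * R y) (zz μ), corr_zero]
      unfold corr
      ring
    have hr10 : r ≤ 10 := by
      have h1 := three_N_sub_R_le h.sign h20 (fun z hz => h.corr_mod hz) hz
      obtain ⟨a, b, -, -, h2, h3⟩ := struct h.sign hz
      rw [hr, hRdef]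
      omega
    have hlow : ∀ z, 8 - 2 * (R z + R (z + zz μ)) + (if z = 0 then (24 + r) * (18 + r) else 0)
        + (if z = zz μ then (24 + r) * (18 + r) else 0) ≤ (R z + R (z + zz μ)) ^ 2 := by
      intro z
      by_cases hz0 : z = 0
      · have : z ≠ zz μ := by rw [hz0]; exact fun h => hz h.symm
        rw [if_pos hz0, if_neg this, hz0, zero_add, hR0, ← hr]
        nlinarith
      · by_cases hz1 : z = zz μ
        · rw [if_neg hz0, if_pos hz1, hz1, add_self, hR0, ← hr]
          nlinarith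
        · rw [if_neg hz0, if_neg hz1]
          have hz2 : z + zz μ ≠ 0 := fun h => hz1 ((add_eq_zero_iff' _ _).1 h)
          obtain ⟨k, hk⟩ := hRmod z hz0
          obtain ⟨l, hl⟩ := hRmod _ hz2
          have hk' : R z + R (z + zz μ) = 6 * (k + l + 1) + 2 := by linarith
          have hk2 : 0 ≤ (k + l + 1) * (k + l + 2) := by
            rcases le_or_gt 0 (k + l + 1) with h5 | h5
            · have : 0 ≤ k + l + 2 := by linarith
              positivity
            · nlinarith
          rw [hk']; nlinarith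
    have h5 := Finset.sum_le_sum (fun z (_ : z ∈ (univ : Finset (V 7))) => hlow z)
    rw [hdouble, Finset.sum_add_distrib, Finset.sum_add_distrib, Finset.sum_ite_eq',
      Finset.sum_ite_eq', if_pos (Finset.mem_univ _), if_pos (Finset.mem_univ _),
      Finset.sum_sub_distrib, ← Finset.mul_sum, Finset.sum_add_distrib, sum_translate R, hsumR,
      Finset.sum_const, Finset.card_univ, card_V, nsmul_eq_mul] at h5
    norm_num at h5
    nlinarith

end Pool.Agent.BB931D
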