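import Pool.Agent.Lib_MP_bb931d_co.Lines

set_option autoImplicit false
set_option linter.unusedSectionVars false
set_option linter.unusedSimpArgs false
set_option linter.unusedTactic false
set_option linter.unnecessarySimpa false

namespace Pool.Agent.Rho

open Finset

lemma two_ne {p : ℕ} [Fact p.Prime] (hp : 2 < p) : (2 : ZMod p) ≠ 0 := by
  have h : ((2 : ℕ) : ZMod p) ≠ 0 := by
    rw [Ne, ZMod.natCast_eq_zero_iff]
    intro h
    exact absurd (Nat.le_of_dvd (by norm_num) h) (by omega)
  simpa using h

section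
variable {ι V : Type*} [DecidableEq ι] [AddCommGroup V] {p K : ℕ} {e : V} {v : ι → V}
  {b : ι → ZMod p} {R : Finset ι}

/-- Distinct nonzero classes: size bound. -/
lemma card_classes [Fintype V] (h2 : ∀ x : V, x + x = 0) (he : e ≠ 0)
    (hne : ∀ i ∈ R, v i ≠ 0 ∧ v i ≠ e)
    (hd : ∀ i ∈ R, ∀ j ∈ R, i ≠ j → v i + v j ≠ 0 ∧ v i + v j ≠ e) :
    2 * R.card + 2 ≤ Fintype.card V := by
  classical
  have k1 : ∀ x y : V, x + y + y = x := fun x y => by rw [add_assoc, h2, add_zero]
  have hc2 : ({0, e} : Finset V).card = 2 := Finset.card_pair he.symm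
  have hinj : (R ×ˢ ({0, e} : Finset V)).card ≤ ((Finset.univ : Finset V) \ {0, e}).card := by
    apply Finset.card_le_card_of_injOn (fun q : ι × V => v q.1 + q.2)
    · rintro ⟨i, u⟩ hq
      simp only [Finset.coe_product, Set.mem_prod, Finset.mem_coe, Finset.mem_insert,
        Finset.mem_singleton] at hq
      simp only [Finset.mem_coe, Finset.mem_sdiff, Finset.mem_univ, true_and, Finset.mem_insert,
        Finset.mem_singleton, not_or]
      have h := hne i hq.1
      rcases hq.2 with hu | hu
      · subst hu; simpa using h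
      · rw [hu]
        constructor
        · intro h0
          have := congrArg (fun t => t + e) h0
          simp only [k1, zero_add] at this
          exact h.2 this
        · intro h0
          have := congrArg (fun t => t + e) h0
          simp only [k1, h2] at this
          exact h.1 this
    · rintro ⟨i, u⟩ hq ⟨j, w⟩ hq' heq
      simp only [Finset.coe_product, Set.mem_prod, Finset.mem_coe, Finset.mem_insert,
        Finset.mem_singleton] at hq hq'
      simp only at heq
      have hs : v i + v j = u + w := by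
        have : v i = v j + w + u := by rw [← heq, k1]
        rw [this]
        have h7 := h2 (v j)
        calc _ = (v j + v j) + (u + w) := by abel
          _ = _ := by rw [h7, zero_add]
      have hij : i = j := by
        by_contra hne'
        have hd' := hd i hq.1 j hq'.1 hne'
        rw [hs] at hd'
        rcases hq.2 with hu | hu <;> rcases hq'.2 with hw | hw <;> simp [hu, hw, h2] at hd'
      subst hij
      simpa using heq
  rw [Finset.card_product, hc2, Finset.card_sdiff_of_subset (Finset.subset_univ _), hc2,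
    Finset.card_univ] at hinj
  have : 2 ≤ Fintype.card V := by
    rw [← hc2]; exact Finset.card_le_univ _
  omega

/-- Points on two lines have weight in `{0,1}`. -/
lemma zero_one_of_lines [Fact p.Prime] (hp : 2 < p) [Fintype V] (h2 : ∀ x : V, x + x = 0)
    (he : e ≠ 0) (h16 : 16 ∣ Fintype.card V) (hcard : Fintype.card V + 4 ≤ 4 * R.card)
    (h : Cfg p K e v b R)
    (hne : ∀ i ∈ R, v i ≠ 0 ∧ v i ≠ e)
    (hd : ∀ i ∈ R, ∀ j ∈ R, i ≠ j → v i + v j ≠ 0 ∧ v i + v j ≠ e)
    (hR : Blk e v R)
    (hprop : ∀ B ⊆ R, B.Nonempty → Blk e v B → B ≠ R → (∑ i ∈ B, b i).val + 1 ≤ B.card)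
    {i : ι} (hi : i ∈ R) : b i = 0 ∨ b i = 1 := by
  obtain ⟨j, hj, k, hk, j', hj', k', hk', hij, hik, hij', hik', hjk, hjk', a1, a2, a3, a4, l1, l2⟩ :=
    two_lines h2 he h16 hcard hne hd hR hi
  have h16' : 16 ≤ Fintype.card V := Nat.le_of_dvd Fintype.card_pos h16
  have h5 : 5 ≤ R.card := by omega
  set L1 : Finset ι := {i, j, k} with hL1
  set L2 : Finset ι := {i, j', k'} with hL2
  have s1 : ∑ t ∈ L1, v t = v i + v j + v k := by
    rw [hL1, Finset.sum_insert (by simp [hij, hik]), Finset.sum_pair hjk, add_assoc]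
  have s2 : ∑ t ∈ L2, v t = v i + v j' + v k' := by
    rw [hL2, Finset.sum_insert (by simp [hij', hik']), Finset.sum_pair hjk', add_assoc]
  have c1 : L1.card = 3 := by
    rw [hL1, Finset.card_insert_of_notMem (by simp [hij, hik]), Finset.card_pair hjk]
  have c2 : L2.card = 3 := by
    rw [hL2, Finset.card_insert_of_notMem (by simp [hij', hik']), Finset.card_pair hjk']
  have b1 : Blk e v L1 := by unfold Blk; rw [s1]; exact l1
  have b2 : Blk e v L2 := by unfold Blk; rw [s2]; exact l2
  have sub1 : L1 ⊆ R := by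
    intro t ht; rw [hL1] at ht; simp only [Finset.mem_insert, Finset.mem_singleton] at ht
    rcases ht with rfl | rfl | rfl <;> assumption
  have sub2 : L2 ⊆ R := by
    intro t ht; rw [hL2] at ht; simp only [Finset.mem_insert, Finset.mem_singleton] at ht
    rcases ht with rfl | rfl | rfl <;> assumption
  have hint : L1 ∩ L2 = {i} := by
    ext t
    simp only [hL1, hL2, Finset.mem_inter, Finset.mem_insert, Finset.mem_singleton]
    constructor
    · rintro ⟨h1 | h1 | h1, h3 | h3 | h3⟩
      · exact h1
      · exact h1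
      · exact h1
      · exact h3
      · exact absurd (h1.symm.trans h3) a1
      · exact absurd (h1.symm.trans h3) a2
      · exact h3
      · exact absurd (h1.symm.trans h3) a3
      · exact absurd (h1.symm.trans h3) a4
    · intro h1; exact ⟨Or.inl h1, Or.inl h1⟩
  have hsym : symmDiff L1 L2 = {j, k, j', k'} := by
    ext t
    simp only [hL1, hL2, Finset.mem_symmDiff, Finset.mem_insert, Finset.mem_singleton, not_or]
    constructor
    · rintro (⟨h1 | h1 | h1, h3⟩ | ⟨h1 | h1 | h1, h3⟩)
      · exact absurd h1 h3.1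
      · exact Or.inl h1
      · exact Or.inr (Or.inl h1)
      · exact absurd h1 h3.1
      · exact Or.inr (Or.inr (Or.inl h1))
      · exact Or.inr (Or.inr (Or.inr h1))
    · rintro (h1 | h1 | h1 | h1) <;> subst h1
      · left; exact ⟨Or.inr (Or.inl rfl), hij.symm, a1, a2⟩
      · left; exact ⟨Or.inr (Or.inr rfl), hik.symm, a3, a4⟩
      · right; exact ⟨Or.inr (Or.inl rfl), hij'.symm, a1.symm, a3.symm⟩
      · right; exact ⟨Or.inr (Or.inr rfl), hik'.symm, a2.symm, a4.symm⟩
  have b3 : Blk e v (symmDiff L1 L2) := b1.symm h2 b2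
  have c3 : (symmDiff L1 L2).card = 4 := by
    rw [hsym, Finset.card_insert_of_notMem (by simp [hjk, a1, a2]),
      Finset.card_insert_of_notMem (by simp [a3, a4]), Finset.card_pair hjk']
  have sub3 : symmDiff L1 L2 ⊆ R := by
    intro t ht
    rw [Finset.mem_symmDiff] at ht
    rcases ht with ht | ht
    · exact sub1 ht.1
    · exact sub2 ht.1
  have n1 : L1.Nonempty := Finset.card_pos.mp (by omega)
  have n2 : L2.Nonempty := Finset.card_pos.mp (by omega)
  have n3 : (symmDiff L1 L2).Nonempty := Finset.card_pos.mp (by omega)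
  have u1 := hprop L1 sub1 n1 b1 (by rintro rfl; omega)
  have u2 := hprop L2 sub2 n2 b2 (by rintro rfl; omega)
  have u3 := hprop _ sub3 n3 b3 (by intro h0; rw [h0] at c3; omega)
  have w1 := h.pos sub1 n1 b1
  have w2 := h.pos sub2 n2 b2
  have w3 := h.pos sub3 n3 b3
  have par := h.parity h2 sub1 sub2 n1 n2 n3 b1 b2
  have rel := two_b (b := b) hint
  generalize (∑ i ∈ L1, b i).val = m1 at *
  generalize (∑ i ∈ L2, b i).val = m2 at *
  generalize (∑ i ∈ symmDiff L1 L2, b i).val = m3 at *
  rw [c1] at u1
  rw [c2] at u2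
  rw [c3] at u3
  have h20 := two_ne (p := p) hp
  have fin0 : 2 * b i = 0 → b i = 0 := fun h0 => (mul_eq_zero.mp h0).resolve_left h20
  have fin1 : 2 * b i = 2 → b i = 1 := fun h0 => by
    have : 2 * (b i - 1) = 0 := by rw [mul_sub, h0]; ring
    exact sub_eq_zero.mp ((mul_eq_zero.mp this).resolve_left h20)
  have q1 : m1 = 1 ∨ m1 = 2 := by omega
  have q2 : m2 = 1 ∨ m2 = 2 := by omega
  have q3 : m3 = 1 ∨ m3 = 2 ∨ m3 = 3 := by omega
  rcases q1 with rfl | rfl <;> rcases q2 with rfl | rfl <;> rcases q3 with rfl | rfl | rfl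
  all_goals first
    | (exfalso; revert par; decide)
    | (left; apply fin0; rw [rel]; push_cast; ring1)
    | (right; apply fin1; rw [rel]; push_cast; ring1)

end

end Pool.Agent.Rho
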