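import Pool.Agent.Lib_MP_bb931d_co.Eight

set_option autoImplicit false
set_option linter.unusedSectionVars false
set_option linter.unusedSimpArgs false
set_option linter.unusedTactic false
set_option linter.unnecessarySimpa false
set_option linter.unusedVariables false

namespace Pool.Agent.Rho

open Finset

section
variable {ι V : Type*} [DecidableEq ι] [AddCommGroup V] {p K : ℕ} {e : V} {v : ι → V}
  {b : ι → ZMod p} {R : Finset ι}

lemma symm_nonempty {X Y : Finset ι} (h : X ≠ Y) : (symmDiff X Y).Nonempty := by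
  rw [Finset.nonempty_iff_ne_empty]
  intro h0
  exact h (symmDiff_eq_bot.mp (by simpa using h0))

lemma symm_subset {X Y R : Finset ι} (hX : X ⊆ R) (hY : Y ⊆ R) : symmDiff X Y ⊆ R := by
  intro x hx
  rw [Finset.mem_symmDiff] at hx
  rcases hx with hx | hx
  · exact hX hx.1
  · exact hY hx.1

/-- Weight at most two with enough blocks is impossible. -/
lemma two_weight_false [Fintype V] [DecidableEq V] (h2 : ∀ x : V, x + x = 0) (he : e ≠ 0)
    (hK : 2 * K < p) (h : Cfg p K e v b R) (hR : Blk e v R) (hne : R.Nonempty)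
    (hV : Fintype.card V = 32) (h7 : 7 ≤ R.card) (hS : (∑ i ∈ R, b i).val ≤ 2) : False := by
  classical
  have hbc := blk_card (R := R) (v := v) (e := e) h2 he
  rw [hV] at hbc
  have hpow : 2 ^ 8 ≤ 2 ^ (R.card + 1) := Nat.pow_le_pow_right (by norm_num) (by omega)
  have hge : 8 ≤ (R.powerset.filter (fun B => Blk e v B)).card := by omega
  have hB1 : ∃ B1 ∈ R.powerset.filter (fun B => Blk e v B), B1 ∉ ({∅, R} : Finset (Finset ι)) := by
    by_contra hcon
    push Not at hcon
    have := (Finset.card_le_card hcon).trans Finset.card_le_two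
    omega
  obtain ⟨B1, hB1, hB1'⟩ := hB1
  have hB2 : ∃ B2 ∈ R.powerset.filter (fun B => Blk e v B),
      B2 ∉ ({∅, R, B1, R \ B1} : Finset (Finset ι)) := by
    by_contra hcon
    push Not at hcon
    have := (Finset.card_le_card hcon).trans Finset.card_le_four
    omega
  obtain ⟨B2, hB2, hB2'⟩ := hB2
  rw [Finset.mem_filter, Finset.mem_powerset] at hB1 hB2
  simp only [Finset.mem_insert, Finset.mem_singleton, not_or] at hB1' hB2'
  have one : ∀ B ⊆ R, Blk e v B → B ≠ ∅ → B ≠ R → (∑ i ∈ B, b i).val = 1 := by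
    intro B hB hb hn hn'
    have hn1 : B.Nonempty := Finset.nonempty_iff_ne_empty.mpr hn
    have hn2 : (R \ B).Nonempty := by
      rw [Finset.nonempty_iff_ne_empty, Ne, Finset.sdiff_eq_empty_iff_subset]
      intro h0; exact hn' (Finset.Subset.antisymm hB h0)
    have hsp := h.split h2 hK hR hB hb hn1 hn2
    have p1 := h.pos hB hn1 hb
    have p2 := h.pos Finset.sdiff_subset hn2 (hR.sdiff h2 hb hB)
    omega
  have e1 := one B1 hB1.1 hB1.2 hB1'.1 hB1'.2
  have e2 := one B2 hB2.1 hB2.2 hB2'.1 hB2'.2.1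
  have hs := symm_subset hB1.1 hB2.1
  have hsn := symm_nonempty (Ne.symm hB2'.2.2.1)
  have hsR : symmDiff B1 B2 ≠ R := by
    intro h0
    apply hB2'.2.2.2
    have h1 : symmDiff B1 (symmDiff B1 B2) = B2 := symmDiff_symmDiff_cancel_left B1 B2
    rw [h0, symmDiff_def, Finset.sup_eq_union, Finset.sdiff_eq_empty_iff_subset.mpr hB1.1,
      Finset.empty_union] at h1
    exact h1.symm
  have e3 := one _ hs (hB1.2.symm h2 hB2.2) hsn.ne_empty hsR
  have par := h.parity h2 hB1.1 hB2.1 (Finset.nonempty_iff_ne_empty.mpr hB1'.1)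
    (Finset.nonempty_iff_ne_empty.mpr hB2'.1) hsn hB1.2 hB2.2
  rw [e1, e2, e3] at par
  revert par; decide

lemma one_weight_false [Fintype V] [DecidableEq V] (h2 : ∀ x : V, x + x = 0) (he : e ≠ 0)
    (hK : 2 * K < p) (h : Cfg p K e v b R) (hR : Blk e v R) (hne : R.Nonempty)
    (hV : Fintype.card V = 32) (h7 : 6 ≤ R.card) (hS : (∑ i ∈ R, b i).val ≤ 1) : False := by
  classical
  have hbc := blk_card (R := R) (v := v) (e := e) h2 he
  rw [hV] at hbc
  have hpow : 2 ^ 7 ≤ 2 ^ (R.card + 1) := Nat.pow_le_pow_right (by norm_num) (by omega)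
  have hge : 4 ≤ (R.powerset.filter (fun B => Blk e v B)).card := by omega
  have hB1 : ∃ B1 ∈ R.powerset.filter (fun B => Blk e v B), B1 ∉ ({∅, R} : Finset (Finset ι)) := by
    by_contra hcon
    push Not at hcon
    have := (Finset.card_le_card hcon).trans Finset.card_le_two
    omega
  obtain ⟨B1, hB1, hB1'⟩ := hB1
  rw [Finset.mem_filter, Finset.mem_powerset] at hB1
  simp only [Finset.mem_insert, Finset.mem_singleton, not_or] at hB1'
  have hn1 : B1.Nonempty := Finset.nonempty_iff_ne_empty.mpr hB1'.1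
  have hn2 : (R \ B1).Nonempty := by
    rw [Finset.nonempty_iff_ne_empty, Ne, Finset.sdiff_eq_empty_iff_subset]
    intro h0; exact hB1'.2 (Finset.Subset.antisymm hB1.1 h0)
  have hsp := h.split h2 hK hR hB1.1 hB1.2 hn1 hn2
  have p1 := h.pos hB1.1 hn1 hB1.2
  have p2 := h.pos Finset.sdiff_subset hn2 (hR.sdiff h2 hB1.2 hB1.1)
  omega

/-- The weight three case: the extremal configuration. -/
lemma three_weight [Fact p.Prime] [Fintype V] [DecidableEq V] (hp : 4 * K + 20 < p)
    (h2 : ∀ x : V, x + x = 0) (he : e ≠ 0)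
    (h : Cfg p K e v b R) (hR : Blk e v R)
    (hV : Fintype.card V = 32) (h8 : R.card = 8) (hS : (∑ i ∈ R, b i).val = 3)
    (hne : ∀ i ∈ R, v i ≠ 0 ∧ v i ≠ e)
    (hd : ∀ i ∈ R, ∀ j ∈ R, i ≠ j → v i + v j ≠ 0 ∧ v i + v j ≠ e) : HQ e v b R := by
  classical
  have hK : 2 * K < p := by omega
  have h20 := two_ne (p := p) (by omega)
  have hRn : R.Nonempty := Finset.card_pos.mp (by omega)
  have hve : ∑ i ∈ R, v i = e := by
    rcases hR with h0 | h0
    · have := (h.even R (Finset.Subset.refl R) hRn h0).1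
      rw [hS] at this
      exact absurd this (by decide)
    · exact h0
  have hkc := ker_card (R := R) (v := v) h2
  rw [hV, h8] at hkc
  set 𝒦 := R.powerset.filter (fun B => ∑ i ∈ B, v i = 0) with h𝒦
  have hge : 8 ≤ 𝒦.card := by omega
  have hX : ∃ X ∈ 𝒦, X ∉ ({∅} : Finset (Finset ι)) := by
    by_contra hcon
    push Not at hcon
    have := Finset.card_le_card hcon
    rw [Finset.card_singleton] at this
    omega
  obtain ⟨X, hX, hX'⟩ := hX
  have hY : ∃ Y ∈ 𝒦, Y ∉ ({∅, X} : Finset (Finset ι)) := by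
    by_contra hcon
    push Not at hcon
    have := (Finset.card_le_card hcon).trans Finset.card_le_two
    omega
  obtain ⟨Y, hY, hY'⟩ := hY
  have hZ : ∃ Z ∈ 𝒦, Z ∉ ({∅, X, Y, symmDiff X Y} : Finset (Finset ι)) := by
    by_contra hcon
    push Not at hcon
    have := (Finset.card_le_card hcon).trans Finset.card_le_four
    omega
  obtain ⟨Z, hZ, hZ'⟩ := hZ
  rw [h𝒦, Finset.mem_filter, Finset.mem_powerset] at hX hY hZ
  simp only [Finset.mem_insert, Finset.mem_singleton, not_or] at hX' hY' hZ'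
  have two : ∀ B ⊆ R, ∑ i ∈ B, v i = 0 → B.Nonempty → ∑ i ∈ B, b i = 2 := by
    intro B hB hb hn
    have hn2 : (R \ B).Nonempty := by
      rw [Finset.nonempty_iff_ne_empty, Ne, Finset.sdiff_eq_empty_iff_subset]
      intro h0
      have : R = B := Finset.Subset.antisymm h0 hB
      rw [← this, hve] at hb
      exact he hb
    have hsp := h.split h2 hK hR hB (Or.inl hb) hn hn2
    have p1 := h.even B hB hn hb
    have p2 := h.pos Finset.sdiff_subset hn2 (hR.sdiff h2 (Or.inl hb) hB)
    obtain ⟨⟨t, ht⟩, p3, -⟩ := p1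
    have : (∑ i ∈ B, b i).val = 2 := by omega
    rw [← ZMod.natCast_zmod_val (∑ i ∈ B, b i), this]; norm_num
  have inter : ∀ B ⊆ R, ∀ C ⊆ R, ∑ i ∈ B, v i = 0 → ∑ i ∈ C, v i = 0 → B.Nonempty → C.Nonempty →
      B ≠ C → ∑ i ∈ B ∩ C, b i = 1 := by
    intro B hB C hC hb hc nB nC hBC
    have e1 := two B hB hb nB
    have e2 := two C hC hc nC
    have e3 := two _ (symm_subset hB hC) (by rw [sum_symm h2, hb, hc, h2]) (symm_nonempty hBC)
    have e4 := sum_symm_b (b := b) B C
    rw [e1, e2, e3] at e4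
    have : (2 : ZMod p) * (∑ i ∈ B ∩ C, b i - 1) = 0 := by linear_combination e4
    exact sub_eq_zero.mp ((mul_eq_zero.mp this).resolve_left h20)
  have nX : X.Nonempty := Finset.nonempty_iff_ne_empty.mpr hX'
  have nY : Y.Nonempty := Finset.nonempty_iff_ne_empty.mpr hY'.1
  have nZ : Z.Nonempty := Finset.nonempty_iff_ne_empty.mpr hZ'.1
  have sX := two X hX.1 hX.2 nX
  have sY := two Y hY.1 hY.2 nY
  have sZ := two Z hZ.1 hZ.2 nZ
  have sXY := inter X hX.1 Y hY.1 hX.2 hY.2 nX nY (Ne.symm hY'.2)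
  have sXZ := inter X hX.1 Z hZ.1 hX.2 hZ.2 nX nZ (Ne.symm hZ'.2.1)
  have sYZ := inter Y hY.1 Z hZ.1 hY.2 hZ.2 nY nZ (Ne.symm hZ'.2.2.1)
  have sXYZ := inter (symmDiff X Y) (symm_subset hX.1 hY.1) Z hZ.1
    (by rw [sum_symm h2, hX.2, hY.2, h2]) hZ.2 (symm_nonempty (Ne.symm hY'.2)) nZ
    (Ne.symm hZ'.2.2.2)
  have tri : 2 * ∑ i ∈ X ∩ Y ∩ Z, b i = 1 := by
    have e1 := sum_symm_b (b := b) (X ∩ Z) (Y ∩ Z)
    have e2 : symmDiff (X ∩ Z) (Y ∩ Z) = symmDiff X Y ∩ Z := by
      have := inf_symmDiff_distrib_right X Y Z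
      simpa using this.symm
    have e3 : (X ∩ Z) ∩ (Y ∩ Z) = X ∩ Y ∩ Z := by
      ext t; simp only [Finset.mem_inter]; tauto
    rw [e2, e3, sXZ, sYZ, sXYZ] at e1
    linear_combination e1
  have sR : ∑ i ∈ R, b i = 3 := by
    rw [← ZMod.natCast_zmod_val (∑ i ∈ R, b i), hS]; norm_num
  -- indicator form
  set x : ι → ZMod p := fun i => if i ∈ X then 1 else 0 with hx
  set y : ι → ZMod p := fun i => if i ∈ Y then 1 else 0 with hy
  set z : ι → ZMod p := fun i => if i ∈ Z then 1 else 0 with hz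
  have iX : ∑ i ∈ R, b i * x i = 2 := by
    rw [← sX, ← Finset.sum_subset hX.1 (f := fun i => b i * x i)]
    · apply Finset.sum_congr rfl; intro i hi; simp [hx, hi]
    · intro i _ hi; simp [hx, hi]
  have iY : ∑ i ∈ R, b i * y i = 2 := by
    rw [← sY, ← Finset.sum_subset hY.1 (f := fun i => b i * y i)]
    · apply Finset.sum_congr rfl; intro i hi; simp [hy, hi]
    · intro i _ hi; simp [hy, hi]
  have iZ : ∑ i ∈ R, b i * z i = 2 := by
    rw [← sZ, ← Finset.sum_subset hZ.1 (f := fun i => b i * z i)]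
    · apply Finset.sum_congr rfl; intro i hi; simp [hz, hi]
    · intro i _ hi; simp [hz, hi]
  have iXY : ∑ i ∈ R, b i * (x i * y i) = 1 := by
    rw [← sXY, ← Finset.sum_subset (Finset.inter_subset_left.trans hX.1) (f := fun i => b i * (x i * y i))]
    · apply Finset.sum_congr rfl; intro i hi; rw [Finset.mem_inter] at hi; simp [hx, hy, hi]
    · intro i _ hi; rw [Finset.mem_inter, not_and_or] at hi
      rcases hi with hi | hi <;> simp [hx, hy, hi]
  have iXZ : ∑ i ∈ R, b i * (x i * z i) = 1 := by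
    rw [← sXZ, ← Finset.sum_subset (Finset.inter_subset_left.trans hX.1) (f := fun i => b i * (x i * z i))]
    · apply Finset.sum_congr rfl; intro i hi; rw [Finset.mem_inter] at hi; simp [hx, hz, hi]
    · intro i _ hi; rw [Finset.mem_inter, not_and_or] at hi
      rcases hi with hi | hi <;> simp [hx, hz, hi]
  have iYZ : ∑ i ∈ R, b i * (y i * z i) = 1 := by
    rw [← sYZ, ← Finset.sum_subset (Finset.inter_subset_left.trans hY.1) (f := fun i => b i * (y i * z i))]
    · apply Finset.sum_congr rfl; intro i hi; rw [Finset.mem_inter] at hi; simp [hy, hz, hi]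
    · intro i _ hi; rw [Finset.mem_inter, not_and_or] at hi
      rcases hi with hi | hi <;> simp [hy, hz, hi]
  have iXYZ : 2 * ∑ i ∈ R, b i * (x i * y i * z i) = 1 := by
    rw [← tri, ← Finset.sum_subset ((Finset.inter_subset_left.trans Finset.inter_subset_left).trans hX.1)
      (f := fun i => b i * (x i * y i * z i))]
    · congr 1
      apply Finset.sum_congr rfl; intro i hi; rw [Finset.mem_inter, Finset.mem_inter] at hi
      simp [hx, hy, hz, hi]
    · intro i _ hi; rw [Finset.mem_inter, Finset.mem_inter, not_and_or, not_and_or] at hi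
      rcases hi with (hi | hi) | hi <;> simp [hx, hy, hz, hi]
  set κ : ι → Bool × Bool × Bool := fun i => (decide (i ∈ X), decide (i ∈ Y), decide (i ∈ Z)) with hκ
  -- cell sums
  have cell : ∀ c : Bool × Bool × Bool, 2 * ∑ i ∈ R.filter (fun i => κ i = c), b i =
      if c = (false, false, false) then -1 else 1 := by
    intro c
    have e1 : ∑ i ∈ R.filter (fun i => κ i = c), b i = ∑ i ∈ R, b i *
        ((if c.1 then x i else 1 - x i) * (if c.2.1 then y i else 1 - y i) *
          (if c.2.2 then z i else 1 - z i)) := by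
      rw [Finset.sum_filter]
      apply Finset.sum_congr rfl
      intro i _
      obtain ⟨c1, c2, c3⟩ := c
      simp only [hκ, hx, hy, hz, Prod.mk.injEq]
      by_cases h1 : i ∈ X <;> by_cases h3 : i ∈ Y <;> by_cases h4 : i ∈ Z <;>
        cases c1 <;> cases c2 <;> cases c3 <;> simp [h1, h3, h4]
    rw [e1]
    obtain ⟨c1, c2, c3⟩ := c
    cases c1 <;> cases c2 <;> cases c3 <;>
      simp only [if_true, if_false, Bool.false_eq_true, Prod.mk.injEq, and_true, and_false,
        reduceCtorEq]
    · have : ∑ i ∈ R, b i * ((1 - x i) * (1 - y i) * (1 - z i)) = ∑ i ∈ R, b i -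
          ∑ i ∈ R, b i * x i - ∑ i ∈ R, b i * y i - ∑ i ∈ R, b i * z i + ∑ i ∈ R, b i * (x i * y i)
          + ∑ i ∈ R, b i * (x i * z i) + ∑ i ∈ R, b i * (y i * z i)
          - ∑ i ∈ R, b i * (x i * y i * z i) := by
        simp only [← Finset.sum_sub_distrib, ← Finset.sum_add_distrib]
        apply Finset.sum_congr rfl; intro i _; ring
      rw [this, sR, iX, iY, iZ, iXY, iXZ, iYZ]
      linear_combination -iXYZ
    · have : ∑ i ∈ R, b i * ((1 - x i) * (1 - y i) * z i) = 
          ∑ i ∈ R, b i * z i - ∑ i ∈ R, b i * (x i * z i) - ∑ i ∈ R, b i * (y i * z i)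
          + ∑ i ∈ R, b i * (x i * y i * z i) := by
        simp only [← Finset.sum_sub_distrib, ← Finset.sum_add_distrib]
        apply Finset.sum_congr rfl; intro i _; ring
      rw [this, iZ, iXZ, iYZ]
      linear_combination iXYZ
    · have : ∑ i ∈ R, b i * ((1 - x i) * y i * (1 - z i)) = 
          ∑ i ∈ R, b i * y i - ∑ i ∈ R, b i * (x i * y i) - ∑ i ∈ R, b i * (y i * z i)
          + ∑ i ∈ R, b i * (x i * y i * z i) := by
        simp only [← Finset.sum_sub_distrib, ← Finset.sum_add_distrib]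
        apply Finset.sum_congr rfl; intro i _; ring
      rw [this, iY, iXY, iYZ]
      linear_combination iXYZ
    · have : ∑ i ∈ R, b i * ((1 - x i) * y i * z i) = 
          ∑ i ∈ R, b i * (y i * z i) - ∑ i ∈ R, b i * (x i * y i * z i) := by
        simp only [← Finset.sum_sub_distrib, ← Finset.sum_add_distrib]
        apply Finset.sum_congr rfl; intro i _; ring
      rw [this, iYZ]
      linear_combination -iXYZ
    · have : ∑ i ∈ R, b i * (x i * (1 - y i) * (1 - z i)) = 
          ∑ i ∈ R, b i * x i - ∑ i ∈ R, b i * (x i * y i) - ∑ i ∈ R, b i * (x i * z i)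
          + ∑ i ∈ R, b i * (x i * y i * z i) := by
        simp only [← Finset.sum_sub_distrib, ← Finset.sum_add_distrib]
        apply Finset.sum_congr rfl; intro i _; ring
      rw [this, iX, iXY, iXZ]
      linear_combination iXYZ
    · have : ∑ i ∈ R, b i * (x i * (1 - y i) * z i) = 
          ∑ i ∈ R, b i * (x i * z i) - ∑ i ∈ R, b i * (x i * y i * z i) := by
        simp only [← Finset.sum_sub_distrib, ← Finset.sum_add_distrib]
        apply Finset.sum_congr rfl; intro i _; ring
      rw [this, iXZ]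
      linear_combination -iXYZ
    · have : ∑ i ∈ R, b i * (x i * y i * (1 - z i)) = 
          ∑ i ∈ R, b i * (x i * y i) - ∑ i ∈ R, b i * (x i * y i * z i) := by
        simp only [← Finset.sum_sub_distrib, ← Finset.sum_add_distrib]
        apply Finset.sum_congr rfl; intro i _; ring
      rw [this, iXY]
      linear_combination -iXYZ
    · exact iXYZ
  have hsurj : ∀ c : Bool × Bool × Bool, ∃ i ∈ R, κ i = c := by
    intro c
    by_contra hcon
    push Not at hcon
    have h0 : R.filter (fun i => κ i = c) = ∅ := by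
      rw [Finset.filter_eq_empty_iff]; exact fun i hi => hcon i hi
    have hcc := cell c
    rw [h0, Finset.sum_empty, mul_zero] at hcc
    have : Fact (1 < p) := ⟨by omega⟩
    split_ifs at hcc with h1
    · exact absurd (neg_eq_zero.mp hcc.symm) one_ne_zero
    · exact zero_ne_one hcc
  have himg : R.image κ = Finset.univ := by
    ext c
    simp only [Finset.mem_image, Finset.mem_univ, iff_true]
    obtain ⟨i, hi, hc⟩ := hsurj c
    exact ⟨i, hi, hc⟩
  have hinj : Set.InjOn κ R := by
    apply Finset.card_image_iff.mp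
    rw [himg, h8]
    rfl
  have hsingle : ∀ i ∈ R, R.filter (fun j => κ j = κ i) = {i} := by
    intro i hi
    ext j
    simp only [Finset.mem_filter, Finset.mem_singleton]
    constructor
    · rintro ⟨hj, hji⟩
      exact hinj (Finset.mem_coe.mpr hj) (Finset.mem_coe.mpr hi) hji
    · rintro rfl; exact ⟨hi, rfl⟩
  have hval : ∀ i ∈ R, 2 * b i = if κ i = (false, false, false) then -1 else 1 := by
    intro i hi
    have := cell (κ i)
    rwa [hsingle i hi, Finset.sum_singleton] at this
  refine ⟨h8, ?_, ?_, hne, hd⟩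
  · obtain ⟨z0, hz0, hzc⟩ := hsurj (false, false, false)
    refine ⟨z0, hz0, ?_, ?_⟩
    · rw [hval z0 hz0, if_pos hzc]
    · intro i hi hiz
      rw [hval i hi, if_neg]
      intro h0
      exact hiz (hinj (Finset.mem_coe.mpr hi) (Finset.mem_coe.mpr hz0) (h0.trans hzc.symm))
  · intro i hi j hj hij
    have hne' : κ i ≠ κ j := fun h0 => hij (hinj (Finset.mem_coe.mpr hi) (Finset.mem_coe.mpr hj) h0)
    have hsep : ∃ W ⊆ R, Blk e v W ∧ ¬ (i ∈ W ↔ j ∈ W) := by
      by_contra hcon
      push Not at hcon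
      apply hne'
      simp only [hκ, Prod.mk.injEq, decide_eq_decide]
      exact ⟨hcon X hX.1 (Or.inl hX.2), hcon Y hY.1 (Or.inl hY.2), hcon Z hZ.1 (Or.inl hZ.2)⟩
    obtain ⟨W, hW, bW, hij'⟩ := hsep
    by_cases hiW : i ∈ W
    · refine ⟨W, hW, hiW, ?_, bW⟩
      intro h0; exact hij' ⟨fun _ => h0, fun _ => hiW⟩
    · have hjW : j ∈ W := by
        by_contra h0; exact hij' ⟨fun h1 => absurd h1 hiW, fun h1 => absurd h1 h0⟩
      refine ⟨R \ W, Finset.sdiff_subset, ?_, ?_, hR.sdiff h2 bW hW⟩
      · rw [Finset.mem_sdiff]; exact ⟨hi, hiW⟩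
      · rw [Finset.mem_sdiff]; exact fun h0 => h0.2 hjW

end

/-- The rank four theorem. -/
theorem rank_four {p K : ℕ} [Fact p.Prime] (hp : 4 * K + 20 < p) {ι : Type} [DecidableEq ι]
    (b : ι → ZMod p) (V : Type) [AddCommGroup V] [Fintype V] (h2 : ∀ x : V, x + x = 0)
    (hV : Fintype.card V = 32) (e : V) (he : e ≠ 0) (v : ι → V) :
    ∀ (n : ℕ) (R : Finset ι), R.card ≤ n → Cfg p K e v b R → R.Nonempty → Blk e v R →
      (∀ i ∈ R, ¬ (v i = e ∧ b i = 1)) → (∑ i ∈ R, b i).val + 5 ≤ R.card →
      HQ e v b R ∧ (∑ i ∈ R, b i).val = 3 := by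
  classical
  intro n
  induction n with
  | zero => intro R hRn _ hne; exact absurd (Finset.card_pos.mpr hne) (by omega)
  | succ n ih =>
  intro R hRn hC hne hR hno hS
  have hK : 2 * K < p := by omega
  -- removing a block of nonpositive defect
  have hrem : ∀ B ⊆ R, B.Nonempty → Blk e v B → B.card ≤ (∑ i ∈ B, b i).val →
      HQ e v b (R \ B) ∧ B.card = (∑ i ∈ B, b i).val := by
    intro B hB hn hb hc
    have hn' : (R \ B).Nonempty := by
      rw [Finset.nonempty_iff_ne_empty, Ne, Finset.sdiff_eq_empty_iff_subset]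
      intro h0
      have : R = B := Finset.Subset.antisymm h0 hB
      rw [this] at hS; omega
    have hsp := hC.split h2 hK hR hB hb hn hn'
    have hcard := Finset.card_sdiff_add_card_eq_card hB
    have hpos : 0 < B.card := Finset.card_pos.mpr hn
    have := ih (R \ B) (by omega) (hC.mono Finset.sdiff_subset) hn' (hR.sdiff h2 hb hB)
      (fun i hi => hno i (Finset.sdiff_subset hi)) (by omega)
    refine ⟨this.1, ?_⟩
    have h8 := this.1.card
    omega
  have hz : ∀ x ∈ R, v x ≠ 0 ∧ v x ≠ e := by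
    by_contra hcon
    push Not at hcon
    obtain ⟨x, hx, hvx⟩ := hcon
    have hvx' : v x = 0 ∨ v x = e := by
      by_cases h0 : v x = 0
      · exact Or.inl h0
      · exact Or.inr (hvx h0)
    have hb : Blk e v {x} := by unfold Blk; simpa using hvx'
    have hsub : ({x} : Finset ι) ⊆ R := by simpa using hx
    have hpos := hC.pos hsub (Finset.singleton_nonempty x) hb
    have hc := (hrem {x} hsub (Finset.singleton_nonempty x) hb
      (by rw [Finset.card_singleton]; omega)).2
    rw [Finset.card_singleton, Finset.sum_singleton] at hc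
    rcases hvx' with h0 | h0
    · have := (hC.even {x} hsub (Finset.singleton_nonempty x) (by simpa using h0)).1
      rw [Finset.sum_singleton, ← hc] at this
      exact absurd this (by decide)
    · apply hno x hx
      refine ⟨h0, ?_⟩
      rw [← ZMod.natCast_zmod_val (b x), ← hc]; norm_num
  have hpr : ∀ x ∈ R, ∀ y ∈ R, x ≠ y → v x + v y ≠ 0 ∧ v x + v y ≠ e := by
    by_contra hcon
    push Not at hcon
    obtain ⟨x, hx, y, hy, hxy, hv0⟩ := hcon
    have hv : v x + v y = 0 ∨ v x + v y = e := by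
      by_cases h0 : v x + v y = 0
      · exact Or.inl h0
      · exact Or.inr (hv0 h0)
    have hb : Blk e v {x, y} := by unfold Blk; rw [Finset.sum_pair hxy]; exact hv
    have hsub : ({x, y} : Finset ι) ⊆ R := by
      intro t ht; simp only [Finset.mem_insert, Finset.mem_singleton] at ht
      rcases ht with rfl | rfl <;> assumption
    have hn : ({x, y} : Finset ι).Nonempty := ⟨x, by simp⟩
    have hpos := hC.pos hsub hn hb
    by_cases h2' : 2 ≤ (∑ i ∈ ({x, y} : Finset ι), b i).val
    · have hQ := (hrem {x, y} hsub hn hb (by rw [Finset.card_pair hxy]; exact h2')).1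
      exact proper_false hp hV h2 he hC Finset.sdiff_subset (hR.sdiff h2 hb hsub) hQ hx
        (by simp) (hz x hx).1 (hz x hx).2
    have h1 : (∑ i ∈ ({x, y} : Finset ι), b i).val = 1 := by omega
    have hve : v x + v y = e := by
      rcases hv with hv | hv
      · have := (hC.even _ hsub hn (by rw [Finset.sum_pair hxy]; exact hv)).1
        rw [h1] at this
        exact absurd this (by decide)
      · exact hv
    have hb1 : b x + b y = 1 := by
      rw [← Finset.sum_pair (f := b) hxy, ← ZMod.natCast_zmod_val (∑ i ∈ ({x, y} : Finset ι), b i), h1]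
      simp
    obtain ⟨w, hw0, hwe, hC'⟩ := contract (by omega) h2 he hC hx hy hxy hve hb1 (hz x hx).1 (hz x hx).2
    let _ : Fintype (V ⧸ twoS h2 w) := Fintype.ofFinite _
    have hcq := card_quot h2 hw0
    have hcq' : Fintype.card (V ⧸ twoS h2 w) = 2 ^ (3 + 1) := by
      norm_num; omega
    by_cases hn' : (R \ {x, y}).Nonempty
    · have hsp := hC.split h2 hK hR hsub hb hn hn'
      have hcard := Finset.card_sdiff_add_card_eq_card hsub
      rw [Finset.card_pair hxy] at hcard
      have hbq : Blk (QuotientAddGroup.mk (s := twoS h2 w) e)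
          (fun i => QuotientAddGroup.mk (s := twoS h2 w) (v i)) (R \ {x, y}) := by
        have hbb := hR.sdiff h2 hb hsub
        have hsq : ∑ i ∈ R \ {x, y}, (QuotientAddGroup.mk (s := twoS h2 w) (v i)) =
            QuotientAddGroup.mk (s := twoS h2 w) (∑ i ∈ R \ {x, y}, v i) :=
          (map_sum (QuotientAddGroup.mk' (twoS h2 w)) v _).symm
        unfold Blk
        rw [hsq]
        rcases hbb with hbb | hbb
        · left; rw [hbb]; rfl
        · right; rw [hbb]
      have hq2 : ∀ z : V ⧸ twoS h2 w, z + z = 0 := by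
        intro z
        obtain ⟨z', rfl⟩ := QuotientAddGroup.mk_surjective z
        show QuotientAddGroup.mk (s := twoS h2 w) (z' + z') = 0
        rw [h2]; rfl
      have heq0 : QuotientAddGroup.mk (s := twoS h2 w) e ≠ 0 := by
        rw [Ne, QuotientAddGroup.eq_zero_iff, mem_twoS]
        rintro (h0 | h0)
        · exact he h0
        · exact hwe h0.symm
      have := rank_small hp b 3 le_rfl (V ⧸ twoS h2 w) hq2 hcq' _ heq0 _ n (R \ {x, y})
        (by omega) hC' hn' hbq
      omega
    · rw [Finset.not_nonempty_iff_eq_empty, Finset.sdiff_eq_empty_iff_subset] at hn'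
      have hRe : R = {x, y} := Finset.Subset.antisymm hn' hsub
      rw [hRe, Finset.card_pair hxy] at hS; omega
  have hcb := card_classes h2 he hz hpr
  rw [hV] at hcb
  have hpos := hC.pos (Finset.Subset.refl R) hne hR
  by_cases h9 : 9 ≤ R.card
  · exfalso
    have hprop : ∀ B ⊆ R, B.Nonempty → Blk e v B → B ≠ R → (∑ i ∈ B, b i).val + 1 ≤ B.card := by
      intro B hB hn hb hBR
      by_contra hlt
      have hQ := (hrem B hB hn hb (by omega)).1
      obtain ⟨x, hx⟩ := hn
      exact proper_false hp hV h2 he hC Finset.sdiff_subset (hR.sdiff h2 hb hB) hQ (hB hx)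
        (by simp [hx]) (hz x (hB hx)).1 (hz x (hB hx)).2
    have h01 : ∀ i ∈ R, b i = 0 ∨ b i = 1 := fun i hi =>
      zero_one_of_lines (by omega) h2 he (by rw [hV]; norm_num) (by rw [hV]; omega)
        hC hz hpr hR hprop hi
    have hRp : R.card < p := by omega
    have := card_le_of_zero_one (r := 4) h2 (by omega) (by rw [hV]; norm_num) he hC hRp h01
    omega
  · have hcases : (R.card = 6 ∧ (∑ i ∈ R, b i).val ≤ 1) ∨ (7 ≤ R.card ∧ (∑ i ∈ R, b i).val ≤ 2) ∨
        (R.card = 8 ∧ (∑ i ∈ R, b i).val = 3) := by omega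
    rcases hcases with ⟨h6, hS1⟩ | ⟨h7, hS2⟩ | ⟨h8, hS3⟩
    · exact (one_weight_false h2 he hK hC hR hne hV (by omega) hS1).elim
    · exact (two_weight_false h2 he hK hC hR hne hV h7 hS2).elim
    · exact ⟨three_weight hp h2 he hC hR hV h8 hS3 hz hpr, hS3⟩

end Pool.Agent.Rho
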