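import Pool.Agent.Lib_MP_bb931d_co.Long

set_option autoImplicit false
set_option linter.unusedSectionVars false
set_option linter.unusedSimpArgs false
set_option linter.unusedTactic false
set_option linter.unnecessarySimpa false
set_option linter.unusedVariables false

namespace Pool.Agent.Rho

open Finset

/-- Atoms of the monoid of zero-sum sequences. -/
def Atom {G : Type*} [AddCommMonoid G] (A : Multiset G) : Prop :=
  A ≠ 0 ∧ A.sum = 0 ∧ ∀ B : Multiset G, B ≤ A → B ≠ 0 → B.sum = 0 → B = A

lemma exists_le_card {α : Type*} (s : Multiset α) {n : ℕ} (h : n ≤ s.card) :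
    ∃ t ≤ s, t.card = n := by
  induction s using Quotient.inductionOn with
  | _ l =>
    refine ⟨↑(l.take n), ?_, ?_⟩
    · exact (List.take_sublist n l).subperm
    · have h' : n ≤ l.length := h
      rw [Multiset.coe_card, List.length_take]
      omega

section gen
variable {G : Type*} [AddCommGroup G] [DecidableEq G]

lemma Atom.zf {A T : Multiset G} (hA : Atom A) (hT : T ≤ A) (hne : T ≠ A) : ZF T := by
  intro B hB hn hs
  have := hA.2.2 B (hB.trans hT) hn hs
  subst this
  exact hne (le_antisymm hT hB)

lemma ZF.close {T : Multiset G} (hT : ZF T) : Atom ({-T.sum} + T) := by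
  refine ⟨by simp, by simp, ?_⟩
  intro B hB hn hs
  by_cases hle : B ≤ T
  · exact absurd hs (hT B hle hn)
  · have hmem : -T.sum ∈ B := by
      by_contra h0
      rw [Multiset.singleton_add] at hB
      exact hle ((Multiset.le_cons_of_notMem h0).mp hB)
    obtain ⟨B', rfl⟩ := Multiset.exists_cons_of_mem hmem
    rw [Multiset.singleton_add] at hB ⊢
    have hB' := (Multiset.cons_le_cons_iff _).mp hB
    rw [Multiset.sum_cons] at hs
    obtain ⟨C, hC⟩ := Multiset.le_iff_exists_add.mp hB'
    have hCs : C.sum = 0 := by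
      have h1 : T.sum = B'.sum + C.sum := by conv_lhs => rw [hC, Multiset.sum_add]
      have h3 : B'.sum = T.sum := by
        have := eq_neg_of_add_eq_zero_right hs
        rw [this, neg_neg]
      rw [h3] at h1
      simpa using h1.symm
    by_cases hC0 : C = 0
    · rw [hC, hC0, add_zero]
    · exact absurd hCs (hT C (by rw [hC]; exact Multiset.le_add_left _ _) hC0)

end gen

section grp
variable {V : Type} [AddCommGroup V] [Fintype V] [DecidableEq V] {p : ℕ} [Fact p.Prime]

lemma nsmul_even (h2 : ∀ x : V, x + x = 0) (x : V) {n : ℕ} (hn : Even n) : n • x = 0 := by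
  obtain ⟨t, rfl⟩ := hn
  rw [add_smul, ← smul_add, h2, smul_zero]

lemma nsmul_odd (h2 : ∀ x : V, x + x = 0) (x : V) {n : ℕ} (hn : Odd n) : n • x = x := by
  obtain ⟨t, rfl⟩ := hn
  rw [add_smul, one_smul, nsmul_even h2 x ⟨t, by ring⟩, zero_add]

/-- The reserve: submultisets with all sizes and prescribed sums. -/
lemma reserve (h2 : ∀ x : V, x + x = 0) (e : V) (lam : ZMod p) (E : Multiset (V × ZMod p))
    (hE : ∀ g ∈ E, g.2 = lam) (n : ℕ) (hn : 1 ≤ n) (j : ℕ) (hj : j ≤ 2 * E.card + n) :
    ∃ N' ≤ E + E + Multiset.replicate n (e, lam), N'.card = j ∧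
      N'.sum = (j • e, (j : ZMod p) * lam) := by
  classical
  obtain ⟨a, i, ha, hi, hij⟩ : ∃ a i : ℕ, a ≤ E.card ∧ i ≤ n ∧ i + 2 * a = j := by
    by_cases h : j ≤ n
    · exact ⟨0, j, Nat.zero_le _, h, by omega⟩
    · exact ⟨(j - n + 1) / 2, j - 2 * ((j - n + 1) / 2), by omega, by omega, by omega⟩
  obtain ⟨E', hE', hc⟩ : ∃ E' ≤ E, E'.card = a := by
    exact exists_le_card E ha
  refine ⟨E' + E' + Multiset.replicate i (e, lam), ?_, ?_, ?_⟩
  · exact add_le_add (add_le_add hE' hE') (Multiset.replicate_le_replicate _ |>.mpr hi)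
  · rw [Multiset.card_add, Multiset.card_add, Multiset.card_replicate, hc]; omega
  · rw [Multiset.sum_add, Multiset.sum_add, Multiset.sum_replicate]
    have h1 : ∀ F : Multiset (V × ZMod p), (∀ g ∈ F, g.2 = lam) →
        F.sum.2 = (F.card : ZMod p) * lam := by
      intro F
      induction F using Multiset.induction with
      | empty => intro _; simp
      | cons a F ih =>
        intro h
        rw [Multiset.sum_cons, Multiset.card_cons]
        show a.2 + F.sum.2 = _
        rw [ih (fun g hg => h g (Multiset.mem_cons_of_mem hg)), h a (Multiset.mem_cons_self _ _)]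
        push_cast; ring
    have h3 := h1 E' (fun g hg => hE g (Multiset.mem_of_le hE' hg))
    refine Prod.ext ?_ ?_
    · show E'.sum.1 + E'.sum.1 + i • e = j • e
      rw [h2, zero_add, ← hij, add_smul, nsmul_even h2 e (n := 2 * a) ⟨a, by ring⟩, add_zero]
    · show E'.sum.2 + E'.sum.2 + i • lam = (j : ZMod p) * lam
      rw [h3, hc, ← hij, nsmul_eq_mul]
      push_cast; ring

/-- The structure of long atoms. -/
theorem long_atoms (hp : 4000 < p) (h2 : ∀ x : V, x + x = 0) (hV : Fintype.card V = 32)
    {A : Multiset (V × ZMod p)} (hA : Atom A) (hc : 2 * p + 5 ≤ A.card)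
    (hc' : A.card ≤ 2 * p + 6) :
    A.card = 2 * p + 5 ∧ ∃ w : ZMod p, w ≠ 0 ∧
      A.map Prod.snd = Multiset.replicate (2 * p - 3) (w + w) +
        ({-w} + Multiset.replicate 7 w) := by
  classical
  have hpp : p.Prime := Fact.out
  have hpodd : Odd p := hpp.odd_of_ne_two (by omega)
  have h20 := two_ne (p := p) (by omega)
  -- concentration
  obtain ⟨a, ha⟩ := Multiset.exists_mem_of_ne_zero hA.1
  have hTc : (A.erase a).card = A.card - 1 := Multiset.card_erase_of_mem ha
  have hTz : ZF (A.erase a) := hA.zf (Multiset.erase_le _ _) (by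
    intro h0; rw [h0] at hTc; omega)
  obtain ⟨lam, E0, hlam, hE0, hE0l, hE0c⟩ := concentrated (by omega) h2 hV hTz (by omega)
  have hE0A : E0 + E0 ≤ A := hE0.trans (Multiset.erase_le _ _)
  -- the distinguished element
  have hge : ∃ g ∈ E0, g.1 ≠ 0 := by
    by_contra hcon
    push Not at hcon
    have hrep : E0 + E0 = Multiset.replicate (2 * E0.card) ((0 : V), lam) := by
      rw [Multiset.eq_replicate]
      refine ⟨by rw [Multiset.card_add]; ring, ?_⟩
      intro g hg
      rw [Multiset.mem_add, or_self] at hg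
      exact Prod.ext (hcon g hg) (hE0l g hg)
    have hle : Multiset.replicate p ((0 : V), lam) ≤ A := by
      refine le_trans ?_ hE0A
      rw [hrep]; exact (Multiset.replicate_le_replicate _).mpr (by omega)
    have := hA.2.2 _ hle (by
      intro h0
      have := congrArg Multiset.card h0
      rw [Multiset.card_replicate, Multiset.card_zero] at this; omega) (by
      rw [Multiset.sum_replicate]
      refine Prod.ext (by simp) ?_
      show p • lam = 0
      rw [nsmul_eq_mul, CharP.cast_eq_zero, zero_mul])
    have := congrArg Multiset.card this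
    rw [Multiset.card_replicate] at this
    omega
  obtain ⟨gt, hgt, hgt1⟩ := hge
  set e := gt.1 with he
  have hgte : gt = (e, lam) := Prod.ext rfl (hE0l gt hgt)
  set E := E0.filter (fun g => g ≠ gt) with hE
  set n := A.count gt with hn
  have hn1 : 2 * E0.count gt ≤ n := by
    have := Multiset.count_le_of_le gt hE0A
    rw [Multiset.count_add] at this
    omega
  have hn0 : 1 ≤ n := by
    have : 0 < E0.count gt := Multiset.count_pos.mpr hgt
    omega
  set N := E + E + Multiset.replicate n (e, lam) with hN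
  have hEl : ∀ g ∈ E, g.2 = lam := fun g hg => hE0l g (Multiset.mem_filter.mp hg).1
  have hgE : gt ∉ E := fun h => (Multiset.mem_filter.mp h).2 rfl
  have hEcard : E0.card = E.card + E0.count gt := by
    have h1 := Multiset.filter_add_not (fun g => g ≠ gt) E0
    have h3 : (E0.filter (fun g => ¬ g ≠ gt)).card = E0.count gt := by
      rw [Multiset.count_eq_card_filter_eq]
      congr 1
      apply Multiset.filter_congr
      intro g _
      constructor
      · intro h; push Not at h; exact h.symm
      · intro h; push Not; exact h.symm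
    rw [← h3, ← Multiset.card_add, h1]
  have hNA : N ≤ A := by
    rw [Multiset.le_iff_count]
    intro x
    rw [hN, Multiset.count_add, Multiset.count_add, Multiset.count_replicate]
    by_cases hx : (e, lam) = x
    · rw [if_pos hx, ← hx, ← hgte, Multiset.count_eq_zero_of_notMem hgE]
      omega
    · rw [if_neg hx, add_zero, ← Multiset.count_add]
      apply (Multiset.count_le_of_le x (add_le_add (Multiset.filter_le _ E0)
        (Multiset.filter_le _ E0))).trans
      exact Multiset.count_le_of_le x hE0A
  have hNc : N.card = 2 * E.card + n := by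
    rw [hN, Multiset.card_add, Multiset.card_add, Multiset.card_replicate]; ring
  obtain ⟨R, hR⟩ := Multiset.le_iff_exists_add.mp hNA
  have hgR : gt ∉ R := by
    intro h0
    have h1 : 0 < R.count gt := Multiset.count_pos.mpr h0
    have h3 : A.count gt = N.count gt + R.count gt := by rw [hR, Multiset.count_add]
    have h4 : n ≤ N.count gt := by
      rw [hN, Multiset.count_add, Multiset.count_replicate, if_pos hgte.symm]
      exact Nat.le_add_left _ _
    omega
  obtain ⟨l, rfl⟩ : ∃ l : List (V × ZMod p), R = ↑l := ⟨R.toList, (Multiset.coe_toList R).symm⟩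
  set q := l.length with hq
  have hAc : A.card = N.card + q := by rw [hR, Multiset.card_add, Multiset.coe_card]
  set g : Fin q → V × ZMod p := fun i => l.get i with hg
  have hl : (↑l : Multiset (V × ZMod p)) = (Finset.univ : Finset (Fin q)).val.map g := by
    rw [Fin.univ_val_map, hg]
    congr 1
    exact (List.ofFn_get l).symm
  set v : Fin q → V := fun i => (g i).1 with hv
  set b : Fin q → ZMod p := fun i => lam⁻¹ * (g i).2 with hb
  have hgb : ∀ i, (g i).2 = lam * b i := fun i => by
    rw [hb]; simp only; rw [← mul_assoc, mul_inv_cancel₀ hlam, one_mul]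
  have hsumB : ∀ B : Finset (Fin q), (B.val.map g).sum = (∑ i ∈ B, v i, lam * ∑ i ∈ B, b i) := by
    intro B
    have h1 : (B.val.map g).sum = ∑ i ∈ B, g i := rfl
    rw [h1]
    refine Prod.ext ?_ ?_
    · rw [Prod.fst_sum]
    · rw [Prod.snd_sum, Finset.mul_sum]
      exact Finset.sum_congr rfl (fun i _ => hgb i)
  set μ := N.card with hμ
  have key : ∀ (B : Finset (Fin q)) (j : ℕ), B.Nonempty ∨ j ≠ 0 → j ≤ μ →
      j • e + ∑ i ∈ B, v i = 0 → (j : ZMod p) + ∑ i ∈ B, b i = 0 → j = μ ∧ B.card = q := by
    intro B j hne hj h1 h3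
    obtain ⟨N', hN', hc1, hs1⟩ := reserve h2 e lam E hEl n hn0 j (by omega)
    have hle : N' + B.val.map g ≤ A := by
      rw [hR, hl]
      exact add_le_add hN' (Multiset.map_le_map (Finset.val_le_iff.mpr (Finset.subset_univ B)))
    have hcard : (N' + B.val.map g).card = j + B.card := by
      rw [Multiset.card_add, Multiset.card_map, hc1]; rfl
    have := hA.2.2 _ hle (by
      intro h0
      rw [h0, Multiset.card_zero] at hcard
      rcases hne with hne | hne
      · have := Finset.card_pos.mpr hne; omega
      · omega) (by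
      rw [Multiset.sum_add, hs1, hsumB]
      refine Prod.ext h1 ?_
      show (j : ZMod p) * lam + lam * ∑ i ∈ B, b i = 0
      rw [mul_comm (j : ZMod p), ← mul_add, h3, mul_zero])
    rw [this] at hcard
    have hBq : B.card ≤ q := by
      have := Finset.card_le_univ B
      rwa [Fintype.card_fin] at this
    omega
  have hμ2p : μ < 2 * p := by
    by_contra hcon
    have := key ∅ (2 * p) (Or.inr (by omega)) (by omega)
      (by rw [Finset.sum_empty, add_zero]; exact nsmul_even h2 e ⟨p, by ring⟩)
      (by push_cast; rw [CharP.cast_eq_zero]; simp)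
    rw [Finset.card_empty] at this
    omega
  have hqK : q ≤ 834 := by omega
  have hq5 : 5 ≤ q := by omega
  -- weights of blocks
  have wts : ∀ (B : Finset (Fin q)) (ε : ℕ), ε ≤ 1 → B.Nonempty → ∑ i ∈ B, v i = ε • e →
      (∑ i ∈ B, b i).val % 2 = ε ∧ 0 < (∑ i ∈ B, b i).val ∧ (∑ i ∈ B, b i).val ≤ 2 * p - μ := by
    intro B ε hε hne hs
    set β := ∑ i ∈ B, b i with hβ
    have hβv : β.val < p := ZMod.val_lt β
    have hcast : ((β.val : ℕ) : ZMod p) = β := ZMod.natCast_zmod_val β
    obtain ⟨t, ht⟩ := hpodd
    obtain ⟨s0, hs0, hs1, hs2, hs3⟩ : ∃ s0 : ℕ, s0 < 2 * p ∧ s0 % 2 = ε ∧ (s0 : ZMod p) = β ∧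
        (s0 = β.val ∨ s0 = β.val + p) := by
      by_cases h : β.val % 2 = ε
      · exact ⟨β.val, by omega, h, hcast, Or.inl rfl⟩
      · refine ⟨β.val + p, by omega, by omega, ?_, Or.inr rfl⟩
        push_cast; rw [hcast, CharP.cast_eq_zero, add_zero]
    have hev : ∀ j : ℕ, j % 2 = ε → j • e + ∑ i ∈ B, v i = 0 := by
      intro j hj
      rw [hs]
      have : ε = 0 ∨ ε = 1 := by omega
      rcases this with rfl | rfl
      · rw [nsmul_even h2 e (Nat.even_iff.mpr hj)]; simp
      · rw [nsmul_odd h2 e (Nat.odd_iff.mpr hj), one_smul, h2]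
    have hs00 : s0 ≠ 0 := by
      intro h0
      rw [h0] at hs1 hs2
      have := key B 0 (Or.inl hne) (Nat.zero_le _) (hev 0 hs1) (by rw [← hβ, ← hs2]; simp)
      omega
    have hjm : μ ≤ 2 * p - s0 := by
      by_contra hcon
      have hcast2 : ((2 * p - s0 : ℕ) : ZMod p) + β = 0 := by
        rw [← hs2, ← Nat.cast_add]
        have : 2 * p - s0 + s0 = 2 * p := by omega
        rw [this]; push_cast; rw [CharP.cast_eq_zero]; simp
      have := key B (2 * p - s0) (Or.inl hne) (by omega) (hev _ (by omega)) hcast2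
      omega
    have hs0small : s0 < p := by omega
    have : s0 = β.val := by omega
    rw [← this]
    omega
  have hC : Cfg p 834 e v b (Finset.univ : Finset (Fin q)) := by
    constructor
    · intro B _ hne hs
      obtain ⟨w1, w2, w3⟩ := wts B 0 (by norm_num) hne (by rw [hs]; simp)
      exact ⟨Nat.even_iff.mpr w1, w2, by omega⟩
    · intro B _ hne hs
      obtain ⟨w1, w2, w3⟩ := wts B 1 le_rfl hne (by rw [hs]; simp)
      exact ⟨Nat.odd_iff.mpr w1, by omega⟩
  -- the total
  have hune : (Finset.univ : Finset (Fin q)).Nonempty :=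
    Finset.card_pos.mp (by rw [Finset.card_univ, Fintype.card_fin]; omega)
  have hNsum : N.sum = (μ • e, (μ : ZMod p) * lam) := by
    obtain ⟨N', hN', hc1, hs1⟩ := reserve h2 e lam E hEl n hn0 μ (by omega)
    have : N' = N := Multiset.eq_of_le_of_card_le hN' (by rw [hc1])
    rw [← this]; exact hs1
  have htot : N.sum + ((Finset.univ : Finset (Fin q)).val.map g).sum = 0 := by
    rw [← hl, ← Multiset.sum_add, ← hR]; exact hA.2.1
  rw [hNsum, hsumB] at htot
  have htot1 : μ • e + ∑ i, v i = 0 := congrArg Prod.fst htot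
  have htot2 : (μ : ZMod p) + ∑ i, b i = 0 := by
    have h1 : (μ : ZMod p) * lam + lam * ∑ i, b i = 0 := congrArg Prod.snd htot
    have h3 : lam * ((μ : ZMod p) + ∑ i, b i) = 0 := by rw [mul_add, mul_comm lam (μ : ZMod p)]; exact h1
    exact (mul_eq_zero.mp h3).resolve_left hlam
  have hvtot : ∑ i, v i = μ • e := by
    have h1 := h2 (μ • e)
    exact (add_left_cancel (h1.trans htot1.symm)).symm
  have hbl : Blk e v (Finset.univ : Finset (Fin q)) := by
    unfold Blk
    rw [hvtot]
    rcases Nat.even_or_odd μ with h | h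
    · left; exact nsmul_even h2 e h
    · right; exact nsmul_odd h2 e h
  have hwtot : (∑ i, b i).val = 2 * p - μ := by
    have hmod : ∑ i ∈ (Finset.univ : Finset (Fin q)), v i = (μ % 2) • e := by
      rw [hvtot]
      rcases Nat.even_or_odd μ with h | h
      · rw [nsmul_even h2 e h, Nat.even_iff.mp h, zero_smul]
      · rw [nsmul_odd h2 e h, Nat.odd_iff.mp h, one_smul]
    obtain ⟨w1, w2, w3⟩ := wts Finset.univ (μ % 2) (by omega) hune hmod
    set s := (∑ i, b i).val with hs
    have h1 : ((μ + s : ℕ) : ZMod p) = 0 := by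
      push_cast; rw [hs, ZMod.natCast_zmod_val]; exact htot2
    rw [ZMod.natCast_eq_zero_iff] at h1
    obtain ⟨t, ht⟩ := h1
    have ht2 : t ≤ 2 := by
      by_contra hcon
      have : p * 3 ≤ p * t := Nat.mul_le_mul_left p (by omega)
      omega
    have hpo : p % 2 = 1 := Nat.odd_iff.mp hpodd
    interval_cases t <;> omega
  have hno : ∀ i ∈ (Finset.univ : Finset (Fin q)), ¬ (v i = e ∧ b i = 1) := by
    rintro i - ⟨h1, h3⟩
    apply hgR
    have hgi : g i = gt := by
      rw [hgte]
      refine Prod.ext h1 ?_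
      rw [hgb i, h3, mul_one]
    rw [← hgi, hl]
    exact Multiset.mem_map_of_mem g (Finset.mem_univ i)
  obtain ⟨hQ, hS3⟩ := rank_four (by omega) b V h2 hV e hgt1 v q Finset.univ
    (by rw [Finset.card_univ, Fintype.card_fin]) hC hune hbl hno
    (by rw [hwtot, Finset.card_univ, Fintype.card_fin]; omega)
  have hq8 : q = 8 := by
    have := hQ.card
    rwa [Finset.card_univ, Fintype.card_fin] at this
  have hcard : A.card = 2 * p + 5 := by omega
  refine ⟨hcard, lam / 2, div_ne_zero hlam h20, ?_⟩
  have hww : lam / 2 + lam / 2 = lam := by field_simp; ring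
  obtain ⟨z, -, hz1, hz2⟩ := hQ.wt
  have hNmap : N.map Prod.snd = Multiset.replicate (2 * p - 3) (lam / 2 + lam / 2) := by
    rw [hww, Multiset.eq_replicate]
    refine ⟨by rw [Multiset.card_map]; omega, ?_⟩
    intro x hx
    obtain ⟨y, hy, rfl⟩ := Multiset.mem_map.mp hx
    rw [hN, Multiset.mem_add, Multiset.mem_add, or_self] at hy
    rcases hy with hy | hy
    · exact hEl y hy
    · rw [Multiset.eq_of_mem_replicate hy]
  rw [hR, Multiset.map_add, hNmap, hl, Multiset.map_map]
  congr 1
  have hins : (Finset.univ : Finset (Fin q)).val = z ::ₘ (Finset.univ.erase z).val := by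
    rw [← Finset.insert_erase (Finset.mem_univ z)]
    rw [Finset.insert_val_of_notMem (Finset.notMem_erase z _)]
    simp
  rw [hins, Multiset.map_cons, Multiset.singleton_add]
  have ez : (Prod.snd ∘ g) z = -(lam / 2) := by
    show (g z).2 = _
    rw [hgb z]
    have : 2 * (lam * b z) = 2 * (-(lam / 2)) := by
      have : 2 * (lam * b z) = lam * (2 * b z) := by ring
      rw [this, hz1]; field_simp
    exact mul_left_cancel₀ h20 this
  rw [ez]
  congr 1
  rw [Multiset.eq_replicate]
  refine ⟨?_, ?_⟩
  · rw [Multiset.card_map]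
    show (Finset.univ.erase z).card = 7
    rw [Finset.card_erase_of_mem (Finset.mem_univ z), Finset.card_univ, Fintype.card_fin, hq8]
  · intro x hx
    obtain ⟨y, hy, rfl⟩ := Multiset.mem_map.mp hx
    have hyz : y ≠ z := Finset.ne_of_mem_erase (Finset.mem_val.mp hy)
    show (g y).2 = _
    rw [hgb y]
    have : 2 * (lam * b y) = 2 * (lam / 2) := by
      have : 2 * (lam * b y) = lam * (2 * b y) := by ring
      rw [this, hz2 y (Finset.mem_univ y) hyz]; field_simp
    exact mul_left_cancel₀ h20 this

/-- Structure theorem without the upper bound on the length. -/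
theorem structure_theorem (hp : 4000 < p) (h2 : ∀ x : V, x + x = 0) (hV : Fintype.card V = 32)
    {A : Multiset (V × ZMod p)} (hA : Atom A) (hc : 2 * p + 5 ≤ A.card) :
    A.card = 2 * p + 5 ∧ ∃ w : ZMod p, w ≠ 0 ∧
      A.map Prod.snd = Multiset.replicate (2 * p - 3) (w + w) +
        ({-w} + Multiset.replicate 7 w) := by
  classical
  by_cases hc' : A.card ≤ 2 * p + 6
  · exact long_atoms hp h2 hV hA hc hc'
  · exfalso
    obtain ⟨T, hT, hTc⟩ := exists_le_card A (n := 2 * p + 5) hc
    have hTz : ZF T := hA.zf hT (by rintro rfl; omega)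
    have hAt := hTz.close
    have hcard : ({-T.sum} + T).card = 2 * p + 6 := by
      rw [Multiset.card_add, Multiset.card_singleton, hTc]; ring
    have := (long_atoms hp h2 hV hAt (by omega) (by omega)).1
    omega

end grp

end Pool.Agent.Rho
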